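import Pool.Agent.V11260.LP.H3

set_option autoImplicit false
set_option linter.unusedSectionVars false
open Filter Topology MeasureTheory
open scoped ENNReal

namespace Pool.Agent.V11260.LP

section
variable {Ω : Type} [AddCommGroup Ω] [TopologicalSpace Ω] [IsTopologicalAddGroup Ω]
  [CompactSpace Ω] [T2Space Ω] [TotallyDisconnectedSpace Ω] [Infinite Ω]
  [MeasurableSpace Ω] [BorelSpace Ω]

/-- near any `f` there is a potential with almost surely pure point spectrum -/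
theorem main_prob (μ : Measure Ω) [IsProbabilityMeasure μ] (α : Ω)
    (hα : Dense (Set.range (fun n : ℤ => n • α))) (f : C(Ω, ℝ)) {ε : ℝ} (hε : 0 < ε)
    (hε1 : ε ≤ 1) :
    ∃ F : C(Ω, ℝ), ‖F - f‖ ≤ ε ∧ ∀ᵐ ω ∂μ,
      (Submodule.span ℂ
        {ψ : lp (fun _ : ℤ => ℂ) 2 |
          ∃ E : ℝ, ∀ n : ℤ,
            ψ (n + 1) + ψ (n - 1) + (F (ω + n • α) : ℂ) * ψ n = (E : ℂ) * ψ n}
        ).topologicalClosure = ⊤ := by
  set M : ℝ := 4 + 2 * (‖f‖ + 2) with hM
  obtain ⟨r, hr⟩ := main_r μ α f hα hε hε1 hM.ge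
  -- almost sure statement on the product space
  have hDm : ∀ m n, Measurable fun p => DD M (VV α f ε (ci α r) p) m n := fun m n =>
    (DD_meas M m n).comp (VV_meas α f hε (ci_adm α r))
  have h1 : ∀ m, ∀ᵐ p ∂(μ.prod PP), 1 ≤ ∑' n, DD M (VV α f ε (ci α r) p) m n := by
    intro m
    have hle : ∀ p, ∑' n, DD M (VV α f ε (ci α r) p) m n ≤ 1 := fun p =>
      DD_tsum_one (VV α f ε (ci α r) p) (‖f‖ + 2) (by positivity) (VV_bd α f hε hε1 _ p) M hM.ge m
    have hint : ∫⁻ _, 1 ∂(μ.prod PP) ≤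
        ∫⁻ p, ∑' n, DD M (VV α f ε (ci α r) p) m n ∂(μ.prod PP) := by
      rw [lintegral_const, measure_univ, mul_one, lintegral_tsum fun n => (hDm m n).aemeasurable]
      exact hr m
    have h2 := ae_eq_of_ae_le_of_lintegral_le (μ := μ.prod PP) (Eventually.of_forall hle)
      (ne_top_of_le_ne_top ENNReal.one_ne_top (by
        calc _ ≤ ∫⁻ _, 1 ∂(μ.prod PP) := lintegral_mono hle
          _ = 1 := by rw [lintegral_const, measure_univ, mul_one]))
      aemeasurable_const hint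
    filter_upwards [h2] with p hp
    exact hp.ge
  have h2 : ∀ᵐ p ∂(μ.prod PP), ∀ m, 1 ≤ ∑' n, DD M (VV α f ε (ci α r) p) m n := ae_all_iff.2 h1
  have h3 : ∀ᵐ q ∂(PP.prod μ), ∀ m, 1 ≤ ∑' n, DD M (VV α f ε (ci α r) q.swap) m n :=
    (Measure.measurePreserving_swap (μ := PP) (ν := μ)).quasiMeasurePreserving.ae h2
  have h4 := Measure.ae_ae_of_ae_prod h3
  obtain ⟨x, hx⟩ := h4.exists
  let F : C(Ω, ℝ) := ⟨fun ω => f ω + ∑' i, am ε i * ((x (i, r i ω) : unitInterval) : ℝ), by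
    refine Vc_cont hε f f.continuous (fun i ω => x (i, r i ω)) (fun i => ?_)
    have : Continuous fun z : ℤ => x (i, z) := continuous_of_discreteTopology
    exact this.comp (r i).continuous⟩
  refine ⟨F, ?_, ?_⟩
  · rw [ContinuousMap.norm_le _ hε.le]
    intro ω
    change ‖(f ω + ∑' i, am ε i * ((x (i, r i ω) : unitInterval) : ℝ)) - f ω‖ ≤ ε
    rw [add_sub_cancel_left, Real.norm_eq_abs, abs_of_nonneg (tsum_nonneg fun i =>
      mul_nonneg (am_pos hε i).le (x _).2.1)]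
    have hs : Summable fun i => am ε i * ((x (i, r i ω) : unitInterval) : ℝ) :=
      Summable.of_nonneg_of_le (fun i => mul_nonneg (am_pos hε i).le (x _).2.1)
        (fun i => mul_le_of_le_one_right (am_pos hε i).le (x _).2.2) (am_sum ε).summable
    have h := hs.tsum_le_tsum
      (fun i => mul_le_of_le_one_right (am_pos hε i).le (x _).2.2) (am_sum ε).summable
    rwa [(am_sum ε).tsum_eq] at h
  · filter_upwards [hx] with ω hω
    have hV := VV_bd α f hε hε1 (ci α r) (ω, x)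
    have h5 := DD_top (VV α f ε (ci α r) (ω, x)) (‖f‖ + 2) (by positivity) hV M hM.ge hω
    exact complex_top (VV α f ε (ci α r) (ω, x)) (‖f‖ + 2) (by positivity) hV h5

/-- the same for Haar measures -/
theorem main_haar [TopologicalSpace.MetrizableSpace Ω] (μ : Measure Ω) [μ.IsAddHaarMeasure] (α : Ω)
    (hα : Dense (Set.range (fun n : ℤ => n • α))) (f : C(Ω, ℝ)) {ε : ℝ} (hε : 0 < ε)
    (hε1 : ε ≤ 1) :
    ∃ F : C(Ω, ℝ), ‖F - f‖ ≤ ε ∧ ∀ᵐ ω ∂μ,
      (Submodule.span ℂ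
        {ψ : lp (fun _ : ℤ => ℂ) 2 |
          ∃ E : ℝ, ∀ n : ℤ,
            ψ (n + 1) + ψ (n - 1) + (F (ω + n • α) : ℂ) * ψ n = (E : ℂ) * ψ n}
        ).topologicalClosure = ⊤ := by
  have h0 : μ Set.univ ≠ 0 := by
    have : μ ≠ 0 := NeZero.ne μ
    simpa using this
  have hfin : μ Set.univ ≠ ⊤ := (isCompact_univ.measure_lt_top).ne
  set μ' : Measure Ω := (μ Set.univ)⁻¹ • μ with hμ'
  have : IsProbabilityMeasure μ' := ⟨by
    rw [hμ', Measure.smul_apply, smul_eq_mul, ENNReal.inv_mul_cancel h0 hfin]⟩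
  obtain ⟨F, hF, hF'⟩ := main_prob μ' α hα f hε hε1
  refine ⟨F, hF, ?_⟩
  rw [hμ', Measure.ae_ennreal_smul_measure_eq (ENNReal.inv_ne_zero.2 hfin)] at hF'
  exact hF'

end

end Pool.Agent.V11260.LP
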