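import Mathlib

set_option autoImplicit false
open scoped InnerProductSpace

namespace Pool.Agent.V11260.LP

/-- real `ℓ²` -/
abbrev L2 (ι : Type) := lp (fun _ : ι => ℝ) 2

variable {ι κ : Type}

theorem memL2_iff (f : ι → ℝ) : Memℓp f 2 ↔ Summable fun i => f i ^ 2 := by
  rw [memℓp_gen_iff (by norm_num)]
  simp

theorem L2sum (f : L2 ι) : Summable fun i => f i ^ 2 := (memL2_iff f).1 (lp.memℓp f)

/-- an element of `ℓ²` -/
noncomputable def mkL2 (f : ι → ℝ) (h : Summable fun i => f i ^ 2) : L2 ι := ⟨f, (memL2_iff f).2 h⟩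

@[simp] theorem mkL2_apply (f : ι → ℝ) (h : Summable fun i => f i ^ 2) (i : ι) :
    mkL2 f h i = f i := rfl

theorem inner_L2 (f g : L2 ι) : ⟪f, g⟫_ℝ = ∑' i, f i * g i := by
  rw [lp.inner_eq_tsum]
  refine tsum_congr fun i => ?_
  simp [mul_comm]

theorem sum_inner_L2 (f g : L2 ι) : Summable fun i => f i * g i := by
  have h := lp.summable_inner (𝕜 := ℝ) f g
  refine h.congr fun i => ?_
  simp [mul_comm]

theorem normsq (f : L2 ι) : ‖f‖ ^ 2 = ∑' i, f i ^ 2 := by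
  rw [← real_inner_self_eq_norm_sq, inner_L2]
  exact tsum_congr fun i => by ring

/-- a bounded operator on `ℓ²` from an operation on functions -/
noncomputable def mkCLM (A : (ι → ℝ) →ₗ[ℝ] (κ → ℝ)) (C : ℝ) (hC : 0 ≤ C)
    (h : ∀ f : L2 ι, (Summable fun i => A f i ^ 2) ∧ ∑' i, A f i ^ 2 ≤ C ^ 2 * ‖f‖ ^ 2) :
    L2 ι →L[ℝ] L2 κ :=
  LinearMap.mkContinuous
    { toFun := fun f => mkL2 (A f) (h f).1
      map_add' := fun f g => by
        ext i
        exact congrFun (A.map_add _ _) i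
      map_smul' := fun c f => by
        ext i
        simp } C (fun f => by
          have h1 := (h f).2
          have h2 : ‖mkL2 (A f) (h f).1‖ ^ 2 ≤ (C * ‖f‖) ^ 2 := by
            rw [normsq, mul_pow]
            exact h1
          exact le_of_sq_le_sq h2 (by positivity))

@[simp] theorem mkCLM_apply (A : (ι → ℝ) →ₗ[ℝ] (κ → ℝ)) (C : ℝ) (hC : 0 ≤ C)
    (h : ∀ f : L2 ι, (Summable fun i => A f i ^ 2) ∧ ∑' i, A f i ^ 2 ≤ C ^ 2 * ‖f‖ ^ 2)
    (f : L2 ι) (i : κ) : mkCLM A C hC h f i = A f i := rfl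

theorem mkCLM_norm (A : (ι → ℝ) →ₗ[ℝ] (κ → ℝ)) (C : ℝ) (hC : 0 ≤ C)
    (h : ∀ f : L2 ι, (Summable fun i => A f i ^ 2) ∧ ∑' i, A f i ^ 2 ≤ C ^ 2 * ‖f‖ ^ 2) :
    ‖mkCLM A C hC h‖ ≤ C := LinearMap.mkContinuous_norm_le _ hC _

/-- composition with a bijection -/
noncomputable def cmp (σ : ι ≃ ι) : L2 ι →L[ℝ] L2 ι :=
  mkCLM (LinearMap.funLeft ℝ ℝ σ) 1 zero_le_one (fun f => by
    have h1 := L2sum f
    refine ⟨(σ.summable_iff (f := fun i => f i ^ 2)).2 h1, ?_⟩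
    rw [normsq, one_pow, one_mul]
    exact le_of_eq (σ.tsum_eq (fun i => f i ^ 2)))

@[simp] theorem cmp_apply (σ : ι ≃ ι) (f : L2 ι) (i : ι) : cmp σ f i = f (σ i) := rfl

theorem cmp_norm (σ : ι ≃ ι) : ‖cmp σ‖ ≤ 1 := mkCLM_norm _ _ _ _

theorem cmp_adj (σ : ι ≃ ι) (f g : L2 ι) : ⟪cmp σ f, g⟫_ℝ = ⟪f, cmp σ.symm g⟫_ℝ := by
  rw [inner_L2, inner_L2, ← σ.tsum_eq (fun i => f i * (cmp σ.symm g) i)]
  refine tsum_congr fun i => ?_
  simp

/-- multiplication by a bounded function -/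
noncomputable def mlt (v : ι → ℝ) (K : ℝ) (hK : 0 ≤ K) (hv : ∀ i, |v i| ≤ K) : L2 ι →L[ℝ] L2 ι :=
  mkCLM (LinearMap.mulLeft ℝ v) K hK (fun f => by
    have h1 := L2sum f
    have h2 : ∀ i, (v i * f i) ^ 2 ≤ K ^ 2 * f i ^ 2 := by
      intro i
      rw [mul_pow]
      have : v i ^ 2 ≤ K ^ 2 := by
        rw [← sq_abs (v i)]
        exact pow_le_pow_left₀ (abs_nonneg _) (hv i) 2
      nlinarith [sq_nonneg (f i)]
    have h3 : Summable fun i => (v i * f i) ^ 2 :=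
      Summable.of_nonneg_of_le (fun i => sq_nonneg _) h2 (h1.mul_left _)
    refine ⟨h3, ?_⟩
    rw [normsq, ← tsum_mul_left]
    exact h3.tsum_le_tsum h2 (h1.mul_left _))

@[simp] theorem mlt_apply (v : ι → ℝ) (K : ℝ) (hK : 0 ≤ K) (hv : ∀ i, |v i| ≤ K) (f : L2 ι)
    (i : ι) : mlt v K hK hv f i = v i * f i := rfl

theorem mlt_norm (v : ι → ℝ) (K : ℝ) (hK : 0 ≤ K) (hv : ∀ i, |v i| ≤ K) :
    ‖mlt v K hK hv‖ ≤ K := mkCLM_norm _ _ _ _

theorem mlt_adj (v : ι → ℝ) (K : ℝ) (hK : 0 ≤ K) (hv : ∀ i, |v i| ≤ K) (f g : L2 ι) :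
    ⟪mlt v K hK hv f, g⟫_ℝ = ⟪f, mlt v K hK hv g⟫_ℝ := by
  rw [inner_L2, inner_L2]
  refine tsum_congr fun i => ?_
  simp only [mlt_apply]
  ring

/-- the basis vectors -/
noncomputable def sg [DecidableEq ι] (i : ι) : L2 ι := lp.single 2 i (1 : ℝ)

@[simp] theorem sg_apply [DecidableEq ι] (i j : ι) : sg i j = if j = i then 1 else 0 := by
  unfold sg
  rw [lp.single_apply, Pi.single_apply]

theorem inner_sg [DecidableEq ι] (i : ι) (f : L2 ι) : ⟪sg i, f⟫_ℝ = f i := by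
  unfold sg
  rw [lp.inner_single_left]
  simp

theorem norm_sg [DecidableEq ι] (i : ι) : ‖sg i‖ = 1 := by
  unfold sg
  rw [lp.norm_single (by norm_num)]
  simp

/-- tensor products -/
theorem tens_aux (f : L2 ι) (g : L2 κ) : Summable fun p : ι × κ => (f p.1 * g p.2) ^ 2 := by
  have h := (L2sum f).mul_of_nonneg (L2sum g) (fun i => sq_nonneg _) (fun i => sq_nonneg _)
  refine h.congr fun p => ?_
  ring

noncomputable def tens (f : L2 ι) (g : L2 κ) : L2 (ι × κ) :=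
  mkL2 (fun p => f p.1 * g p.2) (tens_aux f g)

@[simp] theorem tens_apply (f : L2 ι) (g : L2 κ) (p : ι × κ) : tens f g p = f p.1 * g p.2 := rfl

theorem inner_tens (f f' : L2 ι) (g g' : L2 κ) :
    ⟪tens f g, tens f' g'⟫_ℝ = ⟪f, f'⟫_ℝ * ⟪g, g'⟫_ℝ := by
  rw [inner_L2, inner_L2, inner_L2]
  have h1 := sum_inner_L2 f f'
  have h2 := sum_inner_L2 g g'
  have h3 := sum_inner_L2 (tens f g) (tens f' g')
  have h4 : Summable fun p : ι × κ => (f p.1 * f' p.1) * (g p.2 * g' p.2) := by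
    refine h3.congr fun p => ?_
    simp only [tens_apply]
    ring
  rw [h1.tsum_mul_tsum h2 h4]
  refine tsum_congr fun p => ?_
  simp only [tens_apply]
  ring

theorem norm_tens (f : L2 ι) (g : L2 κ) : ‖tens f g‖ = ‖f‖ * ‖g‖ := by
  have h : ‖tens f g‖ ^ 2 = (‖f‖ * ‖g‖) ^ 2 := by
    rw [← real_inner_self_eq_norm_sq, inner_tens, real_inner_self_eq_norm_sq,
      real_inner_self_eq_norm_sq]
    ring
  rwa [sq_eq_sq₀ (norm_nonneg _) (by positivity)] at h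

theorem tens_sg [DecidableEq ι] [DecidableEq κ] (i : ι) (j : κ) :
    tens (sg i) (sg j) = sg (i, j) := by
  ext p
  obtain ⟨a, b⟩ := p
  simp only [tens_apply, sg_apply, Prod.mk.injEq]
  by_cases h1 : a = i <;> by_cases h2 : b = j <;> simp [h1, h2]

end Pool.Agent.V11260.LP
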