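import Pool.Agent.V11260.LP.A1

set_option autoImplicit false
open scoped InnerProductSpace
open Filter Topology

namespace Pool.Agent.V11260.LP

section
variable (V : ℤ → ℝ) (K : ℝ) (hK : 0 ≤ K) (hV : ∀ n, |V n| ≤ K)

/-- the Schrödinger operator on real `ℓ²(ℤ)` -/
noncomputable def HV : L2 ℤ →L[ℝ] L2 ℤ :=
  cmp (Equiv.addRight 1) + cmp (Equiv.addRight (-1)) + mlt V K hK hV

theorem HV_apply (f : L2 ℤ) (n : ℤ) :
    HV V K hK hV f n = f (n + 1) + f (n - 1) + V n * f n := rfl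

theorem HV_adj (f g : L2 ℤ) : ⟪HV V K hK hV f, g⟫_ℝ = ⟪f, HV V K hK hV g⟫_ℝ := by
  simp only [HV, add_apply, inner_add_left, inner_add_right, cmp_adj, mlt_adj]
  have e1 : (Equiv.addRight (1 : ℤ)).symm = Equiv.addRight (-1) := by
    ext; simp [Equiv.addRight_symm]
  have e2 : (Equiv.addRight (-1 : ℤ)).symm = Equiv.addRight 1 := by
    ext; simp [Equiv.addRight_symm]
  rw [e1, e2]
  ring

theorem two_bd {hV : ∀ n, |V n| ≤ K} (p : ℤ × ℤ) : |V p.1 - V p.2| ≤ 2 * K := by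
  calc |V p.1 - V p.2| ≤ |V p.1| + |V p.2| := abs_sub _ _
    _ ≤ K + K := add_le_add (hV _) (hV _)
    _ = 2 * K := by ring

/-- the commutator with `H`, on real `ℓ²(ℤ × ℤ)` -/
noncomputable def AV : L2 (ℤ × ℤ) →L[ℝ] L2 (ℤ × ℤ) :=
  cmp (Equiv.prodCongr (Equiv.addRight 1) (Equiv.refl ℤ)) +
  cmp (Equiv.prodCongr (Equiv.addRight (-1)) (Equiv.refl ℤ)) -
  cmp (Equiv.prodCongr (Equiv.refl ℤ) (Equiv.addRight 1)) -
  cmp (Equiv.prodCongr (Equiv.refl ℤ) (Equiv.addRight (-1))) +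
  mlt (fun p : ℤ × ℤ => V p.1 - V p.2) (2 * K) (by positivity) (two_bd V K (hV := hV))

theorem AV_apply (F : L2 (ℤ × ℤ)) (p : ℤ × ℤ) :
    AV V K hK hV F p = F (p.1 + 1, p.2) + F (p.1 - 1, p.2) - F (p.1, p.2 + 1) - F (p.1, p.2 - 1)
      + (V p.1 - V p.2) * F p := rfl

theorem AV_adj (f g : L2 (ℤ × ℤ)) : ⟪AV V K hK hV f, g⟫_ℝ = ⟪f, AV V K hK hV g⟫_ℝ := by
  simp only [AV, add_apply, sub_apply, inner_add_left,
    inner_add_right, inner_sub_left, inner_sub_right, cmp_adj, mlt_adj]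
  have e1 : (Equiv.prodCongr (Equiv.addRight (1 : ℤ)) (Equiv.refl ℤ)).symm =
      Equiv.prodCongr (Equiv.addRight (-1)) (Equiv.refl ℤ) := by
    ext <;> simp [Equiv.addRight_symm]
  have e2 : (Equiv.prodCongr (Equiv.addRight (-1 : ℤ)) (Equiv.refl ℤ)).symm =
      Equiv.prodCongr (Equiv.addRight 1) (Equiv.refl ℤ) := by
    ext <;> simp [Equiv.addRight_symm]
  have e3 : (Equiv.prodCongr (Equiv.refl ℤ) (Equiv.addRight (1 : ℤ))).symm =
      Equiv.prodCongr (Equiv.refl ℤ) (Equiv.addRight (-1)) := by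
    ext <;> simp [Equiv.addRight_symm]
  have e4 : (Equiv.prodCongr (Equiv.refl ℤ) (Equiv.addRight (-1 : ℤ))).symm =
      Equiv.prodCongr (Equiv.refl ℤ) (Equiv.addRight 1) := by
    ext <;> simp [Equiv.addRight_symm]
  rw [e1, e2, e3, e4]
  ring

theorem AV_norm : ‖AV V K hK hV‖ ≤ 4 + 2 * K := by
  unfold AV
  refine (norm_add_le _ _).trans ?_
  have h1 := mlt_norm (fun p : ℤ × ℤ => V p.1 - V p.2) (2 * K) (by positivity)
    (two_bd V K (hV := hV))
  refine add_le_add ?_ h1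
  refine (norm_sub_le _ _).trans ?_
  refine (add_le_add ((norm_sub_le _ _).trans (add_le_add ((norm_add_le _ _).trans
    (add_le_add (cmp_norm _) (cmp_norm _))) (cmp_norm _))) (cmp_norm _)).trans ?_
  norm_num

theorem AV_tens (f g : L2 ℤ) :
    AV V K hK hV (tens f g) = tens (HV V K hK hV f) g - tens f (HV V K hK hV g) := by
  ext p
  rw [AV_apply, lp.coeFn_sub, Pi.sub_apply]
  simp only [tens_apply, HV_apply]
  ring

/-- two `ℓ²` solutions have zero Wronskian -/
theorem wronsk {E : ℝ} {f g : L2 ℤ} (hf : ∀ n : ℤ, f (n + 1) + f (n - 1) + V n * f n = E * f n)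
    (hg : ∀ n : ℤ, g (n + 1) + g (n - 1) + V n * g n = E * g n) (n : ℤ) :
    f (n + 1) * g n - f n * g (n + 1) = 0 := by
  have h0 : ∀ h : L2 ℤ, Tendsto (fun n : ℤ => h n) cofinite (𝓝 0) := by
    intro h
    have h1 := (L2sum h).tendsto_cofinite_zero
    rw [tendsto_zero_iff_abs_tendsto_zero]
    have h2 := h1.sqrt
    simp only [Real.sqrt_sq_eq_abs, Real.sqrt_zero] at h2
    exact h2
  have h1 : ∀ n : ℤ, f (n + 1) * g n - f n * g (n + 1) = f (0 + 1) * g 0 - f 0 * g (0 + 1) := by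
    intro n
    induction n using Int.induction_on with
    | zero => rfl
    | succ i ih =>
      rw [← ih]
      have e1 := hf (i + 1)
      have e2 := hg (i + 1)
      simp only [add_sub_cancel_right] at e1 e2
      linear_combination g ((i : ℤ) + 1) * e1 - f ((i : ℤ) + 1) * e2
    | pred i ih =>
      rw [← ih]
      have e1 := hf (-i)
      have e2 := hg (-i)
      simp only [sub_add_cancel]
      linear_combination (-g (-(i : ℤ))) * e1 + f (-(i : ℤ)) * e2
  have h2 : Tendsto (fun n : ℤ => f (n + 1) * g n - f n * g (n + 1)) cofinite (𝓝 0) := by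
    have hs : Tendsto (fun n : ℤ => n + 1) cofinite cofinite :=
      (add_left_injective (1 : ℤ)).tendsto_cofinite
    have := (((h0 f).comp hs).mul (h0 g)).sub ((h0 f).mul ((h0 g).comp hs))
    simpa using this
  have h3 : Tendsto (fun _ : ℤ => f (0 + 1) * g 0 - f 0 * g (0 + 1)) (cofinite : Filter ℤ) (𝓝 0) :=
    h2.congr h1
  rw [h1 n]
  exact tendsto_nhds_unique tendsto_const_nhds h3

/-- eigenvalues are simple -/
theorem simple {E : ℝ} {f g : L2 ℤ} (hf : HV V K hK hV f = E • f) (hg : HV V K hK hV g = E • g)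
    (hf0 : f ≠ 0) : ∃ c : ℝ, g = c • f := by
  have H : ∀ h : L2 ℤ, HV V K hK hV h = E • h →
      ∀ n : ℤ, h (n + 1) + h (n - 1) + V n * h n = E * h n := by
    intro h hh n
    rw [← HV_apply V K hK hV h n, hh]
    rfl
  obtain ⟨n0, hn0⟩ : ∃ n, f n ≠ 0 := by
    by_contra hcon
    push Not at hcon
    exact hf0 (lp.ext (funext hcon))
  refine ⟨g n0 / f n0, ?_⟩
  set φ : L2 ℤ := g - (g n0 / f n0) • f with hφ
  have hφe : HV V K hK hV φ = E • φ := by
    rw [hφ, map_sub, map_smul, hf, hg, smul_sub, smul_comm]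
  have h0 : φ n0 = 0 := by
    rw [hφ, lp.coeFn_sub, Pi.sub_apply, lp.coeFn_smul, Pi.smul_apply, smul_eq_mul,
      div_mul_cancel₀ _ hn0, sub_self]
  have h1 : φ (n0 + 1) = 0 := by
    have := wronsk V (H f hf) (H φ hφe) n0
    rw [h0, mul_zero, zero_sub, neg_eq_zero] at this
    exact (mul_eq_zero.1 this).resolve_left hn0
  have h2 := H φ hφe
  have h3 : ∀ n : ℤ, φ n = 0 ∧ φ (n + 1) = 0 := by
    intro n
    induction n using Int.inductionOn' (b := n0) with
    | zero => exact ⟨h0, h1⟩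
    | succ k _ ih =>
      refine ⟨ih.2, ?_⟩
      have := h2 (k + 1)
      rw [add_sub_cancel_right, ih.1, ih.2] at this
      simpa using this
    | pred k _ ih =>
      have := h2 k
      rw [ih.1, ih.2] at this
      refine ⟨by simpa using this, ?_⟩
      rw [sub_add_cancel]
      exact ih.1
  have h4 : φ = 0 := lp.ext (funext fun n => (h3 n).1)
  exact sub_eq_zero.1 h4

end

end Pool.Agent.V11260.LP
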