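import Mathlib

set_option autoImplicit false
open scoped InnerProductSpace
open Filter Topology

namespace Pool.Agent.V11260.LP

section
variable {E : Type} [NormedAddCommGroup E] [InnerProductSpace ℝ E]

theorem clm_pow (f : E →L[ℝ] E) (k : ℕ) (x : E) : (f ^ k) x = f^[k] x := by
  induction k with
  | zero => rfl
  | succ k ih =>
    rw [pow_succ', Function.iterate_succ_apply', ← ih]
    rfl

/-- `1 - M⁻² A²` -/
noncomputable def BB (A : E →L[ℝ] E) (M : ℝ) : E →L[ℝ] E :=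
  ContinuousLinearMap.id ℝ E - (M⁻¹ ^ 2) • (A.comp A)

theorem BB_apply (A : E →L[ℝ] E) (M : ℝ) (f : E) : BB A M f = f - (M⁻¹ ^ 2) • A (A f) := rfl

variable {A : E →L[ℝ] E} {M : ℝ} (hA : ∀ f g, ⟪A f, g⟫_ℝ = ⟪f, A g⟫_ℝ) (hM : 0 < M)
  (hn : ‖A‖ ≤ M)
include hA

theorem BB_adj (f g : E) : ⟪BB A M f, g⟫_ℝ = ⟪f, BB A M g⟫_ℝ := by
  simp only [BB_apply, inner_sub_left, inner_sub_right, inner_smul_left, inner_smul_right, hA]
  simp

include hM hn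

theorem BB_sq (f : E) : ‖BB A M f‖ ^ 2 ≤ ‖f‖ ^ 2 - M⁻¹ ^ 2 * ‖A f‖ ^ 2 := by
  have h1 : ‖BB A M f‖ ^ 2 = ‖f‖ ^ 2 - 2 * (M⁻¹ ^ 2) * ‖A f‖ ^ 2 +
      (M⁻¹ ^ 2) ^ 2 * ‖A (A f)‖ ^ 2 := by
    rw [BB_apply, norm_sub_sq_real, inner_smul_right, norm_smul, ← hA f (A f),
      real_inner_self_eq_norm_sq, mul_pow, Real.norm_eq_abs, sq_abs]
    ring
  have h2 : ‖A (A f)‖ ^ 2 ≤ M ^ 2 * ‖A f‖ ^ 2 := by
    rw [← mul_pow]
    exact pow_le_pow_left₀ (norm_nonneg _) (A.le_of_opNorm_le hn _) 2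
  rw [h1]
  have h3 : (M⁻¹ ^ 2) ^ 2 * ‖A (A f)‖ ^ 2 ≤ (M⁻¹ ^ 2) ^ 2 * (M ^ 2 * ‖A f‖ ^ 2) := by gcongr
  have h4 : (M⁻¹ ^ 2) ^ 2 * (M ^ 2 * ‖A f‖ ^ 2) = M⁻¹ ^ 2 * ‖A f‖ ^ 2 := by
    field_simp
  linarith

theorem BB_le (f : E) : ‖BB A M f‖ ≤ ‖f‖ := by
  have h := BB_sq hA hM hn f
  have : 0 ≤ M⁻¹ ^ 2 * ‖A f‖ ^ 2 := by positivity
  exact le_of_sq_le_sq (by linarith) (norm_nonneg _)

theorem BB_anti (f : E) : Antitone fun k : ℕ => ‖(BB A M ^ k) f‖ := by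
  refine antitone_nat_of_succ_le fun k => ?_
  rw [pow_succ']
  exact BB_le hA hM hn _

omit hM hn in
theorem BB_pow_adj (k : ℕ) (f g : E) : ⟪(BB A M ^ k) f, g⟫_ℝ = ⟪f, (BB A M ^ k) g⟫_ℝ := by
  induction k generalizing f g with
  | zero => simp
  | succ k ih =>
    have h1 : (BB A M ^ (k + 1)) f = BB A M ((BB A M ^ k) f) := by rw [pow_succ']; rfl
    have h2 : (BB A M ^ (k + 1)) g = (BB A M ^ k) (BB A M g) := by rw [pow_succ]; rfl
    rw [h1, h2, BB_adj hA, ih]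

omit hM hn in
theorem BB_pow_sq (k : ℕ) (f : E) : ‖(BB A M ^ k) f‖ ^ 2 = ⟪f, (BB A M ^ (2 * k)) f⟫_ℝ := by
  rw [← real_inner_self_eq_norm_sq, BB_pow_adj hA, two_mul, pow_add]
  rfl

omit hM hn hA in
theorem BB_fix {f : E} (hf : A f = 0) : BB A M f = f := by
  rw [BB_apply, hf, map_zero, smul_zero, sub_zero]

/-- the infimum of `‖B^k e‖²` is the squared norm of the projection of `e` to the kernel -/
theorem BB_erg [CompleteSpace E] (e : E) : ∃ p : E, A p = 0 ∧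
    (∀ g, A g = 0 → ⟪p, g⟫_ℝ = ⟪e, g⟫_ℝ) ∧
    ∀ c : ℝ, (∀ k : ℕ, c ≤ ‖(BB A M ^ k) e‖ ^ 2) → c ≤ ‖p‖ ^ 2 := by
  set f : E →L[ℝ] E := BB A M ^ 2 with hf
  have hf1 : ‖f‖ ≤ 1 := by
    refine ContinuousLinearMap.opNorm_le_bound _ zero_le_one fun x => ?_
    rw [one_mul]
    have := BB_anti hA hM hn x (Nat.zero_le 2)
    simpa [hf] using this
  have hfix : ∀ x, f x = x ↔ A x = 0 := by
    intro x
    constructor
    · intro hx
      have h1 : ‖f x‖ ≤ ‖BB A M x‖ := by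
        rw [hf, pow_two]
        exact BB_le hA hM hn _
      rw [hx] at h1
      have h2 := BB_sq hA hM hn x
      have h3 : ‖x‖ ^ 2 ≤ ‖BB A M x‖ ^ 2 := pow_le_pow_left₀ (norm_nonneg _) h1 2
      have h4 : M⁻¹ ^ 2 * ‖A x‖ ^ 2 ≤ 0 := by linarith
      have h5 : ‖A x‖ ^ 2 ≤ 0 := by
        by_contra hcon
        have : 0 < M⁻¹ ^ 2 * ‖A x‖ ^ 2 := mul_pos (by positivity) (not_le.1 hcon)
        linarith
      have h6 : ‖A x‖ = 0 := by
        have := sq_nonneg ‖A x‖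
        exact pow_eq_zero_iff (two_ne_zero) |>.1 (le_antisymm h5 this)
      exact norm_eq_zero.1 h6
    · intro hx
      rw [hf, pow_two]
      change BB A M (BB A M x) = x
      rw [BB_fix hx, BB_fix hx]
  have herg := f.tendsto_birkhoffAverage_orthogonalProjection hf1 e
  set p := (f.eqLocus (1 : E →L[ℝ] E)).orthogonalProjectionOnto e with hp
  refine ⟨p, ?_, ?_, ?_⟩
  · rw [← hfix]
    exact p.2
  · intro g hg
    have hgm : g ∈ f.eqLocus (1 : E →L[ℝ] E) := (hfix g).2 hg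
    exact Submodule.inner_orthogonalProjectionOnto_eq_of_mem_right
      (K := f.eqLocus (1 : E →L[ℝ] E)) ⟨g, hgm⟩ e
  · intro c hc
    have h1 : ⟪e, (p : E)⟫_ℝ = ‖(p : E)‖ ^ 2 := by
      have := Submodule.inner_orthogonalProjectionOnto_eq_of_mem_right
        (K := f.eqLocus (1 : E →L[ℝ] E)) p e
      rw [← hp] at this
      rw [← this]
      exact real_inner_self_eq_norm_sq (p : E)
    rw [← h1]
    have h2 : Tendsto (fun n => ⟪e, birkhoffAverage ℝ f _root_.id n e⟫_ℝ) atTop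
        (𝓝 ⟪e, (p : E)⟫_ℝ) := (continuous_const.inner continuous_id).tendsto _ |>.comp herg
    refine ge_of_tendsto h2 ?_
    filter_upwards [eventually_gt_atTop 0] with n hn0
    rw [birkhoffAverage, birkhoffSum, inner_smul_right, inner_sum]
    have h3 : ∀ k, c ≤ ⟪e, _root_.id (f^[k] e)⟫_ℝ := by
      intro k
      refine (hc k).trans (le_of_eq ?_)
      rw [BB_pow_sq hA, pow_mul, ← hf, clm_pow]
      rfl
    have h4 : (n : ℝ) * c ≤ ∑ k ∈ Finset.range n, ⟪e, _root_.id (f^[k] e)⟫_ℝ := by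
      calc (n : ℝ) * c = ∑ k ∈ Finset.range n, c := by simp
        _ ≤ _ := Finset.sum_le_sum fun k _ => h3 k
    have h5 : (0 : ℝ) < n := Nat.cast_pos.2 hn0
    rw [inv_mul_eq_div, le_div_iff₀ h5]
    linarith

end

end Pool.Agent.V11260.LP
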