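import Pool.Agent.V11260.LP.A2
import Pool.Agent.V11260.LP.A3

set_option autoImplicit false
open scoped InnerProductSpace
open Filter Topology

namespace Pool.Agent.V11260.LP

section
variable {ι : Type}

/-- `ψ ↦ ψ ⊗ φ` -/
noncomputable def tR (φ : L2 ι) : L2 ι →L[ℝ] L2 (ι × ι) :=
  LinearMap.mkContinuous
    { toFun := fun ψ => tens ψ φ
      map_add' := fun f g => by
        ext p
        simp only [tens_apply, lp.coeFn_add, Pi.add_apply]
        ring
      map_smul' := fun c f => by
        ext p
        simp only [tens_apply, lp.coeFn_smul, Pi.smul_apply, smul_eq_mul, RingHom.id_apply]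
        ring } ‖φ‖ (fun f => by
          change ‖tens f φ‖ ≤ _
          rw [norm_tens, mul_comm])

theorem tR_apply (φ ψ : L2 ι) : tR φ ψ = tens ψ φ := rfl

theorem tR_norm (φ : L2 ι) : ‖tR φ‖ ≤ ‖φ‖ := LinearMap.mkContinuous_norm_le _ (norm_nonneg _) _

/-- the operator of an element of `ℓ²(ι × ι)` -/
noncomputable def TC (C : L2 (ι × ι)) : L2 ι →L[ℝ] L2 ι :=
  LinearMap.mkContinuous
    { toFun := fun φ => ContinuousLinearMap.adjoint (tR φ) C
      map_add' := fun f g => by
        refine ext_inner_right ℝ fun ψ => ?_
        rw [inner_add_left]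
        simp only [ContinuousLinearMap.adjoint_inner_left, tR_apply]
        rw [← inner_add_right]
        congr 1
        ext p
        simp only [tens_apply, lp.coeFn_add, Pi.add_apply]
        ring
      map_smul' := fun c f => by
        refine ext_inner_right ℝ fun ψ => ?_
        rw [inner_smul_left]
        simp only [ContinuousLinearMap.adjoint_inner_left, tR_apply]
        rw [← inner_smul_right]
        congr 1
        ext p
        simp only [tens_apply, lp.coeFn_smul, Pi.smul_apply, smul_eq_mul, RingHom.id_apply,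
          conj_trivial]
        ring } ‖C‖ (fun φ => by
          change ‖ContinuousLinearMap.adjoint (tR φ) C‖ ≤ _
          refine (ContinuousLinearMap.le_opNorm _ _).trans ?_
          rw [LinearIsometryEquiv.norm_map, mul_comm]
          gcongr
          exact tR_norm φ)

theorem TC_inner (C : L2 (ι × ι)) (φ ψ : L2 ι) : ⟪TC C φ, ψ⟫_ℝ = ⟪C, tens ψ φ⟫_ℝ := by
  change ⟪ContinuousLinearMap.adjoint (tR φ) C, ψ⟫_ℝ = _
  rw [ContinuousLinearMap.adjoint_inner_left, tR_apply]

theorem TC_norm (C : L2 (ι × ι)) : ‖TC C‖ ≤ ‖C‖ :=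
  LinearMap.mkContinuous_norm_le _ (norm_nonneg _) _

/-- linear in `C` -/
noncomputable def TL : L2 (ι × ι) →L[ℝ] (L2 ι →L[ℝ] L2 ι) :=
  LinearMap.mkContinuous
    { toFun := TC
      map_add' := fun C C' => by
        ext1 φ
        refine ext_inner_right ℝ fun ψ => ?_
        rw [add_apply, inner_add_left, TC_inner, TC_inner, TC_inner, inner_add_left]
      map_smul' := fun c C => by
        ext1 φ
        refine ext_inner_right ℝ fun ψ => ?_
        rw [RingHom.id_apply, smul_apply, inner_smul_left, TC_inner, TC_inner,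
          inner_smul_left] } 1 (fun C => by
          rw [one_mul]
          exact TC_norm C)

theorem TL_apply (C : L2 (ι × ι)) : TL C = TC C := rfl

theorem TC_sg [DecidableEq ι] (a b : ι) (φ : L2 ι) : TC (sg (a, b)) φ = φ b • sg a := by
  refine ext_inner_right ℝ fun ψ => ?_
  rw [TC_inner, inner_smul_left, inner_sg, inner_sg, tens_apply]
  simp [mul_comm]

theorem TC_compact_sg [DecidableEq ι] (a b : ι) : IsCompactOperator (TC (sg (a, b))) := by
  have h : (TC (sg (a, b)) : L2 ι → L2 ι) =
      (ContinuousLinearMap.toSpanSingleton ℝ (sg a : L2 ι)) ∘ (innerSL ℝ (sg b : L2 ι)) := by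
    funext φ
    rw [TC_sg]
    simp only [Function.comp_apply, innerSL_apply_apply, inner_sg,
      ContinuousLinearMap.toSpanSingleton_apply]
  have h2 : IsCompactOperator (innerSL ℝ (sg b : L2 ι)) :=
    isCompactOperator_of_locallyCompactSpace_dom _
  have h3 := h2.clm_comp (ContinuousLinearMap.toSpanSingleton ℝ (sg a : L2 ι))
  rw [h]
  exact h3

theorem TC_compact (C : L2 (ι × ι)) : IsCompactOperator (TC C) := by
  classical
  have h1 : HasSum (fun p => lp.single 2 p (C p)) C := lp.hasSum_single (by norm_num) C
  have h2 : Tendsto (fun s : Finset (ι × ι) => TL (∑ p ∈ s, lp.single 2 p (C p))) atTop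
      (𝓝 (TL C)) := (TL.continuous.tendsto C).comp h1
  refine isCompactOperator_of_tendsto h2 (Eventually.of_forall fun s => ?_)
  induction s using Finset.induction_on with
  | empty =>
    rw [Finset.sum_empty, map_zero]
    exact isCompactOperator_zero
  | insert a s ha ih =>
    rw [Finset.sum_insert ha, map_add]
    refine IsCompactOperator.add ?_ ih
    have h3 : (lp.single 2 a (C a) : L2 (ι × ι)) = C a • sg a := by
      unfold sg
      rw [← lp.single_smul, smul_eq_mul, mul_one]
    rw [h3, map_smul]
    exact (TC_compact_sg a.1 a.2).smul (C a)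

end

end Pool.Agent.V11260.LP
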