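import Pool.Agent.V11260.LP.A4

set_option autoImplicit false
open scoped InnerProductSpace
open Filter Topology Module.End

namespace Pool.Agent.V11260.LP

section
variable (V : ℤ → ℝ) (K : ℝ) (hK : 0 ≤ K) (hV : ∀ n, |V n| ≤ K)

theorem TC_comm {C : L2 (ℤ × ℤ)} (hC : AV V K hK hV C = 0) (φ : L2 ℤ) :
    HV V K hK hV (TC C φ) = TC C (HV V K hK hV φ) := by
  refine ext_inner_right ℝ fun ψ => ?_
  rw [HV_adj, TC_inner, TC_inner]
  have h := AV_adj V K hK hV C (tens ψ φ)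
  rw [hC, inner_zero_left, AV_tens, inner_sub_right] at h
  linarith

/-- a nonzero element of the commutant sees an eigenvector -/
theorem exists_eig {C : L2 (ℤ × ℤ)} (hC : AV V K hK hV C = 0) (hC0 : C ≠ 0) :
    ∃ (E : ℝ) (ψ : L2 ℤ), ψ ≠ 0 ∧ HV V K hK hV ψ = E • ψ ∧ ⟪C, tens ψ ψ⟫_ℝ ≠ 0 := by
  set T := TC C with hT
  set S := (ContinuousLinearMap.adjoint T).comp T with hS
  have hSi : ∀ φ ψ, ⟪S φ, ψ⟫_ℝ = ⟪T φ, T ψ⟫_ℝ := fun φ ψ => by
    rw [hS, ContinuousLinearMap.comp_apply, ContinuousLinearMap.adjoint_inner_left]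
  have hScomp : IsCompactOperator S := (TC_compact C).clm_comp (ContinuousLinearMap.adjoint T)
  have hSsymm : (S : L2 ℤ →ₗ[ℝ] L2 ℤ).IsSymmetric := by
    intro φ ψ
    change ⟪S φ, ψ⟫_ℝ = ⟪φ, S ψ⟫_ℝ
    rw [hSi, real_inner_comm, ← hSi, real_inner_comm]
  have hHS : ∀ φ, HV V K hK hV (S φ) = S (HV V K hK hV φ) := by
    intro φ
    refine ext_inner_right ℝ fun ψ => ?_
    rw [HV_adj, hSi, hSi, ← TC_comm V K hK hV hC, ← TC_comm V K hK hV hC, HV_adj]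
  have hS0 : S ≠ 0 := by
    intro h0
    apply hC0
    ext p
    obtain ⟨a, b⟩ := p
    have h1 : T (sg b) = 0 := by
      have := hSi (sg b) (sg b)
      rw [h0, zero_apply, inner_zero_left, real_inner_self_eq_norm_sq] at this
      exact norm_eq_zero.1 (pow_eq_zero_iff (two_ne_zero) |>.1 this.symm)
    have h2 := TC_inner C (sg b) (sg a)
    rw [← hT, h1, inner_zero_left, tens_sg, real_inner_comm, inner_sg] at h2
    rw [← h2]
    rfl
  have h1 : ∃ μ, HasEigenvalue (S : L2 ℤ →ₗ[ℝ] L2 ℤ) μ ∧ μ ≠ 0 := by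
    by_contra hcon
    push Not at hcon
    exact hS0 ((ContinuousLinearMap.eq_zero_of_forall_hasEigenvalue_eq_zero hScomp hSsymm).1 hcon)
  obtain ⟨μ, hμ, hμ0⟩ := h1
  set W := eigenspace (S : L2 ℤ →ₗ[ℝ] L2 ℤ) μ with hW
  have hWfin : FiniteDimensional ℝ W :=
    ContinuousLinearMap.finite_dimensional_eigenspace hScomp μ hμ0
  have hinv : ∀ x ∈ W, (HV V K hK hV : L2 ℤ →ₗ[ℝ] L2 ℤ) x ∈ W := by
    intro x hx
    rw [hW, mem_eigenspace_iff] at hx ⊢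
    change S (HV V K hK hV x) = μ • HV V K hK hV x
    rw [← hHS, ← map_smul]
    exact congrArg _ hx
  have hHsymm : (HV V K hK hV : L2 ℤ →ₗ[ℝ] L2 ℤ).IsSymmetric := fun φ ψ => HV_adj V K hK hV φ ψ
  have hres := hHsymm.restrict_invariant hinv
  have h2 : ∃ E, eigenspace ((HV V K hK hV : L2 ℤ →ₗ[ℝ] L2 ℤ).restrict hinv) E ≠ ⊥ := by
    by_contra hcon
    push Not at hcon
    have := hres.subsingleton_of_no_eigenvalue_finiteDimensional hcon
    have h3 := (Submodule.subsingleton_iff_eq_bot).1 this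
    exact hμ h3
  obtain ⟨E, hE⟩ := h2
  obtain ⟨ψ, hψ, hψ0⟩ := Submodule.exists_mem_ne_zero_of_ne_bot hE
  rw [mem_eigenspace_iff] at hψ
  have hψ1 : HV V K hK hV (ψ : L2 ℤ) = E • (ψ : L2 ℤ) := congrArg Subtype.val hψ
  have hψ2 : (ψ : L2 ℤ) ≠ 0 := fun h => hψ0 (Subtype.ext h)
  obtain ⟨c, hc⟩ := simple V K hK hV (g := T ψ) hψ1 (by
    rw [hT, TC_comm V K hK hV hC, hψ1, map_smul]) hψ2
  refine ⟨E, ψ, hψ2, hψ1, ?_⟩
  rw [← TC_inner, ← hT, hc, inner_smul_left, real_inner_self_eq_norm_sq]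
  have hSψ : S ψ = μ • (ψ : L2 ℤ) := by
    have := mem_eigenspace_iff.1 ψ.2
    exact this
  have h4 : ‖T ψ‖ ^ 2 = μ * ‖(ψ : L2 ℤ)‖ ^ 2 := by
    rw [← real_inner_self_eq_norm_sq, ← hSi, hSψ, inner_smul_left, real_inner_self_eq_norm_sq]
    simp
  have h5 : ‖(ψ : L2 ℤ)‖ ^ 2 ≠ 0 := pow_ne_zero _ (norm_ne_zero_iff.2 hψ2)
  have h6 : c ≠ 0 := by
    rintro rfl
    rw [hc, zero_smul, norm_zero] at h4
    have := mul_ne_zero hμ0 h5
    rw [← h4] at this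
    simp at this
  simpa using mul_ne_zero h6 h5

end

end Pool.Agent.V11260.LP
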