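import Pool.Agent.V11260.LP.A5

set_option autoImplicit false
open scoped InnerProductSpace
open Filter Topology Module.End

namespace Pool.Agent.V11260.LP

section
variable (V : ℤ → ℝ) (K : ℝ) (hK : 0 ≤ K) (hV : ∀ n, |V n| ≤ K)

/-- the eigenvalues -/
def Eig : Set ℝ := {E | ∃ ψ : L2 ℤ, ψ ≠ 0 ∧ HV V K hK hV ψ = E • ψ}

/-- normalised eigenvectors -/
noncomputable def psi (E : Eig V K hK hV) : L2 ℤ :=
  ‖Classical.choose E.2‖⁻¹ • Classical.choose E.2

theorem psi_norm (E : Eig V K hK hV) : ‖psi V K hK hV E‖ = 1 := by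
  have h := (Classical.choose_spec E.2).1
  rw [psi, norm_smul, norm_inv, norm_norm, inv_mul_cancel₀ (norm_ne_zero_iff.2 h)]

theorem psi_eq (E : Eig V K hK hV) :
    HV V K hK hV (psi V K hK hV E) = (E : ℝ) • psi V K hK hV E := by
  have h := (Classical.choose_spec E.2).2
  rw [psi, map_smul, h, smul_comm]

theorem psi_orth : Orthonormal ℝ (psi V K hK hV) := by
  refine ⟨psi_norm V K hK hV, fun E E' hE => ?_⟩
  have h := HV_adj V K hK hV (psi V K hK hV E) (psi V K hK hV E')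
  rw [psi_eq, psi_eq, inner_smul_left, inner_smul_right, conj_trivial] at h
  have h1 : ((E : ℝ) - E') * ⟪psi V K hK hV E, psi V K hK hV E'⟫_ℝ = 0 := by linarith
  exact (mul_eq_zero.1 h1).resolve_left (sub_ne_zero.2 fun hc => hE (Subtype.ext hc))

/-- `ψ ⊗ ψ` -/
noncomputable def Psi (E : Eig V K hK hV) : L2 (ℤ × ℤ) :=
  tens (psi V K hK hV E) (psi V K hK hV E)

theorem Psi_orth : Orthonormal ℝ (Psi V K hK hV) := by
  refine ⟨fun E => ?_, fun E E' hE => ?_⟩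
  · rw [Psi, norm_tens, psi_norm, one_mul]
  · change ⟪Psi V K hK hV E, Psi V K hK hV E'⟫_ℝ = 0
    rw [Psi, Psi, inner_tens, (psi_orth V K hK hV).2 hE, zero_mul]

theorem Psi_ker (E : Eig V K hK hV) : AV V K hK hV (Psi V K hK hV E) = 0 := by
  rw [Psi, AV_tens, psi_eq]
  ext p
  rw [lp.coeFn_sub, Pi.sub_apply]
  simp only [tens_apply, lp.coeFn_smul, Pi.smul_apply, smul_eq_mul]
  rw [show ((0 : L2 (ℤ × ℤ)) : ℤ × ℤ → ℝ) p = 0 from rfl]
  ring

theorem Psi_compl {C : L2 (ℤ × ℤ)} (hC : AV V K hK hV C = 0)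
    (h : ∀ E, ⟪C, Psi V K hK hV E⟫_ℝ = 0) : C = 0 := by
  by_contra hC0
  obtain ⟨E, ψ, hψ0, hψ, hne⟩ := exists_eig V K hK hV hC hC0
  set E' : Eig V K hK hV := ⟨E, ψ, hψ0, hψ⟩ with hE'
  obtain ⟨c, hc⟩ := simple V K hK hV (psi_eq V K hK hV E') (g := ψ) hψ
    (norm_ne_zero_iff.1 (by rw [psi_norm]; exact one_ne_zero))
  apply hne
  have h1 : tens ψ ψ = (c ^ 2) • Psi V K hK hV E' := by
    rw [hc]
    ext p
    simp only [tens_apply, lp.coeFn_smul, Pi.smul_apply, smul_eq_mul, Psi]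
    ring
  rw [h1, inner_smul_right, h, mul_zero]

theorem ker_norm {p e : L2 (ℤ × ℤ)} (hp : AV V K hK hV p = 0)
    (he : ∀ g, AV V K hK hV g = 0 → ⟪p, g⟫_ℝ = ⟪e, g⟫_ℝ) :
    HasSum (fun E => ⟪e, Psi V K hK hV E⟫_ℝ ^ 2) (‖p‖ ^ 2) := by
  set W : Submodule ℝ (L2 (ℤ × ℤ)) := LinearMap.ker (AV V K hK hV : L2 (ℤ × ℤ) →ₗ[ℝ] L2 (ℤ × ℤ))
    with hW
  have hWc : IsClosed (W : Set (L2 (ℤ × ℤ))) := (AV V K hK hV).isClosed_ker
  have hcomp : CompleteSpace W := hWc.completeSpace_coe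
  let v : Eig V K hK hV → W := fun E => ⟨Psi V K hK hV E, Psi_ker V K hK hV E⟩
  have hv : Orthonormal ℝ v := by
    refine ⟨fun E => (Psi_orth V K hK hV).1 E, fun E E' hE => (Psi_orth V K hK hV).2 hE⟩
  have hsp : (Submodule.span ℝ (Set.range v))ᗮ = ⊥ := by
    rw [Submodule.eq_bot_iff]
    intro x hx
    have h1 : ∀ E, ⟪(x : L2 (ℤ × ℤ)), Psi V K hK hV E⟫_ℝ = 0 := by
      intro E
      have := (Submodule.mem_orthogonal' _ x).1 hx (v E) (Submodule.subset_span ⟨E, rfl⟩)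
      exact this
    exact Subtype.ext (Psi_compl V K hK hV (LinearMap.mem_ker.1 x.2) h1)
  let b := HilbertBasis.mkOfOrthogonalEqBot hv hsp
  have hb := b.hasSum_inner_mul_inner (⟨p, hp⟩ : W) (⟨p, hp⟩ : W)
  have e1 : ∀ E, b E = v E := fun E => by
    rw [HilbertBasis.coe_mkOfOrthogonalEqBot]
  have e2 : (⟪(⟨p, hp⟩ : W), (⟨p, hp⟩ : W)⟫_ℝ) = ‖p‖ ^ 2 := real_inner_self_eq_norm_sq p
  rw [e2] at hb
  have e3 : (fun E => ⟪e, Psi V K hK hV E⟫_ℝ ^ 2) =
      fun E => ⟪(⟨p, hp⟩ : W), b E⟫_ℝ * ⟪b E, (⟨p, hp⟩ : W)⟫_ℝ := by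
    funext E
    rw [e1, real_inner_comm (⟨p, hp⟩ : W) (v E), ← he _ (Psi_ker V K hK hV E), sq]
    rfl
  rw [e3]
  exact hb

/-- the closed span of the eigenvectors -/
noncomputable def EE : Submodule ℝ (L2 ℤ) :=
  (Submodule.span ℝ {ψ : L2 ℤ | ∃ E : ℝ, HV V K hK hV ψ = E • ψ}).topologicalClosure

noncomputable instance : CompleteSpace (EE V K hK hV) := by
  unfold EE
  exact (Submodule.isClosed_topologicalClosure _).completeSpace_coe

theorem psi_mem (E : Eig V K hK hV) : psi V K hK hV E ∈ EE V K hK hV :=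
  Submodule.le_topologicalClosure _ (Submodule.subset_span ⟨E, psi_eq V K hK hV E⟩)

/-- the basic estimate -/
theorem D_le (M : ℝ) (hM : 4 + 2 * K ≤ M) (m : ℤ) (F : Finset ℤ) (c : ℤ → ℝ)
    (hc : ∀ n ∈ F, ∀ k : ℕ, c n ≤ ‖(BB (AV V K hK hV) M ^ k) (sg (m, n))‖ ^ 2) :
    ∑ n ∈ F, c n ≤ ‖(EE V K hK hV).starProjection (sg m)‖ ^ 2 := by
  have hM0 : 0 < M := by linarith
  have hn := (AV_norm V K hK hV).trans hM
  have h1 : ∀ n ∈ F, Summable (fun E => psi V K hK hV E m ^ 2 * psi V K hK hV E n ^ 2) ∧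
      c n ≤ ∑' E, psi V K hK hV E m ^ 2 * psi V K hK hV E n ^ 2 := by
    intro n hnF
    obtain ⟨p, hp, hpe, hpc⟩ := BB_erg (AV_adj V K hK hV) hM0 hn (sg (m, n))
    have h2 := ker_norm V K hK hV hp hpe
    have h3 : (fun E => ⟪sg (m, n), Psi V K hK hV E⟫_ℝ ^ 2) =
        fun E => psi V K hK hV E m ^ 2 * psi V K hK hV E n ^ 2 := by
      funext E
      rw [inner_sg, Psi, tens_apply]
      ring
    rw [h3] at h2
    refine ⟨h2.summable, ?_⟩
    rw [h2.tsum_eq]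
    exact hpc _ (hc n hnF)
  set x := (EE V K hK hV).starProjection (sg m) with hx
  have h4 : ∀ E, ⟪psi V K hK hV E, x⟫_ℝ = psi V K hK hV E m := by
    intro E
    rw [hx, ← Submodule.inner_starProjection_left_eq_right,
      Submodule.starProjection_eq_self_iff.2 (psi_mem V K hK hV E), real_inner_comm, inner_sg]
  have h5 := (psi_orth V K hK hV).inner_products_summable (x := x)
  have h6 := (psi_orth V K hK hV).tsum_inner_products_le (x := x)
  simp only [h4, Real.norm_eq_abs, sq_abs] at h5 h6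
  calc ∑ n ∈ F, c n ≤ ∑ n ∈ F, ∑' E, psi V K hK hV E m ^ 2 * psi V K hK hV E n ^ 2 :=
        Finset.sum_le_sum fun n hnF => (h1 n hnF).2
    _ = ∑' E, ∑ n ∈ F, psi V K hK hV E m ^ 2 * psi V K hK hV E n ^ 2 :=
        (Summable.tsum_finsetSum fun n hnF => (h1 n hnF).1).symm
    _ ≤ ∑' E, psi V K hK hV E m ^ 2 := by
        refine Summable.tsum_le_tsum (fun E => ?_) (summable_sum fun n hnF => (h1 n hnF).1) h5
        rw [← Finset.mul_sum]
        have h7 : ∑ n ∈ F, psi V K hK hV E n ^ 2 ≤ 1 := by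
          have h8 := (L2sum (psi V K hK hV E)).sum_le_tsum F (fun _ _ => sq_nonneg _)
          rw [← normsq, psi_norm, one_pow] at h8
          exact h8
        exact mul_le_of_le_one_right (sq_nonneg _) h7
    _ ≤ _ := h6

theorem EE_proj_le (m : ℤ) : ‖(EE V K hK hV).starProjection (sg m)‖ ^ 2 ≤ 1 := by
  have := (EE V K hK hV).norm_starProjection_apply_le (sg m)
  rw [norm_sg] at this
  exact pow_le_one₀ (norm_nonneg _) this

theorem EE_top (h : ∀ m, 1 ≤ ‖(EE V K hK hV).starProjection (sg m)‖ ^ 2) : EE V K hK hV = ⊤ := by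
  have h1 : ∀ m, (sg m : L2 ℤ) ∈ EE V K hK hV := by
    intro m
    rw [Submodule.mem_iff_norm_starProjection, norm_sg]
    have h2 := le_antisymm (EE_proj_le V K hK hV m) (h m)
    exact (pow_eq_one_iff_of_nonneg (norm_nonneg _) two_ne_zero).1 h2
  rw [eq_top_iff]
  intro f _
  have h2 : HasSum (fun p => lp.single 2 p (f p)) f := lp.hasSum_single (by norm_num) f
  have hcl : IsClosed (EE V K hK hV : Set (L2 ℤ)) := Submodule.isClosed_topologicalClosure _
  refine hcl.mem_of_tendsto h2 (Eventually.of_forall fun s => ?_)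
  refine Submodule.sum_mem _ fun p _ => ?_
  have h3 : (lp.single 2 p (f p) : L2 ℤ) = f p • sg p := by
    unfold sg
    rw [← lp.single_smul, smul_eq_mul, mul_one]
  rw [h3]
  exact Submodule.smul_mem _ _ (h1 p)

end

end Pool.Agent.V11260.LP
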