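import Pool.Agent.V11260.LP.A6

set_option autoImplicit false
open scoped InnerProductSpace
open Filter Topology Module.End

namespace Pool.Agent.V11260.LP

theorem JJ_aux (f : L2 ℤ) : Memℓp (fun n => ((f n : ℝ) : ℂ)) 2 := by
  have h := lp.memℓp f
  rw [memℓp_gen_iff (by norm_num)] at h ⊢
  refine h.congr fun n => ?_
  simp

/-- real sequences as complex sequences -/
noncomputable def JJ : L2 ℤ →L[ℝ] lp (fun _ : ℤ => ℂ) 2 :=
  LinearMap.mkContinuous
    { toFun := fun f => (⟨fun n => (f n : ℂ), JJ_aux f⟩ : lp (fun _ : ℤ => ℂ) 2)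
      map_add' := fun f g => by
        ext n
        change ((f + g : L2 ℤ) n : ℂ) = (f n : ℂ) + (g n : ℂ)
        rw [lp.coeFn_add, Pi.add_apply, Complex.ofReal_add]
      map_smul' := fun c f => by
        ext n
        change (((c • f : L2 ℤ) n : ℝ) : ℂ) = c • (f n : ℂ)
        rw [lp.coeFn_smul, Pi.smul_apply, smul_eq_mul, Complex.ofReal_mul]
        simp } 1 (fun f => by
          rw [one_mul, lp.norm_eq_tsum_rpow (by norm_num), lp.norm_eq_tsum_rpow (by norm_num)]
          refine le_of_eq ?_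
          congr 1
          refine tsum_congr fun n => ?_
          change ‖((f n : ℝ) : ℂ)‖ ^ _ = ‖f n‖ ^ _
          rw [Complex.norm_real])

@[simp] theorem JJ_apply (f : L2 ℤ) (n : ℤ) : JJ f n = (f n : ℂ) := rfl

theorem complex_top (V : ℤ → ℝ) (K : ℝ) (hK : 0 ≤ K) (hV : ∀ n, |V n| ≤ K)
    (h : EE V K hK hV = ⊤) :
    (Submodule.span ℂ
      {ψ : lp (fun _ : ℤ => ℂ) 2 |
        ∃ E : ℝ, ∀ n : ℤ,
          ψ (n + 1) + ψ (n - 1) + (V n : ℂ) * ψ n = (E : ℂ) * ψ n}).topologicalClosure = ⊤ := by
  set S : Submodule ℂ (lp (fun _ : ℤ => ℂ) 2) := Submodule.span ℂ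
      {ψ : lp (fun _ : ℤ => ℂ) 2 |
        ∃ E : ℝ, ∀ n : ℤ,
          ψ (n + 1) + ψ (n - 1) + (V n : ℂ) * ψ n = (E : ℂ) * ψ n} with hS
  have h1 : ∀ f : L2 ℤ, JJ f ∈ S.topologicalClosure := by
    intro f
    have hf : f ∈ EE V K hK hV := by
      rw [h]
      exact Submodule.mem_top
    have hcl : IsClosed (JJ ⁻¹' (S.topologicalClosure : Set (lp (fun _ : ℤ => ℂ) 2))) :=
      (Submodule.isClosed_topologicalClosure _).preimage JJ.continuous
    have hsub : (Submodule.span ℝ {ψ : L2 ℤ | ∃ E : ℝ, HV V K hK hV ψ = E • ψ} : Set (L2 ℤ)) ⊆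
        JJ ⁻¹' (S.topologicalClosure : Set (lp (fun _ : ℤ => ℂ) 2)) := by
      intro x hx
      change JJ x ∈ S.topologicalClosure
      induction hx using Submodule.span_induction with
      | mem x hx =>
        obtain ⟨E, hE⟩ := hx
        refine Submodule.le_topologicalClosure _ (Submodule.subset_span ⟨E, fun n => ?_⟩)
        have h2 : x (n + 1) + x (n - 1) + V n * x n = E * x n := by
          rw [← HV_apply V K hK hV x n, hE]
          rfl
        simp only [JJ_apply]
        exact_mod_cast congrArg (fun r : ℝ => (r : ℂ)) h2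
      | zero =>
        rw [map_zero]
        exact Submodule.zero_mem _
      | add x y _ _ hx hy =>
        rw [map_add]
        exact Submodule.add_mem _ hx hy
      | smul a x _ hx =>
        rw [map_smul]
        have : a • JJ x = (a : ℂ) • JJ x := by
          rw [← map_smul]
          ext n
          rw [JJ_apply, lp.coeFn_smul, lp.coeFn_smul, Pi.smul_apply, Pi.smul_apply, JJ_apply]
          simp
        rw [this]
        exact Submodule.smul_mem _ _ hx
    exact closure_minimal hsub hcl hf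
  rw [eq_top_iff]
  intro f _
  have h2 : HasSum (fun p => lp.single 2 p (f p)) f := lp.hasSum_single (by norm_num) f
  have hcl : IsClosed (S.topologicalClosure : Set (lp (fun _ : ℤ => ℂ) 2)) :=
    Submodule.isClosed_topologicalClosure _
  refine hcl.mem_of_tendsto h2 (Eventually.of_forall fun s => ?_)
  refine Submodule.sum_mem _ fun p _ => ?_
  have h3 : (lp.single 2 p (f p) : lp (fun _ : ℤ => ℂ) 2) = f p • JJ (sg p) := by
    ext n
    rw [lp.coeFn_smul, Pi.smul_apply, JJ_apply, sg_apply, lp.single_apply, Pi.single_apply]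
    by_cases hn : n = p
    · simp [hn]
    · simp [hn]
  rw [h3]
  exact Submodule.smul_mem _ _ (h1 _)

end Pool.Agent.V11260.LP
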