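import Pool.Agent.V11260.LP.D5

set_option autoImplicit false
open MeasureTheory
open scoped ENNReal

namespace Pool.Agent.V11260.LP

theorem avg_pt {ε : ℝ} (hε : 0 < ε) {f : ℝ → ℝ} (hf : Measurable f) {Q : ℝ} (hQ : 0 ≤ Q)
    (hq : q f Set.univ ≤ ENNReal.ofReal Q) (x : ℝ) : avg ε f x ≤ Real.sqrt (Q / ε) := by
  have h1 := avg_enorm ε hf x
  have h2 : ∫⁻ s in Set.Ioc (0 : ℝ) 1, ‖f (x - ε * s)‖ₑ ^ 2 ≤ ENNReal.ofReal (Q / ε) := by
    have h := lintegral_image_eq_lintegral_abs_deriv_mul (f := fun s : ℝ => x - ε * s)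
      (f' := fun _ => -ε) (s := Set.univ) MeasurableSet.univ (fun s _ => by
        have : HasDerivAt (fun s : ℝ => x - ε * s) (-ε) s := by
          simpa using ((hasDerivAt_id s).const_mul ε).const_sub x
        exact this.hasDerivWithinAt) (by
          intro y _ z _ hyz
          have h3 : x - ε * y = x - ε * z := hyz
          have h4 : ε * y = ε * z := by linarith
          exact mul_left_cancel₀ hε.ne' h4) (fun t => ‖f t‖ₑ ^ 2)
    have h5 : (fun s : ℝ => x - ε * s) '' Set.univ ⊆ Set.univ := Set.subset_univ _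
    have h6 : ∫⁻ s, ENNReal.ofReal ε * ‖f (x - ε * s)‖ₑ ^ 2 ≤ ENNReal.ofReal Q := by
      refine le_trans (le_of_eq ?_) ((lintegral_mono_set h5).trans hq)
      rw [h, Measure.restrict_univ]
      simp only [abs_neg, abs_of_pos hε]
    rw [lintegral_const_mul' _ _ ENNReal.ofReal_ne_top] at h6
    calc ∫⁻ s in Set.Ioc (0 : ℝ) 1, ‖f (x - ε * s)‖ₑ ^ 2 ≤ ∫⁻ s, ‖f (x - ε * s)‖ₑ ^ 2 :=
          setLIntegral_le_lintegral _ _
      _ ≤ ENNReal.ofReal (Q / ε) := by
          rw [ENNReal.ofReal_div_of_pos hε, ENNReal.le_div_iff_mul_le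
            (Or.inl (by simpa using hε)) (Or.inl ENNReal.ofReal_ne_top), mul_comm]
          exact h6
  rw [enorm_sq] at h1
  have h3 := (ENNReal.ofReal_le_ofReal_iff (by positivity)).1 (h1.trans h2)
  exact Real.le_sqrt_of_sq_le h3

theorem FF_succ_le {ε : ℝ} (hε : 0 < ε) (c : ℕ → ℝ) (k : ℕ) {Q : ℝ} (hQ : 0 ≤ Q)
    (hq : q (ff ε c k) Set.univ ≤ ENNReal.ofReal Q) (a b : ℝ) (ha : a ≠ 0) :
    FF ε c (k + 1) a b ≤ ENNReal.ofReal (|a|⁻¹ * Real.sqrt (Q / ε)) := by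
  rw [(FF_ff ε hε c k).2 a b ha]
  apply ENNReal.ofReal_le_ofReal
  gcongr
  exact avg_pt hε (ff_meas ε c k) hQ hq _

theorem FF_bound {ε : ℝ} (hε : 0 < ε) (hε1 : ε ≤ 1) (K : ℝ) (hK : 0 ≤ K) :
    ∃ C σ : ℝ, 0 < C ∧ 0 < σ ∧ σ < 1 ∧ ∀ (c : ℕ → ℝ), (∀ k, |c k| ≤ K) → ∀ (k : ℕ) (a b : ℝ),
      (a ≠ 0 ∨ b ≠ 0) → FF ε c (k + 2) a b ≤ ENNReal.ofReal (C * σ ^ k * (nm a b)⁻¹) := by
  obtain ⟨ρ, h0, h1, H⟩ := ff_decay hε hε1
  set σ : ℝ := ρ ^ (1 / 4 : ℝ) with hσ
  have hσ0 : 0 < σ := Real.rpow_pos_of_pos h0 _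
  have hσ1 : σ < 1 := Real.rpow_lt_one h0.le h1 (by norm_num)
  have hσ4 : σ ^ 4 = ρ := by
    rw [hσ, ← Real.rpow_natCast, ← Real.rpow_mul h0.le]
    norm_num
  set B : ℝ := K + 1 with hB
  have hB1 : 1 ≤ B := by linarith
  set C0 : ℝ := Real.sqrt (Real.pi / ε) / σ with hC0
  have hC0' : 0 < C0 := by
    have : 0 < Real.pi / ε := div_pos Real.pi_pos hε
    have := Real.sqrt_pos.2 this
    positivity
  -- bound of `sqrt (Q_k / ε)`
  have hQ : ∀ k : ℕ, Real.sqrt ((ρ ^ (k / 2) * Real.pi) / ε) ≤ C0 * σ ^ k := by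
    intro k
    have e1 : ρ ^ (k / 2) * Real.pi / ε = (σ ^ (2 * (k / 2))) ^ 2 * (Real.pi / ε) := by
      rw [← hσ4, ← pow_mul, ← pow_mul, mul_div_assoc]
      congr 2
      ring
    rw [e1, Real.sqrt_mul (by positivity), Real.sqrt_sq (by positivity), hC0]
    have e2 : σ ^ (2 * (k / 2)) * σ ≤ σ ^ k := by
      rw [← pow_succ]
      exact pow_le_pow_of_le_one hσ0.le hσ1.le (by omega)
    rw [div_mul_eq_mul_div, le_div_iff₀ hσ0]
    have e3 : 0 ≤ Real.sqrt (Real.pi / ε) := Real.sqrt_nonneg _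
    nlinarith
  refine ⟨C0 * (4 + 2 * B), σ, by positivity, hσ0, hσ1, ?_⟩
  intro c hc k a b hab
  have hnm := nm_pos hab
  have hs0 : 0 < σ ^ k := pow_pos hσ0 k
  rcases le_or_gt |b| (2 * B * |a|) with h2 | h2
  · -- `|a|` is not small
    have ha : a ≠ 0 := by
      rintro rfl
      rw [abs_zero, mul_zero] at h2
      have : b = 0 := abs_eq_zero.1 (le_antisymm h2 (abs_nonneg b))
      rcases hab with h | h
      · exact h rfl
      · exact h this
    have ha' : 0 < |a| := abs_pos.2 ha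
    refine (FF_succ_le hε c (k + 1) (Q := ρ ^ ((k + 1) / 2) * Real.pi) (by positivity)
      (H c (k + 1)) a b ha).trans (ENNReal.ofReal_le_ofReal ?_)
    have h3 : nm a b ≤ (1 + 2 * B) * |a| := by
      unfold nm
      rw [Real.sqrt_le_left (by positivity)]
      have h4 : b ^ 2 ≤ (2 * B * |a|) ^ 2 := sq_le_sq' (by linarith [neg_abs_le b]) ((le_abs_self b).trans h2)
      have h5 : |a| ^ 2 = a ^ 2 := sq_abs a
      nlinarith [sq_nonneg a, h4, h5]
    calc |a|⁻¹ * Real.sqrt (ρ ^ ((k + 1) / 2) * Real.pi / ε) ≤ |a|⁻¹ * (C0 * σ ^ (k + 1)) := by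
          gcongr
          exact hQ (k + 1)
      _ ≤ ((1 + 2 * B) * (nm a b)⁻¹) * (C0 * σ ^ k) := by
          have h6 : |a|⁻¹ ≤ (1 + 2 * B) * (nm a b)⁻¹ := by
            rw [← div_eq_mul_inv, le_div_iff₀ hnm, inv_mul_le_iff₀ ha']
            linarith
          have h7 : C0 * σ ^ (k + 1) ≤ C0 * σ ^ k := by
            rw [pow_succ]
            have : σ ^ k * σ ≤ σ ^ k * 1 := by gcongr
            nlinarith
          exact mul_le_mul h6 h7 (by positivity) (by positivity)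
      _ ≤ _ := by
          have h8 : 0 < C0 * σ ^ k * (nm a b)⁻¹ := by positivity
          nlinarith
  · -- `|a|` is small
    have hb : 0 < |b| := lt_of_le_of_lt (by positivity) h2
    have h3 : nm a b ≤ 2 * |b| := by
      unfold nm
      rw [Real.sqrt_le_left (by positivity)]
      have h4 : a ^ 2 ≤ |b| ^ 2 := by
        rw [← sq_abs a]
        refine pow_le_pow_left₀ (abs_nonneg a) ?_ 2
        nlinarith [abs_nonneg a]
      have h5 : |b| ^ 2 = b ^ 2 := sq_abs b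
      nlinarith
    have h6 : ∀ x ∈ Set.Ioc (0 : ℝ) 1, FF ε c (k + 1) ((c (k + 1) - ε * x) * a - b) a ≤
        ENNReal.ofReal (2 * |b|⁻¹ * (C0 * σ ^ k)) := by
      intro x hx
      have h7 : |b| / 2 ≤ |(c (k + 1) - ε * x) * a - b| := by
        have h8 : |(c (k + 1) - ε * x) * a| ≤ B * |a| := by
          rw [abs_mul]
          refine mul_le_mul_of_nonneg_right ?_ (abs_nonneg a)
          have h9 := hc (k + 1)
          have h10 : |ε * x| ≤ 1 := by
            rw [abs_of_nonneg (mul_nonneg hε.le hx.1.le)]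
            exact mul_le_one₀ hε1 hx.1.le hx.2
          calc |c (k + 1) - ε * x| ≤ |c (k + 1)| + |ε * x| := abs_sub _ _
            _ ≤ B := by linarith
        have h9 := abs_sub_abs_le_abs_sub b ((c (k + 1) - ε * x) * a)
        rw [abs_sub_comm] at h9
        linarith
      have h8 : 0 < |(c (k + 1) - ε * x) * a - b| := lt_of_lt_of_le (by positivity) h7
      refine (FF_succ_le hε c k (Q := ρ ^ (k / 2) * Real.pi) (by positivity)
        (H c k) _ a (abs_pos.1 h8)).trans (ENNReal.ofReal_le_ofReal ?_)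
      refine mul_le_mul ?_ (hQ k) (Real.sqrt_nonneg _) (by positivity)
      rw [inv_le_comm₀ h8 (by positivity), mul_inv, inv_inv]
      linarith
    have h7 : FF ε c (k + 2) a b ≤ ENNReal.ofReal (2 * |b|⁻¹ * (C0 * σ ^ k)) := by
      have : FF ε c (k + 2) a b = ∫⁻ x in Set.Ioc (0 : ℝ) 1,
        FF ε c (k + 1) ((c (k + 1) - ε * x) * a - b) a := rfl
      rw [this]
      refine (setLIntegral_mono' measurableSet_Ioc h6).trans ?_
      simp
    refine h7.trans (ENNReal.ofReal_le_ofReal ?_)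
    have h8 : |b|⁻¹ ≤ 2 * (nm a b)⁻¹ := by
      rw [← div_eq_mul_inv, le_div_iff₀ hnm, inv_mul_le_iff₀ hb]
      linarith
    have h9 : 0 < C0 * σ ^ k * (nm a b)⁻¹ := by positivity
    have h10 : 0 < C0 * σ ^ k := by positivity
    calc 2 * |b|⁻¹ * (C0 * σ ^ k) ≤ 2 * (2 * (nm a b)⁻¹) * (C0 * σ ^ k) := by gcongr
      _ ≤ _ := by nlinarith

end Pool.Agent.V11260.LP
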