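import Pool.Agent.V11260.LP.E3
import Pool.Agent.V11260.LP.D6

set_option autoImplicit false
set_option linter.unusedSectionVars false
open MeasureTheory Matrix Filter Topology
open scoped ENNReal

namespace Pool.Agent.V11260.LP

/-- the window `[-L, L]` -/
noncomputable abbrev Win (L : ℕ) : Finset ℤ := Finset.Icc (-(L : ℤ)) L

/-- the operator in a window -/
noncomputable def HL (L : ℕ) (V : ℤ → ℝ) : Matrix (Win L) (Win L) ℝ := fun i j =>
  (if (j : ℤ) = i + 1 then 1 else 0) + (if (j : ℤ) = i - 1 then 1 else 0) +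
    (if i = j then V i else 0)

/-- extension by zero -/
noncomputable def ext (L : ℕ) (f : Win L → ℝ) (x : ℤ) : ℝ := if h : x ∈ Win L then f ⟨x, h⟩ else 0

theorem ext_in {L : ℕ} (f : Win L → ℝ) (i : Win L) : ext L f i = f i := by
  simp [ext, i.2]

theorem ext_out {L : ℕ} (f : Win L → ℝ) {x : ℤ} (h : x ∉ Win L) : ext L f x = 0 := by
  simp only [ext, h, dite_false]

theorem sum_ite_ext {L : ℕ} (f : Win L → ℝ) (x : ℤ) :
    ∑ j : Win L, (if (j : ℤ) = x then 1 else 0) * f j = ext L f x := by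
  by_cases h : x ∈ Win L
  · rw [Finset.sum_eq_single ⟨x, h⟩]
    · simp [ext, h]
    · intro j _ hj
      have : (j : ℤ) ≠ x := fun hc => hj (Subtype.ext hc)
      simp [this]
    · simp
  · rw [ext_out f h]
    refine Finset.sum_eq_zero fun j _ => ?_
    have : (j : ℤ) ≠ x := fun hc => h (hc ▸ j.2)
    simp [this]

theorem HL_herm (L : ℕ) (V : ℤ → ℝ) : (HL L V).IsHermitian := by
  ext i j
  simp only [conjTranspose_apply, HL, star_trivial]
  have e1 : ((i : ℤ) = j + 1) ↔ ((j : ℤ) = i - 1) := by omega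
  have e2 : ((i : ℤ) = j - 1) ↔ ((j : ℤ) = i + 1) := by omega
  simp only [e1, e2]
  by_cases h : i = j
  · subst h
    simp
  · simp only [h, Ne.symm h, if_false, add_zero]
    ring

theorem HL_mul (L : ℕ) (V : ℤ → ℝ) (f : Win L → ℝ) (i : Win L) :
    ∑ j, HL L V i j * f j = ext L f (i + 1) + ext L f (i - 1) + V i * f i := by
  simp only [HL, add_mul, Finset.sum_add_distrib, sum_ite_ext]
  congr 1
  simp [ite_mul]

/-- extended eigenfunctions -/
noncomputable def ph (L : ℕ) (V : ℤ → ℝ) (l : Win L) (x : ℤ) : ℝ := ext L (ev (HL_herm L V) l) x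

noncomputable def eE (L : ℕ) (V : ℤ → ℝ) (l : Win L) : ℝ := (HL_herm L V).eigenvalues l

theorem ph_eq (L : ℕ) (V : ℤ → ℝ) (l : Win L) {x : ℤ} (hx : x ∈ Win L) :
    ph L V l (x + 1) + ph L V l (x - 1) + V x * ph L V l x = eE L V l * ph L V l x := by
  have h1 := ev_eq (HL_herm L V) l ⟨x, hx⟩
  rw [HL_mul] at h1
  have h2 : ph L V l x = ev (HL_herm L V) l ⟨x, hx⟩ := by
    simp only [ph, ext, hx, dite_true]
  rw [h2]
  exact h1

theorem ph_out (L : ℕ) (V : ℤ → ℝ) (l : Win L) {x : ℤ} (hx : x ∉ Win L) : ph L V l x = 0 :=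
  ext_out _ hx

theorem ph_norm (L : ℕ) (V : ℤ → ℝ) (l : Win L) : ∑ x ∈ Win L, ph L V l x ^ 2 = 1 := by
  have h := ev_col (HL_herm L V) l l
  rw [if_pos rfl] at h
  rw [← h, ← Finset.sum_coe_sort (Win L) (fun x => ph L V l x ^ 2)]
  refine Finset.sum_congr rfl fun i _ => ?_
  rw [ph, ext_in]
  ring

theorem ph_row (L : ℕ) (V : ℤ → ℝ) {x : ℤ} (hx : x ∈ Win L) : ∑ l, ph L V l x ^ 2 = 1 := by
  have h := ev_row (HL_herm L V) ⟨x, hx⟩ ⟨x, hx⟩
  rw [if_pos rfl] at h
  rw [← h]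
  refine Finset.sum_congr rfl fun l _ => ?_
  simp only [ph, ext, hx, dite_true]
  ring

theorem eE_bound (L : ℕ) (V : ℤ → ℝ) {K : ℝ} (hV : ∀ x, |V x| ≤ K) (l : Win L) :
    |eE L V l| ≤ K + 2 := by
  have hne : (Win L).Nonempty := ⟨0, by simp⟩
  obtain ⟨x, hx, hmax⟩ := Finset.exists_max_image (Win L) (fun x => |ph L V l x|) hne
  have hall : ∀ y, |ph L V l y| ≤ |ph L V l x| := by
    intro y
    by_cases hy : y ∈ Win L
    · exact hmax y hy
    · rw [ph_out L V l hy, abs_zero]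
      exact abs_nonneg _
  have hpos : 0 < |ph L V l x| := by
    by_contra hcon
    have h0 : |ph L V l x| = 0 := le_antisymm (not_lt.1 hcon) (abs_nonneg _)
    have h1 := ph_norm L V l
    rw [Finset.sum_eq_zero] at h1
    · exact zero_ne_one h1
    · intro y _
      have := hall y
      rw [h0] at this
      have h2 : ph L V l y = 0 := abs_eq_zero.1 (le_antisymm this (abs_nonneg _))
      rw [h2]
      ring
  have h1 := ph_eq L V l hx
  have h2 : |eE L V l| * |ph L V l x| ≤ (K + 2) * |ph L V l x| := by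
    rw [← abs_mul, ← h1]
    calc |ph L V l (x + 1) + ph L V l (x - 1) + V x * ph L V l x|
        ≤ |ph L V l (x + 1)| + |ph L V l (x - 1)| + |V x * ph L V l x| := abs_add_three _ _ _
      _ ≤ |ph L V l x| + |ph L V l x| + K * |ph L V l x| := by
          rw [abs_mul]
          exact add_le_add (add_le_add (hall _) (hall _))
            (mul_le_mul_of_nonneg_right (hV x) (abs_nonneg _))
      _ = _ := by ring
  exact le_of_mul_le_mul_right h2 hpos

/-- `(u(L - j), u(L - j + 1))` for the solution `u` with `u(L) = 1`, `u(L + 1) = 0` -/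
noncomputable def Us (L : ℕ) (V : ℤ → ℝ) (E : ℝ) : ℕ → ℝ × ℝ
  | 0 => (1, 0)
  | (j + 1) => ((E - V ((L : ℤ) - j)) * (Us L V E j).1 - (Us L V E j).2, (Us L V E j).1)

theorem Us_ne (L : ℕ) (V : ℤ → ℝ) (E : ℝ) (j : ℕ) : (Us L V E j).1 ≠ 0 ∨ (Us L V E j).2 ≠ 0 := by
  induction j with
  | zero => left; simp [Us]
  | succ j ih =>
    by_cases h : (Us L V E j).1 = 0
    · left
      have h2 : (Us L V E j).2 ≠ 0 := by
        rcases ih with h1 | h1
        · exact absurd h h1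
        · exact h1
      simp only [Us, h, mul_zero, zero_sub, ne_eq, neg_eq_zero]
      exact h2
    · right
      exact h

theorem ph_Us (L : ℕ) (V : ℤ → ℝ) (l : Win L) (j : ℕ) (hj : j ≤ 2 * L + 1) :
    ph L V l ((L : ℤ) - j) = ph L V l L * (Us L V (eE L V l) j).1 ∧
    ph L V l ((L : ℤ) - j + 1) = ph L V l L * (Us L V (eE L V l) j).2 := by
  induction j with
  | zero =>
    refine ⟨by simp [Us], ?_⟩
    simp only [Us, mul_zero]
    exact ph_out L V l (by simp)
  | succ j ih =>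
    obtain ⟨h1, h2⟩ := ih (by omega)
    have hx : ((L : ℤ) - j) ∈ Win L := by
      rw [Finset.mem_Icc]
      omega
    have h3 := ph_eq L V l hx
    have e1 : ((L : ℤ) - (j + 1 : ℕ)) = (L : ℤ) - j - 1 := by push_cast; ring
    rw [e1, sub_add_cancel]
    refine ⟨?_, h1⟩
    simp only [Us]
    rw [h1, h2] at h3
    linear_combination h3

theorem ph_L_ne (L : ℕ) (V : ℤ → ℝ) (l : Win L) : ph L V l L ≠ 0 := by
  intro h0
  have h1 := ph_norm L V l
  rw [Finset.sum_eq_zero] at h1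
  · exact zero_ne_one h1
  · intro x hx
    rw [Finset.mem_Icc] at hx
    obtain ⟨j, hj⟩ : ∃ j : ℕ, (L : ℤ) - j = x := ⟨(L - x).toNat, by omega⟩
    have h2 := (ph_Us L V l j (by omega)).1
    rw [hj, h0, zero_mul] at h2
    rw [h2]
    ring

theorem nm_ph_le (L : ℕ) (V : ℤ → ℝ) (l : Win L) (x : ℤ) :
    nm (ph L V l x) (ph L V l (x + 1)) ≤ 1 := by
  unfold nm
  refine Real.sqrt_le_iff.2 ⟨zero_le_one, ?_⟩
  rw [one_pow, ← ph_norm L V l]
  have h1 : ∀ y, ph L V l y ^ 2 = if y ∈ Win L then ph L V l y ^ 2 else 0 := by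
    intro y
    by_cases h : y ∈ Win L
    · rw [if_pos h]
    · rw [if_neg h, ph_out L V l h]
      ring
  have hne : x ≠ x + 1 := by omega
  rw [h1 x, h1 (x + 1)]
  by_cases hx : x ∈ Win L
  · by_cases hx1 : x + 1 ∈ Win L
    · rw [if_pos hx, if_pos hx1, ← Finset.sum_pair (f := fun y => ph L V l y ^ 2) hne]
      refine Finset.sum_le_sum_of_subset_of_nonneg ?_ fun _ _ _ => by positivity
      intro y hy
      rw [Finset.mem_insert, Finset.mem_singleton] at hy
      rcases hy with rfl | rfl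
      · exact hx
      · exact hx1
    · rw [if_pos hx, if_neg hx1, add_zero]
      exact Finset.single_le_sum (f := fun y => ph L V l y ^ 2) (fun _ _ => by positivity) hx
  · rw [if_neg hx, zero_add]
    split_ifs with hx1
    · exact Finset.single_le_sum (f := fun y => ph L V l y ^ 2) (fun _ _ => by positivity) hx1
    · exact Finset.sum_nonneg fun _ _ => by positivity

/-- the ratio `|(u(n), u(n+1))| / |(u(m), u(m+1))|`, `n = L - j`, `m = n - k` -/
noncomputable def rat (L : ℕ) (V : ℤ → ℝ) (j k : ℕ) (E : ℝ) : ℝ :=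
  nm (Us L V E j).1 (Us L V E j).2 * (nm (Us L V E (j + k)).1 (Us L V E (j + k)).2)⁻¹

theorem ph_le_rat (L : ℕ) (V : ℤ → ℝ) (l : Win L) (j k : ℕ) (hj : j + k ≤ 2 * L + 1) :
    ph L V l ((L : ℤ) - j) ^ 2 ≤ rat L V j k (eE L V l) := by
  have hL := ph_L_ne L V l
  set E := eE L V l with hE
  have n0 : nm (ph L V l ((L : ℤ) - j)) (ph L V l ((L : ℤ) - j + 1)) =
      |ph L V l L| * nm (Us L V E j).1 (Us L V E j).2 := by
    rw [(ph_Us L V l j (by omega)).1, (ph_Us L V l j (by omega)).2, nm_smul]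
  have n1 : nm (ph L V l ((L : ℤ) - (j + k : ℕ))) (ph L V l ((L : ℤ) - (j + k : ℕ) + 1)) =
      |ph L V l L| * nm (Us L V E (j + k)).1 (Us L V E (j + k)).2 := by
    rw [(ph_Us L V l (j + k) hj).1, (ph_Us L V l (j + k) hj).2, nm_smul]
  have p0 := nm_ph_le L V l ((L : ℤ) - j)
  have p1 := nm_ph_le L V l ((L : ℤ) - (j + k : ℕ))
  rw [n1] at p1
  have hLp : 0 < |ph L V l L| := abs_pos.2 hL
  have q1 := nm_pos (Us_ne L V E (j + k))
  have h1 : ph L V l ((L : ℤ) - j) ^ 2 ≤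
      nm (ph L V l ((L : ℤ) - j)) (ph L V l ((L : ℤ) - j + 1)) ^ 2 := by
    unfold nm
    rw [Real.sq_sqrt (by positivity)]
    nlinarith [sq_nonneg (ph L V l ((L : ℤ) - j + 1))]
  have h0 : 0 ≤ nm (ph L V l ((L : ℤ) - j)) (ph L V l ((L : ℤ) - j + 1)) := Real.sqrt_nonneg _
  have h2 : nm (ph L V l ((L : ℤ) - j)) (ph L V l ((L : ℤ) - j + 1)) ^ 2 ≤
      nm (ph L V l ((L : ℤ) - j)) (ph L V l ((L : ℤ) - j + 1)) := by nlinarith
  refine h1.trans (h2.trans ?_)
  rw [n0, rat, ← div_eq_mul_inv, le_div_iff₀ q1]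
  have : 0 ≤ nm (Us L V E j).1 (Us L V E j).2 := Real.sqrt_nonneg _
  calc |ph L V l L| * nm (Us L V E j).1 (Us L V E j).2 * nm (Us L V E (j + k)).1 (Us L V E (j + k)).2
      = nm (Us L V E j).1 (Us L V E j).2 * (|ph L V l L| * nm (Us L V E (j + k)).1 (Us L V E (j + k)).2) := by ring
    _ ≤ nm (Us L V E j).1 (Us L V E j).2 * 1 := by gcongr
    _ = _ := mul_one _

end Pool.Agent.V11260.LP
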