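import Pool.Agent.V11260.LP.A6
import Pool.Agent.V11260.LP.F1

set_option autoImplicit false
set_option linter.unusedSectionVars false
open scoped InnerProductSpace
open Filter Topology MeasureTheory

namespace Pool.Agent.V11260.LP

/-- the commutator with `H` on functions -/
noncomputable def adf (V : ℤ → ℝ) (F : ℤ × ℤ → ℝ) : ℤ × ℤ → ℝ := fun p =>
  F (p.1 + 1, p.2) + F (p.1 - 1, p.2) - F (p.1, p.2 + 1) - F (p.1, p.2 - 1)
    + (V p.1 - V p.2) * F p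

noncomputable def Bf (M : ℝ) (V : ℤ → ℝ) (F : ℤ × ℤ → ℝ) : ℤ × ℤ → ℝ := fun p =>
  F p - M⁻¹ ^ 2 * adf V (adf V F) p

noncomputable def Wf (M : ℝ) (V : ℤ → ℝ) (m n : ℤ) : ℕ → ℤ × ℤ → ℝ
  | 0 => fun p => if p = (m, n) then 1 else 0
  | (k + 1) => Bf M V (Wf M V m n k)

/-- the correlators -/
noncomputable def Ph (M : ℝ) (V : ℤ → ℝ) (m n : ℤ) (k : ℕ) : ℝ := Wf M V m n (2 * k) (m, n)

section
variable (V : ℤ → ℝ) (K : ℝ) (hK : 0 ≤ K) (hV : ∀ n, |V n| ≤ K)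

theorem AV_coe (F : L2 (ℤ × ℤ)) : (AV V K hK hV F : ℤ × ℤ → ℝ) = adf V F := by
  funext p
  exact AV_apply V K hK hV F p

theorem BB_coe (M : ℝ) (F : L2 (ℤ × ℤ)) :
    (BB (AV V K hK hV) M F : ℤ × ℤ → ℝ) = Bf M V F := by
  funext p
  rw [BB_apply, lp.coeFn_sub, Pi.sub_apply, lp.coeFn_smul, Pi.smul_apply, smul_eq_mul, AV_coe,
    AV_coe]
  rfl

theorem Wf_coe (M : ℝ) (m n : ℤ) (k : ℕ) :
    ((BB (AV V K hK hV) M ^ k) (sg (m, n)) : ℤ × ℤ → ℝ) = Wf M V m n k := by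
  induction k with
  | zero =>
    funext p
    rw [pow_zero]
    exact sg_apply (m, n) p
  | succ k ih =>
    have h : (BB (AV V K hK hV) M ^ (k + 1)) (sg (m, n)) =
        BB (AV V K hK hV) M ((BB (AV V K hK hV) M ^ k) (sg (m, n))) := by
      rw [pow_succ']
      rfl
    rw [h, BB_coe, ih]
    rfl

theorem Ph_eq (M : ℝ) (m n : ℤ) (k : ℕ) :
    ‖(BB (AV V K hK hV) M ^ k) (sg (m, n))‖ ^ 2 = Ph M V m n k := by
  rw [BB_pow_sq (AV_adj V K hK hV), inner_sg, Wf_coe, Ph]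

include hK hV

theorem Ph_nonneg (M : ℝ) (m n : ℤ) (k : ℕ) : 0 ≤ Ph M V m n k := by
  rw [← Ph_eq V K hK hV]
  positivity

theorem Ph_anti (M : ℝ) (hM : 4 + 2 * K ≤ M) (m n : ℤ) : Antitone fun k => Ph M V m n k := by
  intro k k' hk
  simp only
  rw [← Ph_eq V K hK hV, ← Ph_eq V K hK hV]
  have hM0 : 0 < M := by linarith
  exact pow_le_pow_left₀ (norm_nonneg _)
    (BB_anti (AV_adj V K hK hV) hM0 ((AV_norm V K hK hV).trans hM) _ hk) 2

theorem Ph_le_one (M : ℝ) (hM : 4 + 2 * K ≤ M) (m n : ℤ) (k : ℕ) : Ph M V m n k ≤ 1 := by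
  refine (Ph_anti V K hK hV M hM m n (Nat.zero_le k)).trans ?_
  simp [Ph, Wf]

end

theorem adf_cont {X : Type} [TopologicalSpace X] {v : X → ℤ → ℝ} {F : X → ℤ × ℤ → ℝ}
    (hv : ∀ n, Continuous fun x => v x n) (hF : ∀ p, Continuous fun x => F x p) (p : ℤ × ℤ) :
    Continuous fun x => adf (v x) (F x) p := by
  unfold adf
  have h1 := hF (p.1 + 1, p.2)
  have h2 := hF (p.1 - 1, p.2)
  have h3 := hF (p.1, p.2 + 1)
  have h4 := hF (p.1, p.2 - 1)
  have h5 := hF p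
  have h6 := hv p.1
  have h7 := hv p.2
  exact (((h1.add h2).sub h3).sub h4).add ((h6.sub h7).mul h5)

theorem Wf_cont (M : ℝ) (m n : ℤ) (k : ℕ) (p : ℤ × ℤ) :
    Continuous fun V : ℤ → ℝ => Wf M V m n k p := by
  induction k generalizing p with
  | zero => exact continuous_const
  | succ k ih =>
    have hv : ∀ n, Continuous fun V : ℤ → ℝ => V n := fun n => continuous_apply n
    exact (ih p).sub (continuous_const.mul (adf_cont hv (adf_cont hv ih) p))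

theorem Ph_cont (M : ℝ) (m n : ℤ) (k : ℕ) : Continuous fun V : ℤ → ℝ => Ph M V m n k :=
  Wf_cont M m n _ _

/-- supported in a box -/
def Bx (r : ℤ) (F : ℤ × ℤ → ℝ) : Prop := ∀ p : ℤ × ℤ, (r < |p.1| ∨ r < |p.2|) → F p = 0

theorem Bx_adf {r : ℤ} {F : ℤ × ℤ → ℝ} (h : Bx r F) (V : ℤ → ℝ) : Bx (r + 1) (adf V F) := by
  intro p hp
  unfold adf
  have a1 : |p.1| ≤ |p.1 + 1| + 1 := by
    rcases abs_cases p.1 with h1 | h1 <;> rcases abs_cases (p.1 + 1) with h2 | h2 <;> omega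
  have a2 : |p.1| ≤ |p.1 - 1| + 1 := by
    rcases abs_cases p.1 with h1 | h1 <;> rcases abs_cases (p.1 - 1) with h2 | h2 <;> omega
  have a3 : |p.2| ≤ |p.2 + 1| + 1 := by
    rcases abs_cases p.2 with h1 | h1 <;> rcases abs_cases (p.2 + 1) with h2 | h2 <;> omega
  have a4 : |p.2| ≤ |p.2 - 1| + 1 := by
    rcases abs_cases p.2 with h1 | h1 <;> rcases abs_cases (p.2 - 1) with h2 | h2 <;> omega
  rw [h (p.1 + 1, p.2) (by simp only; omega), h (p.1 - 1, p.2) (by simp only; omega),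
    h (p.1, p.2 + 1) (by simp only; omega), h (p.1, p.2 - 1) (by simp only; omega),
    h p (by omega)]
  ring

theorem Bx_mono {r s : ℤ} (hrs : r ≤ s) {F : ℤ × ℤ → ℝ} (h : Bx r F) : Bx s F := by
  intro p hp
  exact h p (by omega)

theorem Bx_Bf {r : ℤ} {F : ℤ × ℤ → ℝ} (h : Bx r F) (M : ℝ) (V : ℤ → ℝ) :
    Bx (r + 2) (Bf M V F) := by
  intro p hp
  unfold Bf
  rw [h p (by omega), Bx_adf (Bx_adf h V) V p (by omega)]
  ring

theorem Bx_Wf {N : ℤ} {m n : ℤ} (hm : |m| ≤ N) (hn : |n| ≤ N) (M : ℝ) (V : ℤ → ℝ) (k : ℕ) :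
    Bx (N + 2 * k) (Wf M V m n k) := by
  induction k with
  | zero =>
    intro p hp
    simp only [Wf]
    rw [if_neg]
    rintro rfl
    simp only [Nat.cast_zero, mul_zero, add_zero] at hp
    omega
  | succ k ih =>
    have := Bx_Bf ih M V
    refine Bx_mono ?_ this
    push_cast
    omega

theorem adf_local {r : ℤ} {F : ℤ × ℤ → ℝ} (h : Bx r F) {V V' : ℤ → ℝ}
    (hVV : ∀ x, |x| ≤ r → V x = V' x) : adf V F = adf V' F := by
  funext p
  unfold adf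
  by_cases hp : r < |p.1| ∨ r < |p.2|
  · rw [h p hp]
    ring
  · rw [hVV p.1 (by omega), hVV p.2 (by omega)]

theorem Wf_local {N : ℤ} {m n : ℤ} (hm : |m| ≤ N) (hn : |n| ≤ N) (M : ℝ) {V V' : ℤ → ℝ} (k : ℕ)
    (hVV : ∀ x, |x| ≤ N + 2 * k → V x = V' x) : Wf M V m n k = Wf M V' m n k := by
  induction k with
  | zero => rfl
  | succ k ih =>
    have h1 := ih fun x hx => hVV x (by push_cast; omega)
    have h2 := Bx_Wf hm hn M V k
    simp only [Wf]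
    rw [← h1]
    funext p
    unfold Bf
    have h3 : adf V (Wf M V m n k) = adf V' (Wf M V m n k) :=
      adf_local h2 fun x hx => hVV x (by push_cast; omega)
    rw [← h3, adf_local (Bx_adf h2 V) fun x hx => hVV x (by push_cast; omega)]

theorem Ph_local {N : ℤ} {m n : ℤ} (hm : |m| ≤ N) (hn : |n| ≤ N) (M : ℝ) {V V' : ℤ → ℝ} (k : ℕ)
    (hVV : ∀ x, |x| ≤ N + 4 * k → V x = V' x) : Ph M V m n k = Ph M V' m n k := by
  unfold Ph
  rw [Wf_local hm hn M (2 * k) fun x hx => hVV x (by push_cast at hx; omega)]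

end Pool.Agent.V11260.LP
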