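import Pool.Agent.V11260.LP.C1

set_option autoImplicit false
set_option linter.unusedSectionVars false
open scoped InnerProductSpace
open Filter Topology MeasureTheory

namespace Pool.Agent.V11260.LP

theorem ph_summable (L : ℕ) (V : ℤ → ℝ) (l : Win L) : Summable fun x => ph L V l x ^ 2 := by
  refine summable_of_ne_finset_zero (s := Win L) fun x hx => ?_
  rw [ph_out L V l hx]
  ring

/-- the window eigenfunctions as elements of `ℓ²` -/
noncomputable def phl (L : ℕ) (V : ℤ → ℝ) (l : Win L) : L2 ℤ := mkL2 (ph L V l) (ph_summable L V l)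

theorem phl_apply (L : ℕ) (V : ℤ → ℝ) (l : Win L) (x : ℤ) : phl L V l x = ph L V l x := rfl

theorem phl_orth (L : ℕ) (V : ℤ → ℝ) : Orthonormal ℝ (phl L V) := by
  classical
  rw [orthonormal_iff_ite]
  intro l l'
  rw [inner_L2, tsum_eq_sum (s := Win L)]
  · rw [← ev_col (HL_herm L V) l l', ← Finset.sum_coe_sort (Win L)]
    refine Finset.sum_congr rfl fun i _ => ?_
    rw [phl_apply, phl_apply, ph, ph, ext_in, ext_in]
  · intro x hx
    rw [phl_apply, ph_out L V l hx, zero_mul]

theorem Pl_orth (L : ℕ) (V : ℤ → ℝ) : Orthonormal ℝ fun l => tens (phl L V l) (phl L V l) := by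
  have h := phl_orth L V
  refine ⟨fun l => ?_, fun l l' hl => ?_⟩
  · rw [norm_tens, h.1, one_mul]
  · change ⟪tens (phl L V l) (phl L V l), tens (phl L V l') (phl L V l')⟫_ℝ = 0
    rw [inner_tens, h.2 hl, zero_mul]

section
variable (V : ℤ → ℝ) (K : ℝ) (hK : 0 ≤ K) (hV : ∀ n, |V n| ≤ K)
include hK hV

theorem AV_Pl (L : ℕ) (l : Win L) (p : ℤ × ℤ) (h1 : p.1 ∈ Win L) (h2 : p.2 ∈ Win L) :
    AV V K hK hV (tens (phl L V l) (phl L V l)) p = 0 := by
  rw [AV_apply]
  simp only [tens_apply, phl_apply]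
  have e1 := ph_eq L V l h1
  have e2 := ph_eq L V l h2
  linear_combination (ph L V l p.2) * e1 - (ph L V l p.1) * e2

/-- the window bound -/
theorem window_le (M : ℝ) (L : ℕ) {N : ℤ} {m n : ℤ} (hm : |m| ≤ N) (hn : |n| ≤ N) (k : ℕ)
    (hL : N + 2 * k ≤ L) :
    ∑ l, ph L V l m ^ 2 * ph L V l n ^ 2 ≤ Ph M V m n k := by
  set A := AV V K hK hV with hA
  have hfix : ∀ l, ⟪tens (phl L V l) (phl L V l), (BB A M ^ k) (sg (m, n))⟫_ℝ =
      ph L V l m * ph L V l n := by
    intro l
    have h0 : ∀ j ≤ k, ⟪tens (phl L V l) (phl L V l), (BB A M ^ j) (sg (m, n))⟫_ℝ =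
      ph L V l m * ph L V l n := by
      intro j
      induction j with
      | zero =>
        intro _
        rw [pow_zero]
        change ⟪tens (phl L V l) (phl L V l), sg (m, n)⟫_ℝ = _
        rw [real_inner_comm, inner_sg, tens_apply, phl_apply, phl_apply]
      | succ j ih =>
        intro hj
        have h1 : (BB A M ^ (j + 1)) (sg (m, n)) = BB A M ((BB A M ^ j) (sg (m, n))) := by
          rw [pow_succ']
          rfl
        rw [h1, BB_apply, inner_sub_right, ih (by omega), inner_smul_right]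
        have h2 : ⟪tens (phl L V l) (phl L V l), A (A ((BB A M ^ j) (sg (m, n))))⟫_ℝ = 0 := by
          rw [← AV_adj V K hK hV, inner_L2]
          convert tsum_zero with p
          by_cases hp : p.1 ∈ Win L ∧ p.2 ∈ Win L
          · rw [AV_Pl V K hK hV L l p hp.1 hp.2, zero_mul]
          · have h3 : (A ((BB A M ^ j) (sg (m, n)))) p = 0 := by
              rw [hA, AV_coe, Wf_coe]
              refine Bx_adf (Bx_Wf hm hn M V j) V p ?_
              rw [Finset.mem_Icc, Finset.mem_Icc] at hp
              rcases abs_cases p.1 with h1 | h1 <;> rcases abs_cases p.2 with h2 | h2 <;> omega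
            rw [h3, mul_zero]
        rw [h2, mul_zero, sub_zero]
    exact h0 k le_rfl
  have h := (Pl_orth L V).sum_inner_products_le (x := (BB A M ^ k) (sg (m, n)))
    (s := Finset.univ)
  rw [Ph_eq V K hK hV] at h
  refine le_trans (le_of_eq ?_) h
  refine Finset.sum_congr rfl fun l _ => ?_
  rw [hfix, Real.norm_eq_abs, sq_abs]
  ring

end

end Pool.Agent.V11260.LP
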