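import Mathlib

set_option autoImplicit false
open MeasureTheory
open scoped ENNReal

namespace Pool.Agent.V11260.LP

/-- Jensen for squares, in `ENNReal` -/
theorem sq_lint_le {α : Type*} [MeasurableSpace α] (μ : Measure α) [IsProbabilityMeasure μ]
    (g : α → ℝ≥0∞) (hg : AEMeasurable g μ) : (∫⁻ a, g a ∂μ) ^ 2 ≤ ∫⁻ a, g a ^ 2 ∂μ := by
  have h := ENNReal.lintegral_mul_le_Lp_mul_Lq μ Real.HolderConjugate.two_two hg
    (aemeasurable_const (b := (1 : ℝ≥0∞)))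
  simp only [Pi.mul_apply, mul_one, ENNReal.one_rpow, lintegral_const, measure_univ] at h
  calc (∫⁻ a, g a ∂μ) ^ 2 ≤ ((∫⁻ a, g a ^ (2 : ℝ) ∂μ) ^ (1 / 2 : ℝ)) ^ 2 := by gcongr
    _ = ∫⁻ a, g a ^ 2 ∂μ := by
        rw [← ENNReal.rpow_natCast, ← ENNReal.rpow_mul]
        norm_num

/-- the average of `f` over `[x - ε, x]` -/
noncomputable def avg (ε : ℝ) (f : ℝ → ℝ) (x : ℝ) : ℝ := ∫ s in (0 : ℝ)..1, f (x - ε * s)

theorem avg_meas (ε : ℝ) {f : ℝ → ℝ} (hf : Measurable f) : Measurable (avg ε f) := by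
  have h : avg ε f = fun x => ∫ s in Set.Ioc (0 : ℝ) 1, f (x - ε * s) := by
    funext x
    rw [avg, intervalIntegral.integral_of_le zero_le_one]
  rw [h]
  have h2 : StronglyMeasurable (Function.uncurry fun (x s : ℝ) => f (x - ε * s)) :=
    (hf.comp (by fun_prop)).stronglyMeasurable
  exact h2.integral_prod_right.measurable

instance prob01 : IsProbabilityMeasure ((volume : Measure ℝ).restrict (Set.Ioc 0 1)) := by
  constructor
  simp

/-- `L²` norm on a set, as a `lintegral` of squares -/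
noncomputable def q (f : ℝ → ℝ) (s : Set ℝ) : ℝ≥0∞ := ∫⁻ x in s, ‖f x‖ₑ ^ 2

theorem eL_sq (f : ℝ → ℝ) (s : Set ℝ) : eLpNorm f 2 (volume.restrict s) ^ 2 = q f s := by
  rw [q, eLpNorm_eq_lintegral_rpow_enorm_toReal (by norm_num) (by norm_num)]
  rw [← ENNReal.rpow_natCast, ← ENNReal.rpow_mul]
  norm_num

theorem avg_enorm (ε : ℝ) {f : ℝ → ℝ} (hf : Measurable f) (x : ℝ) :
    ‖avg ε f x‖ₑ ^ 2 ≤ ∫⁻ s in Set.Ioc (0 : ℝ) 1, ‖f (x - ε * s)‖ₑ ^ 2 := by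
  rw [avg, intervalIntegral.integral_of_le zero_le_one]
  refine le_trans (pow_le_pow_left' (enorm_integral_le_lintegral_enorm _) 2) ?_
  exact sq_lint_le _ _ (by fun_prop)

theorem lint_shift (c : ℝ) (F : ℝ → ℝ≥0∞) : ∫⁻ x, F (x - c) = ∫⁻ x, F x := by
  exact lintegral_sub_right_eq_self F c

theorem avg_q (ε : ℝ) {f : ℝ → ℝ} (hf : Measurable f) : q (avg ε f) Set.univ ≤ q f Set.univ := by
  unfold q
  simp only [Measure.restrict_univ]
  calc ∫⁻ x, ‖avg ε f x‖ₑ ^ 2 ≤ ∫⁻ x, ∫⁻ s in Set.Ioc (0 : ℝ) 1, ‖f (x - ε * s)‖ₑ ^ 2 :=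
        lintegral_mono fun x => avg_enorm ε hf x
    _ = ∫⁻ s in Set.Ioc (0 : ℝ) 1, ∫⁻ x, ‖f (x - ε * s)‖ₑ ^ 2 := by
        rw [lintegral_lintegral_swap]
        fun_prop
    _ = ∫⁻ s in Set.Ioc (0 : ℝ) 1, ∫⁻ x, ‖f x‖ₑ ^ 2 := by
        congr 1
        funext s
        exact lint_shift (ε * s) fun x => ‖f x‖ₑ ^ 2
    _ = ∫⁻ x, ‖f x‖ₑ ^ 2 := by simp

theorem avg_L (ε : ℝ) {f : ℝ → ℝ} (hf : Measurable f) :
    eLpNorm (avg ε f) 2 volume ≤ eLpNorm f 2 volume := by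
  have h1 := eL_sq (avg ε f) Set.univ
  have h2 := eL_sq f Set.univ
  rw [Measure.restrict_univ] at h1 h2
  have h3 := avg_q ε hf
  rw [← h1, ← h2] at h3
  exact (ENNReal.pow_le_pow_left_iff (by norm_num)).1 h3

theorem ii_of_L2 {f : ℝ → ℝ} (h2 : MemLp f 2 volume) (a b : ℝ) :
    IntervalIntegrable f volume a b := by
  have h := h2.locallyIntegrable (by norm_num)
  exact (h.integrableOn_isCompact isCompact_uIcc).intervalIntegrable

theorem avg_half {ε : ℝ} (hε : 0 < ε) {f : ℝ → ℝ} (h2 : MemLp f 2 volume) (x : ℝ) :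
    avg ε f x = (avg (ε / 2) f x + avg (ε / 2) f (x - ε / 2)) / 2 := by
  have h : ∀ (δ : ℝ), 0 < δ → ∀ y, avg δ f y = δ⁻¹ * ∫ t in (y - δ)..y, f t := by
    intro δ hδ y
    rw [avg]
    have := intervalIntegral.integral_comp_sub_mul (f := f) (a := 0) (b := 1) hδ.ne' y
    rw [this, smul_eq_mul]
    simp
  rw [h ε hε, h (ε / 2) (by positivity), h (ε / 2) (by positivity)]
  have h3 := intervalIntegral.integral_add_adjacent_intervals (ii_of_L2 h2 (x - ε) (x - ε / 2))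
    (ii_of_L2 h2 (x - ε / 2) x)
  rw [show x - ε / 2 - ε / 2 = x - ε by ring, ← h3]
  field_simp
  ring

end Pool.Agent.V11260.LP
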