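import Pool.Agent.V11260.LP.D1

set_option autoImplicit false
open MeasureTheory
open scoped ENNReal

namespace Pool.Agent.V11260.LP

theorem q_shift (f : ℝ → ℝ) (c : ℝ) : q (fun x => f (x - c)) Set.univ = q f Set.univ := by
  unfold q
  simp only [Measure.restrict_univ]
  exact lint_shift c fun x => ‖f x‖ₑ ^ 2

theorem N_sq (f : ℝ → ℝ) : eLpNorm f 2 volume ^ 2 = q f Set.univ := by
  have h1 := eL_sq f Set.univ
  rwa [Measure.restrict_univ] at h1

theorem N_shift (f : ℝ → ℝ) (c : ℝ) :
    eLpNorm (fun x => f (x - c)) 2 volume = eLpNorm f 2 volume := by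
  have h : eLpNorm (fun x => f (x - c)) 2 volume ^ 2 = eLpNorm f 2 volume ^ 2 := by
    rw [N_sq, N_sq, q_shift]
  exact (ENNReal.pow_right_strictMono (n := 2) (by norm_num)).injective h

theorem enorm_sq (r : ℝ) : ‖r‖ₑ ^ 2 = ENNReal.ofReal (r ^ 2) := by
  rw [← ofReal_norm, ← ENNReal.ofReal_pow (norm_nonneg _), Real.norm_eq_abs, sq_abs]

theorem par (a b : ℝ) : ‖(a + b) / 2‖ₑ ^ 2 + ‖(a - b) / 2‖ₑ ^ 2 =
    (2 : ℝ≥0∞)⁻¹ * ‖a‖ₑ ^ 2 + (2 : ℝ≥0∞)⁻¹ * ‖b‖ₑ ^ 2 := by
  have h2 : (2 : ℝ≥0∞)⁻¹ = ENNReal.ofReal (2⁻¹ : ℝ) := by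
    rw [ENNReal.ofReal_inv_of_pos (by norm_num)]
    norm_num
  rw [enorm_sq, enorm_sq, enorm_sq, enorm_sq, h2, ← ENNReal.ofReal_add (by positivity)
    (by positivity), ← ENNReal.ofReal_mul (by positivity), ← ENNReal.ofReal_mul (by positivity),
    ← ENNReal.ofReal_add (by positivity) (by positivity)]
  congr 1
  ring

theorem par_q {a b : ℝ → ℝ} (ha : Measurable a) (hb : Measurable b) :
    q (fun x => (a x + b x) / 2) Set.univ + q (fun x => (a x - b x) / 2) Set.univ =
      (2 : ℝ≥0∞)⁻¹ * q a Set.univ + (2 : ℝ≥0∞)⁻¹ * q b Set.univ := by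
  unfold q
  simp only [Measure.restrict_univ]
  rw [← lintegral_add_left (by fun_prop), ← lintegral_const_mul _ (by fun_prop),
    ← lintegral_const_mul _ (by fun_prop), ← lintegral_add_left (by fun_prop)]
  exact lintegral_congr fun x => par (a x) (b x)

theorem q_mul (a : ℝ → ℝ) (c : ℝ) : q (fun x => c * a x) Set.univ = ENNReal.ofReal (c ^ 2) *
    q a Set.univ := by
  unfold q
  simp only [Measure.restrict_univ]
  rw [← lintegral_const_mul' _ _ ENNReal.ofReal_ne_top]
  refine lintegral_congr fun x => ?_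
  rw [enorm_mul, mul_pow, enorm_sq c]

/-- near invariance of averages under translations by `ε / 2` -/
theorem near {ε : ℝ} (hε : 0 < ε) {f : ℝ → ℝ} (hf : Measurable f) (h2 : MemLp f 2 volume) :
    q (avg ε f) Set.univ +
      (4 : ℝ≥0∞)⁻¹ * eLpNorm (fun x => avg ε f x - avg ε f (x - ε / 2)) 2 volume ^ 2 ≤
      q f Set.univ := by
  set g := avg (ε / 2) f with hg
  have hgm : Measurable g := avg_meas _ hf
  set b : ℝ → ℝ := fun x => g (x - ε / 2) with hb
  have hbm : Measurable b := hgm.comp (by fun_prop)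
  have h1 : avg ε f = fun x => (g x + b x) / 2 := funext fun x => avg_half hε h2 x
  set d : ℝ → ℝ := fun x => (g x - b x) / 2 with hd
  have hdm : Measurable d := by fun_prop
  have h3 := par_q hgm hbm
  have h4 : q b Set.univ = q g Set.univ := q_shift g (ε / 2)
  rw [h4, ← add_mul, ENNReal.inv_two_add_inv_two, one_mul, ← h1] at h3
  have h5 : q g Set.univ ≤ q f Set.univ := avg_q _ hf
  have h6 : eLpNorm (fun x => avg ε f x - avg ε f (x - ε / 2)) 2 volume ≤
      eLpNorm d 2 volume + eLpNorm d 2 volume := by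
    have h7 : (fun x => avg ε f x - avg ε f (x - ε / 2)) = d + fun x => d (x - ε / 2) := by
      funext x
      rw [h1]
      simp only [hd, Pi.add_apply, hb]
      ring
    rw [h7]
    have h8 : Measurable fun x => d (x - ε / 2) := hdm.comp (by fun_prop)
    refine (eLpNorm_add_le hdm.aestronglyMeasurable h8.aestronglyMeasurable (by norm_num)).trans ?_
    rw [N_shift d]
  refine le_trans ?_ (h3.le.trans h5)
  refine add_le_add le_rfl ?_
  calc (4 : ℝ≥0∞)⁻¹ * eLpNorm (fun x => avg ε f x - avg ε f (x - ε / 2)) 2 volume ^ 2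
      ≤ (4 : ℝ≥0∞)⁻¹ * (eLpNorm d 2 volume + eLpNorm d 2 volume) ^ 2 := by gcongr
    _ = q d Set.univ := by
        rw [← two_mul, mul_pow, N_sq, ← mul_assoc]
        norm_num
        rw [ENNReal.inv_mul_cancel (by norm_num) (by norm_num), one_mul]

/-- iterated near invariance -/
theorem near_iter {w : ℝ → ℝ} (hw : Measurable w) (a : ℝ) (k : ℕ) :
    eLpNorm (fun x => w x - w (x - k * a)) 2 volume ≤
      k * eLpNorm (fun x => w x - w (x - a)) 2 volume := by
  induction k with
  | zero => simp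
  | succ k ih =>
    have h1 : (fun x => w x - w (x - (k + 1 : ℕ) * a)) = (fun x => w x - w (x - k * a)) +
        fun x => (fun y => w y - w (y - a)) (x - k * a) := by
      funext x
      simp only [Pi.add_apply]
      push_cast
      ring_nf
    rw [h1]
    refine (eLpNorm_add_le (by fun_prop) (by fun_prop) (by norm_num)).trans ?_
    rw [N_shift (fun y => w y - w (y - a)) (k * a)]
    push_cast
    rw [add_mul, one_mul]
    gcongr

end Pool.Agent.V11260.LP
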