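import Pool.Agent.V11260.LP.D2

set_option autoImplicit false
open MeasureTheory
open scoped ENNReal

namespace Pool.Agent.V11260.LP

theorem q_shift_set (w : ℝ → ℝ) (r b : ℝ) :
    q (fun x => w (x - b)) (Set.Icc (-r) r) = q w (Set.Icc (-r - b) (r - b)) := by
  unfold q
  rw [← lintegral_indicator measurableSet_Icc, ← lintegral_indicator measurableSet_Icc]
  rw [← lint_shift b ((Set.Icc (-r - b) (r - b)).indicator fun x => ‖w x‖ₑ ^ 2)]
  refine lintegral_congr fun x => ?_
  simp only [Set.indicator, Set.mem_Icc]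
  congr 1
  exact propext ⟨fun h => ⟨by linarith [h.1], by linarith [h.2]⟩,
    fun h => ⟨by linarith [h.1], by linarith [h.2]⟩⟩

theorem q_disj (w : ℝ → ℝ) {r l : ℝ} (hr : 0 ≤ r) (hl : 2 * r < l) (N : ℕ) :
    ∑ i ∈ Finset.range N, q w (Set.Icc (-r - i * l) (r - i * l)) ≤ q w Set.univ := by
  unfold q
  rw [← lintegral_biUnion_finset]
  · exact lintegral_mono_set (Set.subset_univ _)
  · intro i _ j _ hij
    have hl0 : 0 < l := by linarith
    simp only [Function.onFun]
    rw [Set.disjoint_left]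
    rintro x ⟨h1, h2⟩ ⟨h3, h4⟩
    rcases lt_or_gt_of_ne hij with h | h
    · have : (i : ℝ) + 1 ≤ j := by exact_mod_cast h
      nlinarith
    · have : (j : ℝ) + 1 ≤ i := by exact_mod_cast h
      nlinarith
  · exact fun i _ => measurableSet_Icc

/-- a nearly translation invariant function has little mass on an interval -/
theorem mass {w : ℝ → ℝ} (hw : Measurable w) {r a : ℝ} (hr : 0 ≤ r) (k : ℕ)
    (hk : 2 * r < k * a) :
    eLpNorm w 2 (volume.restrict (Set.Icc (-r) r)) ≤
      eLpNorm w 2 volume / 4 +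
        (16 * k : ℕ) * eLpNorm (fun x => w x - w (x - a)) 2 volume := by
  set D := eLpNorm (fun x => w x - w (x - a)) 2 volume with hD
  have h0 : ∑ i ∈ Finset.range 16, q w (Set.Icc (-r - i * (k * a)) (r - i * (k * a))) ≤
      ∑ i ∈ Finset.range 16, (eLpNorm w 2 volume / 4) ^ 2 := by
    refine (q_disj w hr hk 16).trans ?_
    rw [← N_sq, Finset.sum_const, Finset.card_range, nsmul_eq_mul, div_eq_mul_inv, mul_pow]
    have : ((16 : ℕ) : ℝ≥0∞) * (eLpNorm w 2 volume ^ 2 * (4⁻¹) ^ 2) =
        eLpNorm w 2 volume ^ 2 * (16 * (4⁻¹) ^ 2) := by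
      push_cast
      ring
    rw [this]
    have h16 : (16 : ℝ≥0∞) * (4⁻¹) ^ 2 = 1 := by
      rw [← ENNReal.inv_pow]
      norm_num
      exact ENNReal.mul_inv_cancel (by norm_num) (by norm_num)
    rw [h16, mul_one]
  obtain ⟨i, hi, h1⟩ : ∃ i ∈ Finset.range 16,
      q w (Set.Icc (-r - i * (k * a)) (r - i * (k * a))) ≤ (eLpNorm w 2 volume / 4) ^ 2 := by
    by_contra hcon
    push Not at hcon
    exact absurd (ENNReal.sum_lt_sum_of_nonempty (s := Finset.range 16) ⟨0, by simp⟩ hcon)
      (not_lt.2 h0)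
  rw [Finset.mem_range] at hi
  set b : ℝ := i * (k * a) with hb
  have h2 : eLpNorm (fun x => w (x - b)) 2 (volume.restrict (Set.Icc (-r) r)) ≤
      eLpNorm w 2 volume / 4 := by
    have h3 : eLpNorm (fun x => w (x - b)) 2 (volume.restrict (Set.Icc (-r) r)) ^ 2 ≤
        (eLpNorm w 2 volume / 4) ^ 2 := by
      rw [eL_sq, q_shift_set]
      exact h1
    exact (ENNReal.pow_le_pow_left_iff (by norm_num)).1 h3
  have h4 : w = (fun x => w (x - b)) + fun x => w x - w (x - b) := by
    funext x
    simp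
  have h5 : eLpNorm (fun x => w x - w (x - b)) 2 volume ≤ (16 * k : ℕ) * D := by
    have h6 := near_iter hw a (i * k)
    have h7 : (fun x => w x - w (x - (i * k : ℕ) * a)) = fun x => w x - w (x - b) := by
      funext x
      rw [hb]
      push_cast
      ring_nf
    rw [h7] at h6
    refine h6.trans ?_
    gcongr
  calc eLpNorm w 2 (volume.restrict (Set.Icc (-r) r))
      ≤ eLpNorm (fun x => w (x - b)) 2 (volume.restrict (Set.Icc (-r) r)) +
        eLpNorm (fun x => w x - w (x - b)) 2 (volume.restrict (Set.Icc (-r) r)) := by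
        conv_lhs => rw [h4]
        have m1 : Measurable fun x => w (x - b) := hw.comp (by fun_prop)
        exact eLpNorm_add_le m1.aestronglyMeasurable (hw.sub m1).aestronglyMeasurable
          (by norm_num)
    _ ≤ _ := by
        refine add_le_add h2 (le_trans ?_ h5)
        exact eLpNorm_mono_measure _ Measure.restrict_le_self

end Pool.Agent.V11260.LP
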