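import Pool.Agent.V11260.LP.D3

set_option autoImplicit false
open MeasureTheory
open scoped ENNReal

namespace Pool.Agent.V11260.LP

/-- inversion and translation on `L²(ℝ)` -/
noncomputable def Sv (c : ℝ) (w : ℝ → ℝ) (y : ℝ) : ℝ := |y|⁻¹ * w (c - y⁻¹)

theorem Sv_meas (c : ℝ) {w : ℝ → ℝ} (hw : Measurable w) : Measurable (Sv c w) := by
  unfold Sv
  exact (measurable_abs.inv).mul (hw.comp (measurable_const.sub measurable_inv))

theorem Sv_q (c : ℝ) (w : ℝ → ℝ) {s : Set ℝ} (hs : MeasurableSet s) (h0 : (0 : ℝ) ∉ s) :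
    q (Sv c w) s = q w ((fun y => c - y⁻¹) '' s) := by
  have hne : ∀ y ∈ s, y ≠ 0 := fun y hy h => h0 (h ▸ hy)
  have h := lintegral_image_eq_lintegral_abs_deriv_mul (f := fun y : ℝ => c - y⁻¹)
    (f' := fun y => (y ^ 2)⁻¹) hs (fun y hy => by
      have h1 := ((hasDerivAt_inv (hne y hy)).const_sub c)
      have h2 : HasDerivAt (fun y : ℝ => c - y⁻¹) ((y ^ 2)⁻¹) y := by
        rwa [neg_neg] at h1
      exact h2.hasDerivWithinAt) (by
      intro y _ z _ hyz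
      have h3 : c - y⁻¹ = c - z⁻¹ := hyz
      have : y⁻¹ = z⁻¹ := by linarith
      exact inv_injective this) (fun x => ‖w x‖ₑ ^ 2)
  unfold q
  rw [h]
  refine setLIntegral_congr_fun hs fun y hy => ?_
  simp only [Sv]
  rw [enorm_mul, mul_pow, enorm_sq |y|⁻¹]
  congr 2
  rw [abs_inv, abs_of_nonneg (sq_nonneg y), inv_pow, sq_abs]

theorem Sv_q_univ (c : ℝ) (w : ℝ → ℝ) : q (Sv c w) Set.univ = q w Set.univ := by
  have h1 : ∀ (f : ℝ → ℝ) (x : ℝ), q f Set.univ = q f ({x}ᶜ) := by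
    intro f x
    unfold q
    rw [Measure.restrict_univ, restrict_compl_singleton]
  rw [h1 (Sv c w) 0, h1 w c, Sv_q c w (measurableSet_singleton 0).compl (by simp)]
  congr 1
  ext x
  simp only [Set.mem_image, Set.mem_compl_iff, Set.mem_singleton_iff]
  constructor
  · rintro ⟨y, hy, rfl⟩ h
    have : y⁻¹ = 0 := by linarith
    exact hy (inv_eq_zero.1 this)
  · intro hx
    refine ⟨(c - x)⁻¹, inv_ne_zero (sub_ne_zero.2 (Ne.symm hx)), ?_⟩
    rw [inv_inv]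
    ring

theorem Sv_N (c : ℝ) (w : ℝ → ℝ) : eLpNorm (Sv c w) 2 volume = eLpNorm w 2 volume := by
  have h : eLpNorm (Sv c w) 2 volume ^ 2 = eLpNorm w 2 volume ^ 2 := by
    rw [N_sq, N_sq, Sv_q_univ]
  exact (ENNReal.pow_right_strictMono (n := 2) (by norm_num)).injective h

theorem Sv_out (c : ℝ) (w : ℝ → ℝ) :
    q (Sv c w) ((Set.Icc (-1) 1)ᶜ) ≤ q (fun x => w (x - (-c))) (Set.Icc (-1) 1) := by
  rw [Sv_q c w measurableSet_Icc.compl (by simp), q_shift_set]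
  unfold q
  refine lintegral_mono_set ?_
  rintro x ⟨y, hy, rfl⟩
  have h1 : |y⁻¹| ≤ 1 := by
    rw [abs_inv]
    refine inv_le_one_of_one_le₀ ?_
    by_contra hcon
    push Not at hcon
    exact hy (abs_le.1 hcon.le)
  have h2 := abs_le.1 h1
  constructor <;> simp only <;> linarith [h2.1, h2.2]

/-- the contraction estimate -/
theorem contr {ε : ℝ} (hε : 0 < ε) (hε1 : ε ≤ 1) : ∃ ρ : ℝ, 0 < ρ ∧ ρ < 1 ∧
    ∀ (c : ℝ) (f : ℝ → ℝ), Measurable f → MemLp f 2 volume →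
      q (avg ε (Sv c (avg ε f))) Set.univ ≤ ENNReal.ofReal ρ * q f Set.univ := by
  obtain ⟨k, hk⟩ := exists_nat_gt (4 / (ε / 2))
  rw [div_lt_iff₀ (by positivity)] at hk
  have hk0 : 0 < k := by
    rcases Nat.eq_zero_or_pos k with h | h
    · rw [h] at hk
      norm_num at hk
    · exact h
  have hk1 : (1 : ℝ) ≤ k := by exact_mod_cast hk0
  refine ⟨1 - 1 / (65536 * k ^ 2), ?_, ?_, ?_⟩
  · have : 1 / (65536 * (k : ℝ) ^ 2) < 1 := by
      rw [div_lt_one (by positivity)]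
      nlinarith
    linarith
  · have : 0 < 1 / (65536 * (k : ℝ) ^ 2) := by positivity
    linarith
  intro c f hf h2
  set w := avg ε f with hw
  have hwm : Measurable w := avg_meas _ hf
  set h := Sv c w with hh
  have hhm : Measurable h := Sv_meas c hwm
  have hF : eLpNorm f 2 volume ≠ ⊤ := h2.2.ne
  have hWF : eLpNorm w 2 volume ≤ eLpNorm f 2 volume := avg_L ε hf
  have hW : eLpNorm w 2 volume ≠ ⊤ := ne_top_of_le_ne_top hF hWF
  have hH : eLpNorm h 2 volume = eLpNorm w 2 volume := Sv_N c w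
  have hh2 : MemLp h 2 volume := ⟨hhm.aestronglyMeasurable, by rw [hH]; exact hW.lt_top⟩
  set g := avg ε h with hg
  have hgm : Measurable g := avg_meas _ hhm
  have hAW : eLpNorm g 2 volume ≤ eLpNorm h 2 volume := avg_L ε hhm
  have hA : eLpNorm g 2 volume ≠ ⊤ := ne_top_of_le_ne_top (by rw [hH]; exact hW) hAW
  have n1 := near hε hf h2
  have n2 := near hε hhm hh2
  rw [← hw] at n1
  rw [← hg] at n2
  set D1 := eLpNorm (fun x => w x - w (x - ε / 2)) 2 volume with hD1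
  set D2 := eLpNorm (fun x => g x - g (x - ε / 2)) 2 volume with hD2
  -- masses
  set wc : ℝ → ℝ := fun x => w (x - (-c)) with hwc
  have hwcm : Measurable wc := hwm.comp (by fun_prop)
  have m1 := mass hwcm (r := 1) (a := ε / 2) (by norm_num) k (by linarith)
  have hwcN : eLpNorm wc 2 volume = eLpNorm w 2 volume := N_shift w (-c)
  have hwcD : eLpNorm (fun x => wc x - wc (x - ε / 2)) 2 volume = D1 := by
    have : (fun x => wc x - wc (x - ε / 2)) =
        fun x => (fun y => w y - w (y - ε / 2)) (x - (-c)) := by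
      funext x
      simp only [hwc]
      ring_nf
    rw [this, N_shift (fun y => w y - w (y - ε / 2)) (-c)]
  rw [hwcN, hwcD] at m1
  have m2 := mass hgm (r := 2) (a := ε / 2) (by norm_num) k (by linarith)
  rw [← hD2] at m2
  -- splitting
  set h1 : ℝ → ℝ := (Set.Icc (-1) 1).indicator h with hh1
  set h3 : ℝ → ℝ := ((Set.Icc (-1) 1)ᶜ).indicator h with hh3
  have h1m : Measurable h1 := hhm.indicator measurableSet_Icc
  have h3m : Measurable h3 := hhm.indicator measurableSet_Icc.compl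
  have h1L : MemLp h1 2 volume := hh2.indicator measurableSet_Icc
  have h3L : MemLp h3 2 volume := hh2.indicator measurableSet_Icc.compl
  have hsplit : ∀ x, h x = h1 x + h3 x := fun x => by
    rw [hh1, hh3]
    exact (Set.indicator_self_add_compl_apply (Set.Icc (-1 : ℝ) 1) h x).symm
  have gsplit : ∀ x ∉ Set.Icc (-2 : ℝ) 2, g x = avg ε h3 x := by
    intro x hx
    rw [hg, avg, avg]
    refine intervalIntegral.integral_congr fun s hs => ?_
    rw [Set.uIcc_of_le zero_le_one] at hs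
    rw [hsplit]
    have : x - ε * s ∉ Set.Icc (-1 : ℝ) 1 := by
      intro hc
      refine hx ⟨?_, ?_⟩
      · have : 0 ≤ ε * s := mul_nonneg hε.le hs.1
        linarith [hc.1]
      · have : ε * s ≤ 1 := mul_le_one₀ hε1 hs.1 hs.2
        linarith [hc.2]
    rw [hh1, Set.indicator_of_notMem this, zero_add]
  have e3 : eLpNorm h3 2 volume ≤ eLpNorm w 2 volume / 4 + (16 * k : ℕ) * D1 := by
    refine le_trans ?_ m1
    have h5 : eLpNorm h3 2 volume ^ 2 ≤ eLpNorm wc 2 (volume.restrict (Set.Icc (-1) 1)) ^ 2 := by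
      rw [eL_sq, hh3, eLpNorm_indicator_eq_eLpNorm_restrict measurableSet_Icc.compl, eL_sq]
      exact Sv_out c w
    exact (ENNReal.pow_le_pow_left_iff (by norm_num)).1 h5
  have e4 : eLpNorm g 2 (volume.restrict ((Set.Icc (-2) 2)ᶜ)) ≤ eLpNorm h3 2 volume := by
    calc eLpNorm g 2 (volume.restrict ((Set.Icc (-2) 2)ᶜ))
        = eLpNorm (avg ε h3) 2 (volume.restrict ((Set.Icc (-2) 2)ᶜ)) := by
          refine eLpNorm_congr_ae ?_
          rw [Filter.EventuallyEq, ae_restrict_iff' measurableSet_Icc.compl]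
          exact Filter.Eventually.of_forall fun x hx => gsplit x hx
      _ ≤ eLpNorm (avg ε h3) 2 volume := eLpNorm_mono_measure _ Measure.restrict_le_self
      _ ≤ _ := avg_L ε h3m
  have e5 : eLpNorm g 2 volume ≤ eLpNorm g 2 (volume.restrict (Set.Icc (-2) 2)) +
      eLpNorm g 2 (volume.restrict ((Set.Icc (-2) 2)ᶜ)) := by
    have h6 : g = (Set.Icc (-2) 2).indicator g + ((Set.Icc (-2) 2)ᶜ).indicator g :=
      (Set.indicator_self_add_compl _ g).symm
    conv_lhs => rw [h6]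
    refine (eLpNorm_add_le (hgm.indicator measurableSet_Icc).aestronglyMeasurable
      (hgm.indicator measurableSet_Icc.compl).aestronglyMeasurable (by norm_num)).trans ?_
    rw [eLpNorm_indicator_eq_eLpNorm_restrict measurableSet_Icc,
      eLpNorm_indicator_eq_eLpNorm_restrict measurableSet_Icc.compl]
  have e6 : eLpNorm g 2 volume ≤ (eLpNorm g 2 volume / 4 + (16 * k : ℕ) * D2) +
      (eLpNorm w 2 volume / 4 + (16 * k : ℕ) * D1) :=
    e5.trans (add_le_add m2 (e4.trans e3))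
  -- real numbers
  rw [← N_sq, ← N_sq] at n1 n2
  rw [hH] at n2
  have hD1t : D1 ≠ ⊤ := by
    intro hc
    rw [hc] at n1
    have : (⊤ : ℝ≥0∞) ≤ eLpNorm f 2 volume ^ 2 := by
      refine le_trans ?_ n1
      simp [ENNReal.top_pow, ENNReal.mul_top]
    exact ENNReal.pow_ne_top hF (top_le_iff.1 this)
  have hD2t : D2 ≠ ⊤ := by
    intro hc
    rw [hc] at n2
    have : (⊤ : ℝ≥0∞) ≤ eLpNorm w 2 volume ^ 2 := by
      refine le_trans ?_ n2
      simp [ENNReal.top_pow, ENNReal.mul_top]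
    exact ENNReal.pow_ne_top hW (top_le_iff.1 this)
  rw [← N_sq, ← N_sq]
  lift eLpNorm f 2 volume to NNReal using hF with F hF'
  lift eLpNorm w 2 volume to NNReal using hW with W hW'
  lift eLpNorm g 2 volume to NNReal using hA with A hA'
  lift D1 to NNReal using hD1t with d1 hd1
  lift D2 to NNReal using hD2t with d2 hd2
  have r1 : (W : ℝ) ^ 2 + d1 ^ 2 / 4 ≤ F ^ 2 := by
    have h7 : (W : ℝ≥0∞) ^ 2 + 4⁻¹ * (d1 : ℝ≥0∞) ^ 2 = ((W ^ 2 + 4⁻¹ * d1 ^ 2 : NNReal) : ℝ≥0∞) := by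
      rw [ENNReal.coe_add, ENNReal.coe_mul, ENNReal.coe_inv (by norm_num), ENNReal.coe_pow,
        ENNReal.coe_pow]
      norm_num
    rw [h7] at n1
    have h8 : W ^ 2 + 4⁻¹ * d1 ^ 2 ≤ F ^ 2 := by exact_mod_cast n1
    have h9 : ((W ^ 2 + 4⁻¹ * d1 ^ 2 : NNReal) : ℝ) ≤ ((F ^ 2 : NNReal) : ℝ) := by exact_mod_cast h8
    push_cast at h9
    linarith
  have r2 : (A : ℝ) ^ 2 + d2 ^ 2 / 4 ≤ W ^ 2 := by
    have h7 : (A : ℝ≥0∞) ^ 2 + 4⁻¹ * (d2 : ℝ≥0∞) ^ 2 = ((A ^ 2 + 4⁻¹ * d2 ^ 2 : NNReal) : ℝ≥0∞) := by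
      rw [ENNReal.coe_add, ENNReal.coe_mul, ENNReal.coe_inv (by norm_num), ENNReal.coe_pow,
        ENNReal.coe_pow]
      norm_num
    rw [h7] at n2
    have h8 : A ^ 2 + 4⁻¹ * d2 ^ 2 ≤ W ^ 2 := by exact_mod_cast n2
    have h9 : ((A ^ 2 + 4⁻¹ * d2 ^ 2 : NNReal) : ℝ) ≤ ((W ^ 2 : NNReal) : ℝ) := by exact_mod_cast h8
    push_cast at h9
    linarith
  have r3 : (A : ℝ) ≤ (A / 4 + 16 * k * d2) + (W / 4 + 16 * k * d1) := by
    have h7 : (A : ℝ≥0∞) / 4 + (16 * k : ℕ) * (d2 : ℝ≥0∞) + ((W : ℝ≥0∞) / 4 + (16 * k : ℕ) * (d1 : ℝ≥0∞)) =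
        ((A / 4 + 16 * k * d2 + (W / 4 + 16 * k * d1) : NNReal) : ℝ≥0∞) := by
      simp only [ENNReal.coe_add, ENNReal.coe_mul,
        ENNReal.coe_div (show (4 : NNReal) ≠ 0 by norm_num)]
      norm_num
    rw [h7] at e6
    have h8 : A ≤ A / 4 + 16 * k * d2 + (W / 4 + 16 * k * d1) := by exact_mod_cast e6
    have h9 : (A : ℝ) ≤ ((A / 4 + 16 * k * d2 + (W / 4 + 16 * k * d1) : NNReal) : ℝ) := by
      exact_mod_cast h8
    push_cast at h9
    linarith
  have hA0 : (0 : ℝ) ≤ A := A.2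
  have hF0 : (0 : ℝ) ≤ F := F.2
  have hW0 : (0 : ℝ) ≤ W := W.2
  have hd10 : (0 : ℝ) ≤ d1 := d1.2
  have hd20 : (0 : ℝ) ≤ d2 := d2.2
  have r4 : (A : ℝ) ^ 2 ≤ (1 - 1 / (65536 * k ^ 2)) * F ^ 2 := by
    have hAW' : (A : ℝ) ≤ W := by nlinarith
    have hWF' : (W : ℝ) ≤ F := by nlinarith
    have h10 : (A : ℝ) ≤ F / 2 + 16 * k * (d1 + d2) := by
      nlinarith
    have h11 : ((d1 : ℝ) + d2) ^ 2 ≤ 16 * (F ^ 2 - A ^ 2) := by
      nlinarith [sq_nonneg ((d1 : ℝ) - d2)]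
    have hs : (1 - 1 / (65536 * (k : ℝ) ^ 2)) * F ^ 2 = F ^ 2 - F ^ 2 / (65536 * k ^ 2) := by ring
    rw [hs]
    rcases le_or_gt (A : ℝ) (F * (3 / 4)) with h12 | h12
    · have h13 : (F : ℝ) ^ 2 / (65536 * k ^ 2) ≤ F ^ 2 / 4 := by
        refine div_le_div_of_nonneg_left (by positivity) (by norm_num) ?_
        nlinarith
      nlinarith
    · have h14 : F / 4 ≤ 16 * k * (d1 + d2) := by linarith
      have h15 : (F / 4 : ℝ) ^ 2 ≤ (16 * k * (d1 + d2)) ^ 2 := by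
        exact pow_le_pow_left₀ (by positivity) h14 2
      have h16 : (F : ℝ) ^ 2 / (65536 * k ^ 2) ≤ F ^ 2 - A ^ 2 := by
        rw [div_le_iff₀ (by positivity)]
        have h17 : (16 * (k : ℝ) * (d1 + d2)) ^ 2 = 256 * k ^ 2 * (d1 + d2) ^ 2 := by ring
        rw [h17] at h15
        have h18 : 256 * (k : ℝ) ^ 2 * (d1 + d2) ^ 2 ≤ 256 * k ^ 2 * (16 * (F ^ 2 - A ^ 2)) := by
          gcongr
        nlinarith
      linarith
  have hρ : 0 ≤ 1 - 1 / (65536 * (k : ℝ) ^ 2) := by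
    have : 1 / (65536 * (k : ℝ) ^ 2) < 1 := by
      rw [div_lt_one (by positivity)]
      nlinarith
    linarith
  have r5 : ENNReal.ofReal ((A : ℝ) ^ 2) ≤ ENNReal.ofReal ((1 - 1 / (65536 * k ^ 2)) * F ^ 2) :=
    ENNReal.ofReal_le_ofReal r4
  rw [ENNReal.ofReal_mul hρ, ENNReal.ofReal_pow hA0, ENNReal.ofReal_pow hF0,
    ENNReal.ofReal_coe_nnreal, ENNReal.ofReal_coe_nnreal] at r5
  exact r5

end Pool.Agent.V11260.LP
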