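import Pool.Agent.V11260.LP.D4

set_option autoImplicit false
open MeasureTheory
open scoped ENNReal

namespace Pool.Agent.V11260.LP

/-- Euclidean norm of `(a, b)` -/
noncomputable def nm (a b : ℝ) : ℝ := Real.sqrt (a ^ 2 + b ^ 2)

theorem nm_smul (t a b : ℝ) : nm (t * a) (t * b) = |t| * nm a b := by
  unfold nm
  rw [show (t * a) ^ 2 + (t * b) ^ 2 = t ^ 2 * (a ^ 2 + b ^ 2) by ring, Real.sqrt_mul (sq_nonneg t),
    Real.sqrt_sq_eq_abs]

theorem nm_pos {a b : ℝ} (h : a ≠ 0 ∨ b ≠ 0) : 0 < nm a b := by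
  unfold nm
  apply Real.sqrt_pos.2
  rcases h with h | h
  · have := sq_nonneg b
    positivity
  · have := sq_nonneg a
    positivity

/-- averaged inverse norm of a product of `k` transfer matrices -/
noncomputable def FF (ε : ℝ) (c : ℕ → ℝ) : ℕ → ℝ → ℝ → ℝ≥0∞
  | 0 => fun a b => ENNReal.ofReal (nm a b)⁻¹
  | (k + 1) => fun a b => ∫⁻ x in Set.Ioc (0 : ℝ) 1, FF ε c k ((c k - ε * x) * a - b) a

/-- the same in projective coordinates -/
noncomputable def ff (ε : ℝ) (c : ℕ → ℝ) : ℕ → ℝ → ℝ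
  | 0 => fun y => (nm y 1)⁻¹
  | (k + 1) => Sv (c k) (avg ε (ff ε c k))

theorem nm_cont : Continuous fun p : ℝ × ℝ => nm p.1 p.2 := by
  unfold nm
  fun_prop

theorem ff_meas (ε : ℝ) (c : ℕ → ℝ) (k : ℕ) : Measurable (ff ε c k) := by
  induction k with
  | zero =>
    have : Measurable fun y : ℝ => nm y 1 :=
      (nm_cont.comp (by fun_prop : Continuous fun y : ℝ => (y, (1 : ℝ)))).measurable
    exact this.inv
  | succ k ih => exact Sv_meas _ (avg_meas _ ih)

theorem ff_zero_q (ε : ℝ) (c : ℕ → ℝ) : q (ff ε c 0) Set.univ = ENNReal.ofReal Real.pi := by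
  unfold q
  rw [Measure.restrict_univ]
  have h : ∀ y : ℝ, ‖ff ε c 0 y‖ₑ ^ 2 = ENNReal.ofReal ((1 + y ^ 2)⁻¹) := by
    intro y
    rw [enorm_sq]
    congr 1
    simp only [ff, nm]
    rw [inv_pow, Real.sq_sqrt (by positivity)]
    congr 1
    ring
  simp only [h]
  rw [← ofReal_integral_eq_lintegral_ofReal integrable_inv_one_add_sq
    (Filter.Eventually.of_forall fun y => by positivity), integral_univ_inv_one_add_sq]

theorem memLp_of_q {f : ℝ → ℝ} (hf : Measurable f) (h : q f Set.univ ≠ ⊤) : MemLp f 2 volume := by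
  refine ⟨hf.aestronglyMeasurable, ?_⟩
  rw [← N_sq] at h
  rw [lt_top_iff_ne_top]
  intro hc
  rw [hc] at h
  simp at h

theorem ff_q_succ (ε : ℝ) (c : ℕ → ℝ) (k : ℕ) :
    q (ff ε c (k + 1)) Set.univ = q (avg ε (ff ε c k)) Set.univ := Sv_q_univ _ _

theorem ff_q_anti (ε : ℝ) (c : ℕ → ℝ) (k : ℕ) :
    q (ff ε c (k + 1)) Set.univ ≤ q (ff ε c k) Set.univ := by
  rw [ff_q_succ]
  exact avg_q ε (ff_meas ε c k)

theorem ff_q_fin (ε : ℝ) (c : ℕ → ℝ) (k : ℕ) : q (ff ε c k) Set.univ ≠ ⊤ := by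
  induction k with
  | zero => rw [ff_zero_q]; exact ENNReal.ofReal_ne_top
  | succ k ih => exact ne_top_of_le_ne_top ih (ff_q_anti ε c k)

theorem ff_memLp (ε : ℝ) (c : ℕ → ℝ) (k : ℕ) : MemLp (ff ε c k) 2 volume :=
  memLp_of_q (ff_meas ε c k) (ff_q_fin ε c k)

theorem ff_nonneg (ε : ℝ) (c : ℕ → ℝ) (k : ℕ) (y : ℝ) : 0 ≤ ff ε c k y := by
  induction k generalizing y with
  | zero => exact inv_nonneg.2 (Real.sqrt_nonneg _)
  | succ k ih =>
    refine mul_nonneg (by positivity) ?_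
    exact intervalIntegral.integral_nonneg zero_le_one fun s _ => ih _

theorem ff_decay {ε : ℝ} (hε : 0 < ε) (hε1 : ε ≤ 1) : ∃ ρ : ℝ, 0 < ρ ∧ ρ < 1 ∧
    ∀ (c : ℕ → ℝ) (k : ℕ), q (ff ε c k) Set.univ ≤
      ENNReal.ofReal (ρ ^ (k / 2) * Real.pi) := by
  obtain ⟨ρ, h0, h1, H⟩ := contr hε hε1
  refine ⟨ρ, h0, h1, fun c => ?_⟩
  have hstep : ∀ k, q (ff ε c (k + 2)) Set.univ ≤ ENNReal.ofReal ρ * q (ff ε c k) Set.univ := by
    intro k
    rw [ff_q_succ]
    exact H (c k) (ff ε c k) (ff_meas ε c k) (ff_memLp ε c k)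
  have heven : ∀ j, q (ff ε c (2 * j)) Set.univ ≤ ENNReal.ofReal (ρ ^ j * Real.pi) := by
    intro j
    induction j with
    | zero => simpa using (ff_zero_q ε c).le
    | succ j ih =>
      refine (hstep (2 * j)).trans ?_
      rw [pow_succ, mul_comm (ρ ^ j) ρ, mul_assoc, ENNReal.ofReal_mul h0.le]
      gcongr
  intro k
  rcases Nat.even_or_odd' k with ⟨j, rfl | rfl⟩
  · rw [Nat.mul_div_cancel_left j (by norm_num)]
    exact heven j
  · rw [show (2 * j + 1) / 2 = j by omega]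
    exact (ff_q_anti ε c (2 * j)).trans (heven j)

theorem FF_smul (ε : ℝ) (c : ℕ → ℝ) (k : ℕ) {t : ℝ} (ht : t ≠ 0) (a b : ℝ) :
    FF ε c k (t * a) (t * b) = ENNReal.ofReal |t|⁻¹ * FF ε c k a b := by
  induction k generalizing a b with
  | zero =>
    simp only [FF]
    rw [nm_smul, mul_inv, ENNReal.ofReal_mul (by positivity)]
  | succ k ih =>
    simp only [FF]
    rw [← lintegral_const_mul' _ _ ENNReal.ofReal_ne_top]
    refine lintegral_congr fun x => ?_
    rw [← ih]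
    congr 1
    ring

theorem FF_ff (ε : ℝ) (hε : 0 < ε) (c : ℕ → ℝ) (k : ℕ) : 
    (∀ y : ℝ, y ≠ 0 → FF ε c k y 1 = ENNReal.ofReal (ff ε c k y)) ∧
    ∀ a b : ℝ, a ≠ 0 → FF ε c (k + 1) a b =
      ENNReal.ofReal (|a|⁻¹ * avg ε (ff ε c k) (c k - b / a)) := by
  have key : ∀ k, (∀ y : ℝ, y ≠ 0 → FF ε c k y 1 = ENNReal.ofReal (ff ε c k y)) →
      ∀ a b : ℝ, a ≠ 0 → FF ε c (k + 1) a b =
        ENNReal.ofReal (|a|⁻¹ * avg ε (ff ε c k) (c k - b / a)) := by
    intro k hk a b ha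
    simp only [FF]
    rw [ENNReal.ofReal_mul (by positivity), avg, intervalIntegral.integral_of_le zero_le_one]
    have h1 : Integrable (fun s => ff ε c k (c k - b / a - ε * s))
        (volume.restrict (Set.Ioc (0 : ℝ) 1)) := by
      have h2 := ii_of_L2 (ff_memLp ε c k) (c k - b / a - ε * 0) (c k - b / a - ε * 1)
      have h3 := h2.comp_sub_left (c k - b / a)
      have h4 : IntervalIntegrable (fun s => ff ε c k (c k - b / a - ε * s)) volume 0 1 := by
        have h5 := (h2.comp_sub_left (c k - b / a)).comp_mul_left (c := ε)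
        simp only [sub_sub_cancel] at h5
        rw [mul_zero, zero_div, mul_one, div_self hε.ne'] at h5
        exact h5
      exact (intervalIntegrable_iff_integrableOn_Ioc_of_le zero_le_one).1 h4
    rw [ofReal_integral_eq_lintegral_ofReal h1
      (Filter.Eventually.of_forall fun s => ff_nonneg _ _ _ _),
      ← lintegral_const_mul' _ _ ENNReal.ofReal_ne_top]
    have hN : ∀ᵐ x ∂(volume.restrict (Set.Ioc (0 : ℝ) 1)), x ≠ (c k - b / a) / ε := by
      refine ae_restrict_of_ae ?_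
      exact (Set.countable_singleton _).ae_notMem volume
    refine lintegral_congr_ae ?_
    filter_upwards [hN] with x hx
    have hx' : c k - b / a - ε * x ≠ 0 := by
      intro hc
      apply hx
      rw [eq_div_iff hε.ne']
      linarith
    rw [← hk _ hx', ← FF_smul ε c k ha]
    congr 1
    · field_simp
      ring
    · rw [mul_one]
  have h0 : ∀ k, (∀ y : ℝ, y ≠ 0 → FF ε c k y 1 = ENNReal.ofReal (ff ε c k y)) := by
    intro k
    induction k with
    | zero => exact fun y _ => rfl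
    | succ k ih =>
      intro y hy
      rw [key k ih y 1 hy]
      simp only [ff, Sv, one_div]
  exact ⟨h0 k, key k (h0 k)⟩

end Pool.Agent.V11260.LP
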