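import Mathlib

set_option autoImplicit false
open MeasureTheory Matrix
open scoped ENNReal

namespace Pool.Agent.V11260.LP

variable {ι : Type*} [Fintype ι] [DecidableEq ι]

/-- `H - z` -/
noncomputable def Rz (H : Matrix ι ι ℝ) (z : ℂ) : Matrix ι ι ℂ := H.map (fun r => (r : ℂ)) - z • 1

theorem herm_c {H : Matrix ι ι ℝ} (hH : H.IsHermitian) :
    (H.map (fun r => (r : ℂ))).IsHermitian := by
  ext i j
  have := congrFun (congrFun hH i) j
  simp only [conjTranspose_apply, map_apply, star_trivial] at this ⊢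
  rw [this]
  exact Complex.conj_ofReal _

theorem star_self (v : ι → ℂ) : star v ⬝ᵥ v = ((∑ i, ‖v i‖ ^ 2 : ℝ) : ℂ) := by
  simp only [dotProduct, Pi.star_apply]
  push_cast
  refine Finset.sum_congr rfl fun i _ => ?_
  rw [← Complex.conj_mul']
  rfl

theorem herm_im {H : Matrix ι ι ℝ} (hH : H.IsHermitian) (z : ℂ) (v : ι → ℂ) :
    (star v ⬝ᵥ (Rz H z *ᵥ v)).im = -(z.im * ∑ i, ‖v i‖ ^ 2) := by
  have h1 : Rz H z *ᵥ v = H.map (fun r => (r : ℂ)) *ᵥ v - z • v := by
    rw [Rz, Matrix.sub_mulVec, Matrix.smul_mulVec, Matrix.one_mulVec]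
  have h2 := (herm_c hH).im_star_dotProduct_mulVec_self v
  rw [h1, dotProduct_sub, dotProduct_smul, star_self, Complex.sub_im]
  simp only [RCLike.im_to_complex] at h2
  rw [h2, smul_eq_mul, Complex.mul_im, Complex.ofReal_re, Complex.ofReal_im]
  ring

theorem sum_norm_pos {v : ι → ℂ} (hv : v ≠ 0) : 0 < ∑ i, ‖v i‖ ^ 2 := by
  obtain ⟨i, hi⟩ := Function.ne_iff.1 hv
  refine Finset.sum_pos' (fun j _ => by positivity) ⟨i, Finset.mem_univ i, ?_⟩
  have : 0 < ‖v i‖ := norm_pos_iff.2 hi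
  positivity

theorem Rz_unit {H : Matrix ι ι ℝ} (hH : H.IsHermitian) {z : ℂ} (hz : z.im ≠ 0) :
    IsUnit (Rz H z).det := by
  rw [isUnit_iff_ne_zero]
  intro h0
  obtain ⟨v, hv, h1⟩ := Matrix.exists_mulVec_eq_zero_iff.2 h0
  have h2 := herm_im hH z v
  rw [h1, dotProduct_zero, Complex.zero_im] at h2
  have h3 := sum_norm_pos hv
  have : z.im * ∑ i, ‖v i‖ ^ 2 ≠ 0 := mul_ne_zero hz h3.ne'
  apply this
  linarith

/-- the diagonal entry of the resolvent -/
noncomputable def Gr (H : Matrix ι ι ℝ) (z : ℂ) (m : ι) : ℂ := ((Rz H z)⁻¹) m m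

theorem solve {H : Matrix ι ι ℝ} (hH : H.IsHermitian) {z : ℂ} (hz : z.im ≠ 0) (m : ι) (x : ι → ℂ)
    (hx : Rz H z *ᵥ x = Pi.single m 1) : x m = Gr H z m := by
  have h1 : (Rz H z)⁻¹ *ᵥ (Rz H z *ᵥ x) = x := by
    rw [Matrix.mulVec_mulVec, Matrix.nonsing_inv_mul _ (Rz_unit hH hz), Matrix.one_mulVec]
  rw [hx, Matrix.mulVec_single_one] at h1
  rw [Gr, ← h1]
  rfl

theorem exists_solve {H : Matrix ι ι ℝ} (hH : H.IsHermitian) {z : ℂ} (hz : z.im ≠ 0) (m : ι) :
    Rz H z *ᵥ ((Rz H z)⁻¹ *ᵥ Pi.single m 1) = Pi.single m 1 := by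
  rw [Matrix.mulVec_mulVec, Matrix.mul_nonsing_inv _ (Rz_unit hH hz), Matrix.one_mulVec]

theorem Gr_im_pos {H : Matrix ι ι ℝ} (hH : H.IsHermitian) {z : ℂ} (hz : 0 < z.im) (m : ι) :
    0 < (Gr H z m).im := by
  set x := (Rz H z)⁻¹ *ᵥ Pi.single m 1 with hx
  have h1 := exists_solve hH hz.ne' m
  rw [← hx] at h1
  have h2 := solve hH hz.ne' m x h1
  have h3 := herm_im hH z x
  rw [h1, dotProduct_single, mul_one, Pi.star_apply] at h3
  have h4 : (star (x m)).im = -(x m).im := Complex.conj_im _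
  rw [h4] at h3
  rw [← h2]
  have hx0 : x ≠ 0 := by
    intro h0
    rw [h0, Matrix.mulVec_zero] at h1
    have := congrFun h1 m
    simp at this
  have h5 := sum_norm_pos hx0
  have : 0 < z.im * ∑ i, ‖x i‖ ^ 2 := by positivity
  linarith

/-- rank one perturbations -/
theorem Gr_rank_one {H H' : Matrix ι ι ℝ} (hH : H.IsHermitian) (hH' : H'.IsHermitian) (m : ι)
    (t : ℝ) (h : H' = H + t • Matrix.single m m 1) {z : ℂ} (hz : 0 < z.im) :
    Gr H' z m = Gr H z m / (1 + t * Gr H z m) := by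
  set x := (Rz H z)⁻¹ *ᵥ Pi.single m 1 with hx
  have h1 := exists_solve hH hz.ne' m
  rw [← hx] at h1
  have h2 := solve hH hz.ne' m x h1
  have h3 : Rz H' z = Rz H z + (t : ℂ) • Matrix.single m m 1 := by
    rw [Rz, Rz, h]
    ext i j
    simp only [Matrix.sub_apply, Matrix.map_apply, Matrix.add_apply, Matrix.smul_apply,
      Matrix.single_apply, smul_eq_mul]
    push_cast
    split_ifs <;> simp <;> ring
  have h4 : Rz H' z *ᵥ x = (1 + t * Gr H z m) • Pi.single m (1 : ℂ) := by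
    rw [h3, Matrix.add_mulVec, h1, Matrix.smul_mulVec]
    have : (Matrix.single m m (1 : ℂ)) *ᵥ x = (x m) • Pi.single m 1 := by
      ext i
      simp only [Matrix.mulVec, dotProduct, Matrix.single_apply, Pi.smul_apply, smul_eq_mul,
        Pi.single_apply]
      by_cases hi : i = m
      · subst hi
        simp
      · simp [hi, Ne.symm hi]
    rw [this, h2, smul_smul, add_smul, one_smul]
  have hne : (1 + t * Gr H z m) ≠ 0 := by
    intro h0
    rw [h0, zero_smul] at h4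
    have h5 : x = 0 := by
      have h6 : (Rz H' z)⁻¹ *ᵥ (Rz H' z *ᵥ x) = x := by
        rw [Matrix.mulVec_mulVec, Matrix.nonsing_inv_mul _ (Rz_unit hH' hz.ne'),
          Matrix.one_mulVec]
      rw [← h6, h4, Matrix.mulVec_zero]
    rw [h5, Matrix.mulVec_zero] at h1
    have := congrFun h1 m
    simp at this
  have h5 : Rz H' z *ᵥ ((1 + t * Gr H z m)⁻¹ • x) = Pi.single m 1 := by
    rw [Matrix.mulVec_smul, h4, smul_smul, inv_mul_cancel₀ hne, one_smul]
  rw [← solve hH' hz.ne' m _ h5, Pi.smul_apply, smul_eq_mul, h2]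
  field_simp

end Pool.Agent.V11260.LP
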