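import Pool.Agent.V11260.LP.E1

set_option autoImplicit false
set_option linter.unusedSectionVars false
open MeasureTheory Matrix Filter Topology
open scoped ENNReal

namespace Pool.Agent.V11260.LP

variable {ι : Type*} [Fintype ι] [DecidableEq ι]

theorem lint_affine {η : ℝ} (hη : 0 < η) (a : ℝ) (F : ℝ → ℝ≥0∞) :
    ∫⁻ x, F x = ∫⁻ s, ENNReal.ofReal η * F (a + η * s) := by
  have h := lintegral_image_eq_lintegral_abs_deriv_mul (f := fun s : ℝ => a + η * s)
    (f' := fun _ => η) (s := Set.univ) MeasurableSet.univ (fun s _ => by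
      have : HasDerivAt (fun s : ℝ => a + η * s) η s := by
        simpa using ((hasDerivAt_id s).const_mul η).const_add a
      exact this.hasDerivWithinAt) (by
        intro y _ z _ hyz
        have h3 : a + η * y = a + η * z := hyz
        have h4 : η * y = η * z := by linarith
        exact mul_left_cancel₀ hη.ne' h4) F
  have h5 : (fun s : ℝ => a + η * s) '' Set.univ = Set.univ := by
    rw [Set.image_univ, Set.range_eq_univ]
    intro y
    exact ⟨(y - a) / η, by field_simp; ring⟩
  rw [h5, Measure.restrict_univ] at h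
  rw [h]
  simp only [abs_of_pos hη]

theorem int_cauchy : ∫⁻ s : ℝ, ENNReal.ofReal (Real.pi⁻¹ * (1 + s ^ 2)⁻¹) = 1 := by
  rw [← ofReal_integral_eq_lintegral_ofReal (integrable_inv_one_add_sq.const_mul _)
    (Filter.Eventually.of_forall fun y => by positivity), integral_const_mul,
    integral_univ_inv_one_add_sq, inv_mul_cancel₀ Real.pi_ne_zero, ENNReal.ofReal_one]

theorem int_g {g : ℂ} (hg : 0 < g.im) :
    ∫⁻ t : ℝ, ENNReal.ofReal (g / (1 + t * g)).im = ENNReal.ofReal Real.pi := by
  have hn : 0 < Complex.normSq g := Complex.normSq_pos.2 (fun h => by rw [h] at hg; simp at hg)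
  set p : ℝ := g.re / Complex.normSq g with hp
  set r : ℝ := g.im / Complex.normSq g with hr
  have hr0 : 0 < r := div_pos hg hn
  have h1 : ∀ t : ℝ, (g / (1 + t * g)).im = r / ((t + p) ^ 2 + r ^ 2) := by
    intro t
    have h2 : Complex.normSq (1 + t * g) = Complex.normSq g * ((t + p) ^ 2 + r ^ 2) := by
      rw [hp, hr]
      have h3 : Complex.normSq (1 + t * g) = 1 + 2 * t * g.re + t ^ 2 * Complex.normSq g := by
        simp only [Complex.normSq_apply, Complex.add_re, Complex.add_im, Complex.mul_re,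
          Complex.mul_im, Complex.one_re, Complex.one_im, Complex.ofReal_re, Complex.ofReal_im]
        ring
      rw [h3]
      have h4 : g.re ^ 2 + g.im ^ 2 = Complex.normSq g := by
        rw [Complex.normSq_apply]
        ring
      have h5 : Complex.normSq g * ((t + g.re / Complex.normSq g) ^ 2 +
          (g.im / Complex.normSq g) ^ 2) = Complex.normSq g * t ^ 2 + 2 * t * g.re +
          (g.re ^ 2 + g.im ^ 2) / Complex.normSq g := by
        field_simp
        ring
      rw [h5, h4, div_self hn.ne']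
      ring
    rw [Complex.div_im, h2]
    have h6 : (1 + t * g).re = 1 + t * g.re := by simp
    have h7 : (1 + t * g).im = t * g.im := by simp
    rw [h6, h7]
    have h8 : 0 < (t + p) ^ 2 + r ^ 2 := by positivity
    rw [← sub_div, div_eq_div_iff (by positivity) (by positivity)]
    rw [hr]
    field_simp
    ring
  simp only [h1]
  rw [lint_affine hr0 (-p)]
  have h2 : ∀ s : ℝ, ENNReal.ofReal r * ENNReal.ofReal (r / ((-p + r * s + p) ^ 2 + r ^ 2)) =
      ENNReal.ofReal Real.pi * ENNReal.ofReal (Real.pi⁻¹ * (1 + s ^ 2)⁻¹) := by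
    intro s
    rw [← ENNReal.ofReal_mul hr0.le, ← ENNReal.ofReal_mul Real.pi_pos.le]
    congr 1
    rw [← mul_assoc, mul_inv_cancel₀ Real.pi_ne_zero, one_mul,
      show (-p + r * s + p) ^ 2 + r ^ 2 = r ^ 2 * (1 + s ^ 2) by ring]
    field_simp
  simp only [h2]
  rw [lintegral_const_mul' _ _ ENNReal.ofReal_ne_top, int_cauchy, mul_one]

/-- averaging over the potential at one site -/
theorem avg_Gr {ε : ℝ} (hε : 0 < ε) (m : ι) (H : ℝ → Matrix ι ι ℝ) (hH : ∀ x, (H x).IsHermitian)
    (hrk : ∀ x, H x = H 0 + (ε * x) • Matrix.single m m 1) {z : ℂ} (hz : 0 < z.im) :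
    ∫⁻ x in Set.Ioc (0 : ℝ) 1, ENNReal.ofReal (Gr (H x) z m).im ≤
      ENNReal.ofReal (Real.pi / ε) := by
  set g : ℂ := ε * Gr (H 0) z m with hg
  have hg0 : 0 < g.im := by
    rw [hg, Complex.im_ofReal_mul]
    exact mul_pos hε (Gr_im_pos (hH 0) hz m)
  calc ∫⁻ x in Set.Ioc (0 : ℝ) 1, ENNReal.ofReal (Gr (H x) z m).im
      ≤ ∫⁻ x : ℝ, ENNReal.ofReal (Gr (H x) z m).im := setLIntegral_le_lintegral _ _
    _ = ∫⁻ x : ℝ, ENNReal.ofReal ε⁻¹ * ENNReal.ofReal (g / (1 + x * g)).im := by
        refine lintegral_congr fun x => ?_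
        rw [← ENNReal.ofReal_mul (by positivity)]
        congr 1
        rw [Gr_rank_one (hH 0) (hH x) m (ε * x) (hrk x) hz, hg, ← Complex.im_ofReal_mul]
        congr 1
        have : ((ε : ℝ) : ℂ) ≠ 0 := by exact_mod_cast hε.ne'
        push_cast
        rw [show (1 : ℂ) + x * (ε * Gr (H 0) z m) = 1 + ε * x * Gr (H 0) z m by ring]
        rw [← mul_div_assoc, ← mul_assoc, inv_mul_cancel₀ this, one_mul]
    _ = ENNReal.ofReal (Real.pi / ε) := by
        rw [lintegral_const_mul' _ _ ENNReal.ofReal_ne_top, int_g hg0,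
          ← ENNReal.ofReal_mul (by positivity)]
        congr 1
        ring

/-- eigenvectors -/
noncomputable def ev {H : Matrix ι ι ℝ} (hH : H.IsHermitian) (l i : ι) : ℝ :=
  (hH.eigenvectorBasis l) i

theorem ev_eq {H : Matrix ι ι ℝ} (hH : H.IsHermitian) (l i : ι) :
    ∑ j, H i j * ev hH l j = hH.eigenvalues l * ev hH l i := by
  have h := congrFun (hH.mulVec_eigenvectorBasis l) i
  simpa [Matrix.mulVec, dotProduct, ev] using h

theorem ev_row {H : Matrix ι ι ℝ} (hH : H.IsHermitian) (i j : ι) :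
    ∑ l, ev hH l i * ev hH l j = if i = j then 1 else 0 := by
  have h := hH.eigenvectorBasis.sum_inner_mul_inner (EuclideanSpace.single i (1 : ℝ))
    (EuclideanSpace.single j (1 : ℝ))
  simp only [EuclideanSpace.inner_single_left, EuclideanSpace.inner_single_right, map_one,
    one_mul, PiLp.single_apply] at h
  simpa [ev, eq_comm] using h

theorem ev_col {H : Matrix ι ι ℝ} (hH : H.IsHermitian) (l k : ι) :
    ∑ i, ev hH l i * ev hH k i = if l = k then 1 else 0 := by
  have h := (orthonormal_iff_ite.1 hH.eigenvectorBasis.orthonormal) l k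
  rw [← h]
  simp only [PiLp.inner_apply, ev, RCLike.inner_apply, conj_trivial]
  exact Finset.sum_congr rfl fun i _ => mul_comm _ _

theorem Gr_ev {H : Matrix ι ι ℝ} (hH : H.IsHermitian) {z : ℂ} (hz : z.im ≠ 0) (m : ι) :
    Gr H z m = ∑ l, (ev hH l m ^ 2 : ℂ) / (hH.eigenvalues l - z) := by
  set x : ι → ℂ := fun i => ∑ l, (ev hH l m : ℂ) / (hH.eigenvalues l - z) * ev hH l i with hx
  have hne : ∀ l, ((hH.eigenvalues l : ℝ) : ℂ) - z ≠ 0 := by
    intro l h0
    have : (((hH.eigenvalues l : ℝ) : ℂ) - z).im = 0 := by rw [h0]; simp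
    simp at this
    exact hz this
  have h1 : Rz H z *ᵥ x = Pi.single m 1 := by
    ext i
    have h2 : (Rz H z *ᵥ x) i = ∑ l, (ev hH l m : ℂ) * ev hH l i := by
      have h3 : (Rz H z *ᵥ x) i = (∑ j, (H i j : ℂ) * x j) - z * x i := by
        rw [Rz, Matrix.sub_mulVec, Matrix.smul_mulVec, Matrix.one_mulVec]
        simp only [Pi.sub_apply, Pi.smul_apply, smul_eq_mul, Matrix.mulVec, dotProduct,
          Matrix.map_apply]
      rw [h3, hx]
      simp only [Finset.mul_sum]
      rw [Finset.sum_comm, ← Finset.sum_sub_distrib]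
      refine Finset.sum_congr rfl fun l _ => ?_
      have h4 : ∑ j, (H i j : ℂ) * ((ev hH l m : ℂ) / (hH.eigenvalues l - z) * ev hH l j) =
          (ev hH l m : ℂ) / (hH.eigenvalues l - z) * (hH.eigenvalues l * ev hH l i) := by
        have h5 := ev_eq hH l i
        have h6 : (∑ j, (H i j : ℂ) * (ev hH l j : ℂ)) = (hH.eigenvalues l : ℂ) * ev hH l i := by
          exact_mod_cast h5
        rw [← h6, Finset.mul_sum]
        refine Finset.sum_congr rfl fun j _ => ?_
        ring
      rw [h4]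
      field_simp [hne l]
    rw [h2]
    have h3 := ev_row hH m i
    have h4 : (∑ l, (ev hH l m : ℂ) * ev hH l i) = ((if m = i then 1 else 0 : ℝ) : ℂ) := by
      rw [← h3]
      push_cast
      rfl
    rw [h4, Pi.single_apply]
    by_cases h : m = i
    · simp [h]
    · simp [h, Ne.symm h]
  rw [← solve hH hz m x h1, hx]
  refine Finset.sum_congr rfl fun l _ => ?_
  ring

theorem Gr_im {H : Matrix ι ι ℝ} (hH : H.IsHermitian) {η : ℝ} (hη : 0 < η) (E : ℝ) (m : ι) :
    (Gr H (E + η * Complex.I) m).im =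
      ∑ l, ev hH l m ^ 2 * (η / ((hH.eigenvalues l - E) ^ 2 + η ^ 2)) := by
  rw [Gr_ev hH (by simpa using hη.ne') m, Complex.im_sum]
  refine Finset.sum_congr rfl fun l _ => ?_
  have h1 : ((ev hH l m : ℂ) ^ 2) = ((ev hH l m ^ 2 : ℝ) : ℂ) := by push_cast; rfl
  rw [h1, Complex.div_im]
  simp only [Complex.ofReal_im, Complex.ofReal_re, Complex.sub_re, Complex.sub_im, Complex.add_re,
    Complex.add_im, Complex.mul_re, Complex.mul_im, Complex.I_re, Complex.I_im, Complex.normSq_apply]
  ring

end Pool.Agent.V11260.LP
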