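import Pool.Agent.V11260.LP.E2

set_option autoImplicit false
set_option linter.unusedSectionVars false
open MeasureTheory Matrix Filter Topology
open scoped ENNReal

namespace Pool.Agent.V11260.LP

variable {ι : Type*} [Fintype ι] [DecidableEq ι]

/-- the smoothed spectral integral of `h` at level `η` -/
noncomputable def Sm (R : ℝ) (h : ℝ → ℝ≥0∞) (η : ℝ) (H : Matrix ι ι ℝ) (m : ι) : ℝ≥0∞ :=
  ∫⁻ E in Set.Ioo (-R) R, h E * ENNReal.ofReal (Real.pi⁻¹ * (Gr H (E + η * Complex.I) m).im)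

theorem Sm_eq (R : ℝ) (h : ℝ → ℝ≥0∞) (hh : Measurable h) {η : ℝ} (hη : 0 < η) {H : Matrix ι ι ℝ}
    (hH : H.IsHermitian) (m : ι) :
    Sm R h η H m = ∫⁻ s : ℝ, ∑ l, ENNReal.ofReal (ev hH l m ^ 2) *
      ((Set.Ioo (-R) R).indicator h (hH.eigenvalues l + η * s) *
        ENNReal.ofReal (Real.pi⁻¹ * (1 + s ^ 2)⁻¹)) := by
  have hI : Measurable ((Set.Ioo (-R) R).indicator h) := hh.indicator measurableSet_Ioo
  unfold Sm
  rw [lintegral_finsetSum' _ (fun l _ => by
    refine AEMeasurable.const_mul ?_ _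
    exact ((hI.comp (by fun_prop)).mul (by fun_prop)).aemeasurable)]
  rw [← lintegral_indicator measurableSet_Ioo]
  have h1 : ∀ E : ℝ, (Set.Ioo (-R) R).indicator
      (fun E => h E * ENNReal.ofReal (Real.pi⁻¹ * (Gr H (E + η * Complex.I) m).im)) E =
      ∑ l, ENNReal.ofReal (ev hH l m ^ 2) * ((Set.Ioo (-R) R).indicator h E *
        ENNReal.ofReal (Real.pi⁻¹ * (η / ((hH.eigenvalues l - E) ^ 2 + η ^ 2)))) := by
    intro E
    by_cases hE : E ∈ Set.Ioo (-R) R
    · rw [Set.indicator_of_mem hE, Set.indicator_of_mem hE, Gr_im hH hη, Finset.mul_sum,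
        ENNReal.ofReal_sum_of_nonneg (fun l _ => by positivity), Finset.mul_sum]
      refine Finset.sum_congr rfl fun l _ => ?_
      rw [mul_left_comm, ENNReal.ofReal_mul (by positivity), mul_left_comm]
    · rw [Set.indicator_of_notMem hE, Set.indicator_of_notMem hE]
      simp
  simp only [h1]
  rw [lintegral_finsetSum' _ (fun l _ => by
    refine AEMeasurable.const_mul ?_ _
    exact (hI.mul (by fun_prop)).aemeasurable)]
  refine Finset.sum_congr rfl fun l _ => ?_
  rw [lintegral_const_mul' _ _ ENNReal.ofReal_ne_top, lintegral_const_mul' _ _ ENNReal.ofReal_ne_top]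
  congr 1
  rw [lint_affine hη (hH.eigenvalues l)]
  refine lintegral_congr fun s => ?_
  rw [mul_left_comm, ← ENNReal.ofReal_mul hη.le]
  congr 2
  rw [show (hH.eigenvalues l - (hH.eigenvalues l + η * s)) ^ 2 + η ^ 2 = η ^ 2 * (1 + s ^ 2) by ring]
  field_simp

theorem Sm_liminf (R : ℝ) (h : ℝ → ℝ) (hh : Continuous h) {H : Matrix ι ι ℝ}
    (hH : H.IsHermitian) (m : ι) (hR : ∀ l, |hH.eigenvalues l| < R) :
    ∑ l, ENNReal.ofReal (ev hH l m ^ 2) * ENNReal.ofReal (h (hH.eigenvalues l)) ≤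
      liminf (fun j : ℕ => Sm R (fun E => ENNReal.ofReal (h E)) (1 / ((j : ℝ) + 1)) H m) atTop := by
  set h' : ℝ → ℝ≥0∞ := fun E => ENNReal.ofReal (h E) with hh'
  have hm' : Measurable h' := by
    rw [hh']
    exact (ENNReal.continuous_ofReal.comp hh).measurable
  have hI : Measurable ((Set.Ioo (-R) R).indicator h') := hm'.indicator measurableSet_Ioo
  set F : ℕ → ℝ → ℝ≥0∞ := fun j s => ∑ l, ENNReal.ofReal (ev hH l m ^ 2) *
      ((Set.Ioo (-R) R).indicator h' (hH.eigenvalues l + 1 / ((j : ℝ) + 1) * s) *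
        ENNReal.ofReal (Real.pi⁻¹ * (1 + s ^ 2)⁻¹)) with hF
  have h1 : ∀ j : ℕ, Sm R h' (1 / ((j : ℝ) + 1)) H m = ∫⁻ s, F j s := fun j =>
    Sm_eq R h' hm' (by positivity) hH m
  simp only [h1]
  have hFm : ∀ j, Measurable (F j) := by
    intro j
    refine Finset.measurable_sum _ fun l _ => ?_
    refine Measurable.const_mul ?_ _
    exact (hI.comp (by fun_prop)).mul (by fun_prop)
  refine le_trans ?_ (lintegral_liminf_le hFm)
  have h2 : ∀ s : ℝ, liminf (fun j => F j s) atTop = ∑ l, ENNReal.ofReal (ev hH l m ^ 2) *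
      (h' (hH.eigenvalues l) * ENNReal.ofReal (Real.pi⁻¹ * (1 + s ^ 2)⁻¹)) := by
    intro s
    apply Tendsto.liminf_eq
    refine tendsto_finsetSum _ fun l _ => ?_
    refine ENNReal.Tendsto.const_mul ?_ (Or.inr ENNReal.ofReal_ne_top)
    refine ENNReal.Tendsto.mul_const ?_ (Or.inr ENNReal.ofReal_ne_top)
    have h3 : Tendsto (fun j : ℕ => hH.eigenvalues l + 1 / ((j : ℝ) + 1) * s) atTop
        (𝓝 (hH.eigenvalues l)) := by
      have := (tendsto_one_div_add_atTop_nhds_zero_nat (𝕜 := ℝ)).mul_const s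
      rw [zero_mul] at this
      simpa using this.const_add (hH.eigenvalues l)
    have h4 : Tendsto (fun j : ℕ => h' (hH.eigenvalues l + 1 / ((j : ℝ) + 1) * s)) atTop
        (𝓝 (h' (hH.eigenvalues l))) :=
      ((ENNReal.continuous_ofReal.comp hh).tendsto _).comp h3
    refine h4.congr' ?_
    have h5 : Set.Ioo (-R) R ∈ 𝓝 (hH.eigenvalues l) :=
      isOpen_Ioo.mem_nhds (abs_lt.1 (hR l))
    filter_upwards [h3 h5] with j hj
    have hj' : hH.eigenvalues l + 1 / ((j : ℝ) + 1) * s ∈ Set.Ioo (-R) R := hj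
    exact (Set.indicator_of_mem hj' h').symm
  simp only [h2]
  rw [lintegral_finsetSum' _ (fun l _ => by fun_prop)]
  refine Finset.sum_le_sum fun l _ => ?_
  rw [lintegral_const_mul' _ _ ENNReal.ofReal_ne_top,
    lintegral_const_mul' _ _ ENNReal.ofReal_ne_top, int_cauchy, mul_one]

end Pool.Agent.V11260.LP
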