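import Pool.Agent.V11260.LP.F1

set_option autoImplicit false
set_option linter.unusedSectionVars false
open MeasureTheory Matrix Filter Topology
open scoped ENNReal

namespace Pool.Agent.V11260.LP

/-- resampling of the potential at the site `j` -/
noncomputable def Rs (b : ℤ → ℝ) (ε : ℝ) (j : ℤ) (G : (ℤ → ℝ) → ℝ≥0∞) (V : ℤ → ℝ) : ℝ≥0∞ :=
  ∫⁻ x in Set.Ioc (0 : ℝ) 1, G (Function.update V j (b j + ε * x))

/-- resampling at `s`, `s + 1`, ..., `s + k - 1` -/
noncomputable def It (b : ℤ → ℝ) (ε : ℝ) (s : ℤ) : ℕ → ((ℤ → ℝ) → ℝ≥0∞) → (ℤ → ℝ) → ℝ≥0∞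
  | 0 => fun G => G
  | (k + 1) => fun G => Rs b ε (s + k) (It b ε s k G)

theorem Rs_mono (b : ℤ → ℝ) (ε : ℝ) (j : ℤ) {G G' : (ℤ → ℝ) → ℝ≥0∞} (h : ∀ V, G V ≤ G' V)
    (V : ℤ → ℝ) : Rs b ε j G V ≤ Rs b ε j G' V := lintegral_mono fun _ => h _

theorem It_mono (b : ℤ → ℝ) (ε : ℝ) (s : ℤ) (k : ℕ) {G G' : (ℤ → ℝ) → ℝ≥0∞}
    (h : ∀ V, G V ≤ G' V) (V : ℤ → ℝ) : It b ε s k G V ≤ It b ε s k G' V := by
  induction k generalizing V with
  | zero => exact h V
  | succ k ih => exact Rs_mono b ε _ ih V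

theorem It_shift (b : ℤ → ℝ) (ε : ℝ) (s : ℤ) (k : ℕ) (G : (ℤ → ℝ) → ℝ≥0∞) (V : ℤ → ℝ) :
    It b ε s (k + 1) G V = It b ε (s + 1) k (Rs b ε s G) V := by
  induction k generalizing V with
  | zero => simp [It]
  | succ k ih =>
    have h1 : It b ε s (k + 1 + 1) G V = Rs b ε (s + (k + 1 : ℕ)) (It b ε s (k + 1) G) V := rfl
    have h2 : It b ε (s + 1) (k + 1) (Rs b ε s G) V =
        Rs b ε (s + 1 + k) (It b ε (s + 1) k (Rs b ε s G)) V := rfl
    rw [h1, h2, show s + ((k + 1 : ℕ) : ℤ) = s + 1 + k by push_cast; ring]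
    unfold Rs
    exact lintegral_congr fun x => ih _

theorem It_const_mul (b : ℤ → ℝ) (ε : ℝ) (s : ℤ) (k : ℕ) (c : ℝ≥0∞) (hc : c ≠ ⊤)
    (G : (ℤ → ℝ) → ℝ≥0∞) (V : ℤ → ℝ) :
    It b ε s k (fun V => c * G V) V = c * It b ε s k G V := by
  induction k generalizing V with
  | zero => rfl
  | succ k ih =>
    have h1 : It b ε s (k + 1) (fun V => c * G V) V =
      Rs b ε (s + k) (It b ε s k (fun V => c * G V)) V := rfl
    have h2 : It b ε s (k + 1) G V = Rs b ε (s + k) (It b ε s k G) V := rfl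
    rw [h1, h2]
    unfold Rs
    rw [← lintegral_const_mul' _ _ hc]
    exact lintegral_congr fun x => ih _

/-- measurability and Tonelli -/
theorem It_int (b : ℤ → ℝ) (ε : ℝ) (s : ℤ) (k : ℕ) (μ : Measure ℝ) [SFinite μ]
    (G : ℝ → (ℤ → ℝ) → ℝ≥0∞) (hG : Measurable (Function.uncurry G)) :
    Measurable (Function.uncurry fun E V => It b ε s k (G E) V) ∧
    ∀ V, It b ε s k (fun V => ∫⁻ E, G E V ∂μ) V = ∫⁻ E, It b ε s k (G E) V ∂μ := by
  induction k with
  | zero => exact ⟨hG, fun V => rfl⟩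
  | succ k ih =>
    obtain ⟨h1, h2⟩ := ih
    have hupd : Measurable fun p : (ℝ × (ℤ → ℝ)) × ℝ =>
        (p.1.1, Function.update p.1.2 (s + k) (b (s + k) + ε * p.2)) := by
      refine Measurable.prodMk (by fun_prop) ?_
      rw [measurable_pi_iff]
      intro i
      by_cases hi : i = s + k
      · subst hi
        simp only [Function.update_self]
        fun_prop
      · simp only [Function.update_of_ne hi]
        fun_prop
    have h3 : Measurable fun p : (ℝ × (ℤ → ℝ)) × ℝ =>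
        It b ε s k (G p.1.1) (Function.update p.1.2 (s + k) (b (s + k) + ε * p.2)) :=
      h1.comp hupd
    refine ⟨?_, fun V => ?_⟩
    · have h4 : (Function.uncurry fun E V => It b ε s (k + 1) (G E) V) = fun p : ℝ × (ℤ → ℝ) =>
          ∫⁻ x in Set.Ioc (0 : ℝ) 1,
            It b ε s k (G p.1) (Function.update p.2 (s + k) (b (s + k) + ε * x)) := rfl
      rw [h4]
      exact h3.lintegral_prod_right'
    · have h4 : It b ε s (k + 1) (fun V => ∫⁻ E, G E V ∂μ) V =
          ∫⁻ x in Set.Ioc (0 : ℝ) 1, It b ε s k (fun V => ∫⁻ E, G E V ∂μ)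
            (Function.update V (s + k) (b (s + k) + ε * x)) := rfl
      rw [h4]
      simp only [h2]
      rw [lintegral_lintegral_swap]
      · rfl
      · have h5 : Measurable fun p : ℝ × ℝ => ((p.2, V), p.1) := by fun_prop
        exact (h3.comp h5).aemeasurable

theorem Us_congr (L : ℕ) {V V' : ℤ → ℝ} (E : ℝ) (j : ℕ)
    (h : ∀ x : ℤ, (L : ℤ) - j < x → V x = V' x) : Us L V E j = Us L V' E j := by
  induction j with
  | zero => rfl
  | succ j ih =>
    have h1 := ih fun x hx => h x (by push_cast; omega)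
    simp only [Us]
    rw [h1, h ((L : ℤ) - j) (by push_cast; omega)]

theorem Us_update (L : ℕ) (V : ℤ → ℝ) (E : ℝ) (j : ℕ) (s : ℤ) (hs : s ≤ (L : ℤ) - j) (v : ℝ) :
    Us L (Function.update V s v) E j = Us L V E j := by
  refine Us_congr L E j fun x hx => ?_
  rw [Function.update_of_ne (by omega)]

/-- the transfer matrix estimate, iterated -/
theorem It_FF (L : ℕ) (b : ℤ → ℝ) (ε E : ℝ) (J : ℕ) (k : ℕ) (hk : k ≤ J) (V : ℤ → ℝ) :
    It b ε ((L : ℤ) - J + 1) k
      (fun V => ENNReal.ofReal (nm (Us L V E J).1 (Us L V E J).2)⁻¹) V =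
    FF ε (fun i => E - b ((L : ℤ) - J + 1 + i)) k (Us L V E (J - k)).1 (Us L V E (J - k)).2 := by
  induction k generalizing V with
  | zero => rfl
  | succ k ih =>
    have h1 : It b ε ((L : ℤ) - J + 1) (k + 1)
      (fun V => ENNReal.ofReal (nm (Us L V E J).1 (Us L V E J).2)⁻¹) V =
      ∫⁻ x in Set.Ioc (0 : ℝ) 1, It b ε ((L : ℤ) - J + 1) k
        (fun V => ENNReal.ofReal (nm (Us L V E J).1 (Us L V E J).2)⁻¹)
        (Function.update V ((L : ℤ) - J + 1 + k) (b ((L : ℤ) - J + 1 + k) + ε * x)) := rfl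
    rw [h1]
    simp only [FF]
    refine lintegral_congr fun x => ?_
    rw [ih (by omega)]
    obtain ⟨i, hi⟩ : ∃ i, J - k = i + 1 := ⟨J - (k + 1), by omega⟩
    have hi2 : J - (k + 1) = i := by omega
    rw [hi, hi2]
    have hs : (L : ℤ) - J + 1 + k = (L : ℤ) - i := by omega
    simp only [Us]
    rw [hs, Us_update L V E i _ le_rfl, Function.update_self]
    congr 1
    ring

end Pool.Agent.V11260.LP
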