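import Pool.Agent.V11260.LP.F2

set_option autoImplicit false
set_option linter.unusedSectionVars false
open MeasureTheory Matrix Filter Topology
open scoped ENNReal

namespace Pool.Agent.V11260.LP

theorem Us_cont (L : ℕ) (j : ℕ) : Continuous fun p : ℝ × (ℤ → ℝ) => Us L p.2 p.1 j := by
  induction j with
  | zero => exact continuous_const
  | succ j ih =>
    simp only [Us]
    have h1 : Continuous fun p : ℝ × (ℤ → ℝ) => (Us L p.2 p.1 j).1 := continuous_fst.comp ih
    have h2 : Continuous fun p : ℝ × (ℤ → ℝ) => (Us L p.2 p.1 j).2 := continuous_snd.comp ih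
    have h3 : Continuous fun p : ℝ × (ℤ → ℝ) => p.2 ((L : ℤ) - j) :=
      (continuous_apply _).comp continuous_snd
    exact (((continuous_fst.sub h3).mul h1).sub h2).prodMk h1

theorem nmUs_cont (L : ℕ) (j : ℕ) :
    Continuous fun p : ℝ × (ℤ → ℝ) => nm (Us L p.2 p.1 j).1 (Us L p.2 p.1 j).2 :=
  nm_cont.comp (Us_cont L j)

theorem rat_cont (L : ℕ) (j k : ℕ) : Continuous fun p : ℝ × (ℤ → ℝ) => rat L p.2 j k p.1 := by
  unfold rat
  exact (nmUs_cont L j).mul ((nmUs_cont L (j + k)).inv₀ fun p => (nm_pos (Us_ne L p.2 p.1 _)).ne')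

theorem Rz_cont (L : ℕ) (η : ℝ) :
    Continuous fun p : ℝ × (ℤ → ℝ) => Rz (HL L p.2) (p.1 + η * Complex.I) := by
  refine continuous_matrix fun i j => ?_
  simp only [Rz, HL, Matrix.sub_apply, Matrix.map_apply, Matrix.smul_apply, smul_eq_mul]
  have h3 : Continuous fun p : ℝ × (ℤ → ℝ) => p.2 (i : ℤ) :=
    (continuous_apply _).comp continuous_snd
  refine Continuous.sub ?_ (by fun_prop)
  refine Complex.continuous_ofReal.comp ?_
  refine Continuous.add (by fun_prop) ?_
  split_ifs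
  · exact h3
  · exact continuous_const

theorem Gr_meas (L : ℕ) (η : ℝ) (m : Win L) :
    Measurable fun p : ℝ × (ℤ → ℝ) => (Gr (HL L p.2) (p.1 + η * Complex.I) m).im := by
  refine Complex.measurable_im.comp ?_
  have h : ∀ p : ℝ × (ℤ → ℝ), Gr (HL L p.2) (p.1 + η * Complex.I) m =
      (Rz (HL L p.2) (p.1 + η * Complex.I)).det⁻¹ *
        (Rz (HL L p.2) (p.1 + η * Complex.I)).adjugate m m := by
    intro p
    rw [Gr, Matrix.inv_def, Matrix.smul_apply, Ring.inverse_eq_inv', smul_eq_mul]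
  simp only [h]
  have h1 := (Rz_cont L η).matrix_det
  have h2 := (Rz_cont L η).matrix_adjugate
  have h3 : Continuous fun p : ℝ × (ℤ → ℝ) =>
      (Rz (HL L p.2) (p.1 + η * Complex.I)).adjugate m m :=
    (continuous_apply m).comp ((continuous_apply m).comp h2)
  exact h1.measurable.inv.mul h3.measurable

/-- measurable majorant of `∑_l φ_l(m)² φ_l(n)²`, `n = L - j`, `m = n - k` -/
noncomputable def Cn (R : ℝ) (L j k : ℕ) (m : Win L) (V : ℤ → ℝ) : ℝ≥0∞ :=
  liminf (fun i : ℕ => Sm R (fun E => ENNReal.ofReal (rat L V j k E)) (1 / ((i : ℝ) + 1))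
    (HL L V) m) atTop

theorem SmV_meas2 (L j k : ℕ) (m : Win L) (η : ℝ) :
    Measurable fun p : ℝ × (ℤ → ℝ) => ENNReal.ofReal (rat L p.2 j k p.1) *
      ENNReal.ofReal (Real.pi⁻¹ * (Gr (HL L p.2) (p.1 + η * Complex.I) m).im) :=
  ((rat_cont L j k).measurable.ennreal_ofReal).mul
    (((Gr_meas L η m).const_mul _).ennreal_ofReal)

theorem SmV_meas (R : ℝ) (L j k : ℕ) (m : Win L) (η : ℝ) :
    Measurable fun V => Sm R (fun E => ENNReal.ofReal (rat L V j k E)) η (HL L V) m := by
  unfold Sm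
  have h := SmV_meas2 L j k m η
  have h2 : Measurable fun p : (ℤ → ℝ) × ℝ => ENNReal.ofReal (rat L p.1 j k p.2) *
      ENNReal.ofReal (Real.pi⁻¹ * (Gr (HL L p.1) (p.2 + η * Complex.I) m).im) :=
    h.comp (measurable_snd.prodMk measurable_fst)
  exact h2.lintegral_prod_right'

theorem Cn_meas (R : ℝ) (L j k : ℕ) (m : Win L) : Measurable (Cn R L j k m) := by
  unfold Cn
  exact Measurable.liminf fun i => SmV_meas R L j k m _

theorem ph_le_Cn {K R : ℝ} (hR : K + 2 < R) (L j k : ℕ) (hjk : j + k ≤ 2 * L) (V : ℤ → ℝ)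
    (hV : ∀ x, |V x| ≤ K) (m : Win L) :
    ∑ l, ENNReal.ofReal (ph L V l m ^ 2) * ENNReal.ofReal (ph L V l ((L : ℤ) - j) ^ 2) ≤
      Cn R L j k m V := by
  refine le_trans ?_ (Sm_liminf R (fun E => rat L V j k E)
    ((rat_cont L j k).comp (by fun_prop : Continuous fun E : ℝ => (E, V))) (HL_herm L V) m
    (fun l => lt_of_le_of_lt (eE_bound L V hV l) hR))
  refine Finset.sum_le_sum fun l _ => ?_
  have h1 : ph L V l m = ev (HL_herm L V) l m := by rw [ph, ext_in]
  rw [h1]
  gcongr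
  exact ph_le_rat L V l j k (by omega)

theorem It_mul_inv (b : ℤ → ℝ) (ε : ℝ) (s : ℤ) (k : ℕ) (c : (ℤ → ℝ) → ℝ≥0∞)
    (hc : ∀ V, c V ≠ ⊤) (hinv : ∀ V v, ∀ i < k, c (Function.update V (s + (i : ℕ)) v) = c V)
    (G : (ℤ → ℝ) → ℝ≥0∞) (V : ℤ → ℝ) :
    It b ε s k (fun V => c V * G V) V = c V * It b ε s k G V := by
  induction k generalizing V with
  | zero => rfl
  | succ k ih =>
    have h1 : It b ε s (k + 1) (fun V => c V * G V) V =
      Rs b ε (s + k) (It b ε s k (fun V => c V * G V)) V := rfl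
    have h2 : It b ε s (k + 1) G V = Rs b ε (s + k) (It b ε s k G) V := rfl
    rw [h1, h2]
    unfold Rs
    rw [← lintegral_const_mul' _ _ (hc V)]
    refine lintegral_congr fun x => ?_
    rw [ih (fun V v i hi => hinv V v i (by omega)), hinv V _ k (by omega)]

/-- first resampling: averaging over the potential at the site `m` -/
theorem Rs_Cn {ε : ℝ} (hε : 0 < ε) (R : ℝ) (L j k : ℕ) (m : Win L) (hm : (m : ℤ) = (L : ℤ) - (j + k : ℕ))
    (b V : ℤ → ℝ) :
    Rs b ε m (Cn R L j k m) V ≤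
      ENNReal.ofReal ε⁻¹ * ∫⁻ E in Set.Ioo (-R) R, ENNReal.ofReal (rat L V j k E) := by
  unfold Rs Cn
  have hupd : Measurable fun x : ℝ => Function.update V (m : ℤ) (b m + ε * x) := by
    rw [measurable_pi_iff]
    intro i
    by_cases hi : i = (m : ℤ)
    · subst hi
      simp only [Function.update_self]
      fun_prop
    · simp only [Function.update_of_ne hi]
      fun_prop
  refine (lintegral_liminf_le fun i => (SmV_meas R L j k m _).comp hupd).trans ?_
  refine liminf_le_of_frequently_le' (Frequently.of_forall fun i => ?_)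
  set η : ℝ := 1 / ((i : ℝ) + 1) with hη
  have hη0 : 0 < η := by positivity
  have hrat : ∀ x E, rat L (Function.update V (m : ℤ) (b m + ε * x)) j k E = rat L V j k E := by
    intro x E
    unfold rat
    rw [Us_update L V E j _ (by omega), Us_update L V E (j + k) _ (by omega)]
  unfold Sm
  simp only [Function.comp_apply, hrat]
  rw [lintegral_lintegral_swap]
  · rw [← lintegral_const_mul' _ _ ENNReal.ofReal_ne_top]
    refine lintegral_mono fun E => ?_
    rw [lintegral_const_mul' _ _ ENNReal.ofReal_ne_top, mul_comm]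
    gcongr
    have h1 := avg_Gr hε m (fun x => HL L (Function.update V (m : ℤ) (b m + ε * x)))
      (fun x => HL_herm L _) (fun x => by
        ext i' j'
        simp only [HL, Matrix.add_apply, Matrix.smul_apply, Matrix.single_apply, smul_eq_mul]
        by_cases h1 : i' = j'
        · subst h1
          by_cases h2 : i' = m
          · subst h2
            simp
            ring
          · have h3 : (i' : ℤ) ≠ m := fun hc => h2 (Subtype.ext hc)
            simp [Function.update_of_ne h3, Ne.symm h2]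
        · have h4 : ¬ (m = i' ∧ m = j') := fun hc => h1 (hc.1.symm.trans hc.2)
          simp [h1, h4]) (z := E + η * Complex.I) (by simpa using hη0)
    have h2 : ∀ x : ℝ, ENNReal.ofReal (Real.pi⁻¹ *
        (Gr (HL L (Function.update V (m : ℤ) (b m + ε * x))) (E + η * Complex.I) m).im) =
        ENNReal.ofReal Real.pi⁻¹ * ENNReal.ofReal
          (Gr (HL L (Function.update V (m : ℤ) (b m + ε * x))) (E + η * Complex.I) m).im :=
      fun x => ENNReal.ofReal_mul (by positivity)
    simp only [h2]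
    rw [lintegral_const_mul' _ _ ENNReal.ofReal_ne_top]
    calc _ ≤ ENNReal.ofReal Real.pi⁻¹ * ENNReal.ofReal (Real.pi / ε) := by gcongr
      _ = ENNReal.ofReal ε⁻¹ := by
          rw [← ENNReal.ofReal_mul (by positivity)]
          congr 1
          field_simp
  · refine Measurable.aemeasurable ?_
    have h1 := SmV_meas2 L j k m η
    have h2 : Measurable fun p : ℝ × ℝ => ((p.2, Function.update V (m : ℤ) (b m + ε * p.1)) :
        ℝ × (ℤ → ℝ)) := measurable_snd.prodMk (hupd.comp measurable_fst)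
    have h3 := h1.comp h2
    simp only [Function.comp_def, hrat] at h3
    exact h3

/-- **the localization estimate** (Kunz, Souillard) -/
theorem KS {ε : ℝ} (hε : 0 < ε) (hε1 : ε ≤ 1) (K R : ℝ) (hK : 0 ≤ K) (hR : 0 < R) :
    ∃ C σ : ℝ, 0 < C ∧ 0 < σ ∧ σ < 1 ∧ ∀ (L j k : ℕ) (m : Win L),
      (m : ℤ) = (L : ℤ) - (j + (k + 2) : ℕ) → ∀ (b V : ℤ → ℝ), (∀ x, |b x| ≤ K) →
      It b ε m (k + 3) (Cn R L j (k + 2) m) V ≤ ENNReal.ofReal (C * σ ^ k) := by
  obtain ⟨C, σ, hC, hσ, hσ1, H⟩ := FF_bound hε hε1 (R + K) (by positivity)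
  refine ⟨ε⁻¹ * (2 * R) * C, σ, by positivity, hσ, hσ1, ?_⟩
  intro L j k m hm b V hb
  rw [It_shift]
  refine (It_mono b ε _ _ (fun V => Rs_Cn hε R L j (k + 2) m hm b V) V).trans ?_
  rw [It_const_mul _ _ _ _ _ ENNReal.ofReal_ne_top,
    (It_int b ε (m + 1) (k + 2) (volume.restrict (Set.Ioo (-R) R))
      (fun E V => ENNReal.ofReal (rat L V j (k + 2) E))
      ((rat_cont L j (k + 2)).measurable.ennreal_ofReal)).2 V]
  have h1 : ∀ E ∈ Set.Ioo (-R) R, It b ε (m + 1) (k + 2)
      (fun V => ENNReal.ofReal (rat L V j (k + 2) E)) V ≤ ENNReal.ofReal (C * σ ^ k) := by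
    intro E hE
    have e1 : (fun V : ℤ → ℝ => ENNReal.ofReal (rat L V j (k + 2) E)) = fun V =>
        ENNReal.ofReal (nm (Us L V E j).1 (Us L V E j).2) *
        ENNReal.ofReal (nm (Us L V E (j + (k + 2))).1 (Us L V E (j + (k + 2))).2)⁻¹ := by
      funext V
      rw [rat]
      exact ENNReal.ofReal_mul (Real.sqrt_nonneg _)
    rw [e1, It_mul_inv b ε (m + 1) (k + 2)
      (fun V => ENNReal.ofReal (nm (Us L V E j).1 (Us L V E j).2)) (fun V => ENNReal.ofReal_ne_top)
      (fun V v i hi => by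
        rw [Us_update L V E j _ (by omega)])]
    have e2 : (m : ℤ) + 1 = (L : ℤ) - (j + (k + 2) : ℕ) + 1 := by rw [hm]
    rw [e2, It_FF L b ε E (j + (k + 2)) (k + 2) (by omega) V]
    have e3 : j + (k + 2) - (k + 2) = j := by omega
    rw [e3]
    have hn := nm_pos (Us_ne L V E j)
    have h2 := H (fun i => E - b ((L : ℤ) - (j + (k + 2) : ℕ) + 1 + i)) (fun i => by
      have h3 : |E| ≤ R := (abs_lt.2 hE).le
      calc |E - b ((L : ℤ) - (j + (k + 2) : ℕ) + 1 + i)| ≤ |E| + |b _| := abs_sub _ _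
        _ ≤ R + K := add_le_add h3 (hb _)) k _ _ (Us_ne L V E j)
    calc _ ≤ ENNReal.ofReal (nm (Us L V E j).1 (Us L V E j).2) *
          ENNReal.ofReal (C * σ ^ k * (nm (Us L V E j).1 (Us L V E j).2)⁻¹) := by gcongr
      _ = ENNReal.ofReal (C * σ ^ k) := by
          rw [← ENNReal.ofReal_mul hn.le]
          congr 1
          field_simp
  calc ENNReal.ofReal ε⁻¹ * ∫⁻ E in Set.Ioo (-R) R, It b ε (m + 1) (k + 2)
        (fun V => ENNReal.ofReal (rat L V j (k + 2) E)) V
      ≤ ENNReal.ofReal ε⁻¹ * ∫⁻ E in Set.Ioo (-R) R, ENNReal.ofReal (C * σ ^ k) := by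
        exact mul_le_mul' le_rfl (setLIntegral_mono' measurableSet_Ioo h1)
    _ = ENNReal.ofReal (ε⁻¹ * (2 * R) * C * σ ^ k) := by
        rw [setLIntegral_const, Real.volume_Ioo, ← ENNReal.ofReal_mul (by positivity),
          ← ENNReal.ofReal_mul (by positivity)]
        congr 1
        ring

end Pool.Agent.V11260.LP
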