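import Mathlib

set_option autoImplicit false
set_option linter.unusedSectionVars false
open Filter Topology MeasureTheory
open scoped ENNReal unitInterval

namespace Pool.Agent.V11260.LP

/-- the space of disorder -/
abbrev XX := ℕ × ℤ → unitInterval

/-- i.i.d. uniform variables -/
noncomputable def PP : Measure XX := Measure.infinitePi (fun _ : ℕ × ℤ => (volume : Measure unitInterval))

instance : IsProbabilityMeasure PP := by unfold PP; infer_instance

theorem perm_ext (N : ℕ) (f : ℤ → ℤ) (hf : Set.InjOn f (Finset.Icc (-(N : ℤ)) N : Finset ℤ)) :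
    ∃ g : Equiv.Perm ℤ, ∀ n ∈ Finset.Icc (-(N : ℤ)) N, f n = g n := by
  obtain ⟨g, hg⟩ := Equiv.Perm.exists_extending_pair
    (fun i : (Finset.Icc (-(N : ℤ)) N : Finset ℤ) => (i : ℤ))
    (fun i : (Finset.Icc (-(N : ℤ)) N : Finset ℤ) => f i) Subtype.val_injective
    (fun i j h => Subtype.ext (hf i.2 j.2 h))
  exact ⟨g, fun n hn => (hg ⟨n, hn⟩).symm⟩

theorem PP_perm (g : Equiv.Perm (ℕ × ℤ)) : MeasurePreserving (fun x : XX => x ∘ g) PP PP := by
  refine ⟨by fun_prop, ?_⟩
  unfold PP
  refine Measure.eq_infinitePi _ fun s t ht => ?_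
  rw [Measure.map_apply (by fun_prop) (MeasurableSet.pi s.countable_toSet fun i _ => ht i)]
  have h1 : (fun x : XX => x ∘ g) ⁻¹' (Set.pi s t) = Set.pi (s.map g.toEmbedding : Finset _)
      (fun j => t (g.symm j)) := by
    ext x
    simp only [Set.mem_preimage, Set.mem_pi, Finset.mem_coe, Finset.mem_map_equiv,
      Function.comp_apply]
    constructor
    · intro h j hj
      have := h _ hj
      rwa [g.apply_symm_apply] at this
    · intro h i hi
      have := h (g i) (by rwa [g.symm_apply_apply])
      rwa [g.symm_apply_apply] at this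
  rw [h1, Measure.infinitePi_pi _ (fun i _ => ht _), Finset.prod_map]
  simp

end Pool.Agent.V11260.LP
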