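import Pool.Agent.V11260.LP.G1
import Pool.Agent.V11260.LP.F2

set_option autoImplicit false
set_option linter.unusedSectionVars false
open Filter Topology MeasureTheory
open scoped ENNReal unitInterval

namespace Pool.Agent.V11260.LP

theorem PP_resample (c : ℕ × ℤ) :
    MeasurePreserving (fun p : XX × unitInterval => Function.update p.1 c p.2)
      (PP.prod volume) PP := by
  classical
  have hm : Measurable (fun p : XX × unitInterval => Function.update p.1 c p.2) := by
    rw [measurable_pi_iff]
    intro i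
    by_cases hi : i = c
    · subst hi
      simp only [Function.update_self]
      fun_prop
    · simp only [Function.update_of_ne hi]
      fun_prop
  refine ⟨hm, ?_⟩
  unfold PP
  refine Measure.eq_infinitePi _ fun s t ht => ?_
  rw [Measure.map_apply hm (MeasurableSet.pi s.countable_toSet fun i _ => ht i)]
  by_cases hc : c ∈ s
  · have h1 : (fun p : XX × unitInterval => Function.update p.1 c p.2) ⁻¹' (Set.pi s t) =
        (Set.pi (s.erase c : Finset _) t) ×ˢ t c := by
      ext p
      simp only [Set.mem_preimage, Set.mem_pi, Finset.mem_coe, Set.mem_prod, Finset.mem_erase]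
      constructor
      · intro h
        refine ⟨fun i hi => ?_, ?_⟩
        · have := h i hi.2
          rwa [Function.update_of_ne hi.1] at this
        · have := h c hc
          rwa [Function.update_self] at this
      · rintro ⟨h, h'⟩ i hi
        by_cases hic : i = c
        · subst hic
          rwa [Function.update_self]
        · rw [Function.update_of_ne hic]
          exact h i ⟨hic, hi⟩
    rw [h1, Measure.prod_prod, Measure.infinitePi_pi _ (fun i _ => ht _),
      ← Finset.prod_erase_mul s _ hc]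
  · have h1 : (fun p : XX × unitInterval => Function.update p.1 c p.2) ⁻¹' (Set.pi s t) =
        (Set.pi s t) ×ˢ Set.univ := by
      ext p
      simp only [Set.mem_preimage, Set.mem_pi, Finset.mem_coe, Set.mem_prod, Set.mem_univ, and_true]
      refine forall₂_congr fun i hi => ?_
      have hic : i ≠ c := fun h => hc (h ▸ hi)
      rw [Function.update_of_ne hic]
    rw [h1, Measure.prod_prod, Measure.infinitePi_pi _ (fun i _ => ht _), measure_univ, mul_one]

theorem lint_I (f : ℝ → ℝ≥0∞) : ∫⁻ t : unitInterval, f t = ∫⁻ t in Set.Ioc (0 : ℝ) 1, f t := by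
  have h := lintegral_subtype_comap (μ := (volume : Measure ℝ)) (s := Set.Icc (0 : ℝ) 1)
    measurableSet_Icc f
  rw [Measure.restrict_congr_set Ioc_ae_eq_Icc, ← h]
  rfl

/-- the amplitudes -/
noncomputable def am (ε : ℝ) (i : ℕ) : ℝ := ε * (1 / 2) ^ (i + 1)

theorem am_sum (ε : ℝ) : HasSum (am ε) ε := by
  have h := hasSum_geometric_two.mul_left (ε / 2)
  rw [div_mul_cancel₀ ε (two_ne_zero)] at h
  have e1 : am ε = fun n : ℕ => ε / 2 * (1 / 2) ^ n := by
    funext n
    unfold am
    ring
  rw [e1]
  exact h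

theorem am_pos {ε : ℝ} (hε : 0 < ε) (i : ℕ) : 0 < am ε i := by unfold am; positivity

/-- random potentials -/
noncomputable def Vc (ε : ℝ) (u : ℤ → ℝ) (c : ℕ → ℤ → ℤ) (x : XX) (n : ℤ) : ℝ :=
  u n + ∑' i, am ε i * (x (i, c i n) : ℝ)

theorem Vc_summable {ε : ℝ} (hε : 0 < ε) (c : ℕ → ℤ → ℤ) (x : XX) (n : ℤ) :
    Summable fun i => am ε i * (x (i, c i n) : ℝ) := by
  refine Summable.of_nonneg_of_le (fun i => mul_nonneg (am_pos hε i).le (x _).2.1)
    (fun i => mul_le_of_le_one_right (am_pos hε i).le (x _).2.2) (am_sum ε).summable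

theorem Vc_bound {ε : ℝ} (hε : 0 < ε) (u : ℤ → ℝ) (c : ℕ → ℤ → ℤ) (x : XX) (n : ℤ) :
    |Vc ε u c x n| ≤ |u n| + ε := by
  unfold Vc
  refine (abs_add_le _ _).trans (add_le_add le_rfl ?_)
  rw [abs_of_nonneg (tsum_nonneg fun i => mul_nonneg (am_pos hε i).le (x _).2.1)]
  have h := (Vc_summable hε c x n).tsum_le_tsum
    (fun i => mul_le_of_le_one_right (am_pos hε i).le (x _).2.2) (am_sum ε).summable
  rwa [(am_sum ε).tsum_eq] at h

theorem Vc_cont {ε : ℝ} (hε : 0 < ε) {Y : Type} [TopologicalSpace Y] (u : Y → ℝ)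
    (hu : Continuous u) (w : ℕ → Y → unitInterval) (hw : ∀ i, Continuous (w i)) :
    Continuous fun y => u y + ∑' i, am ε i * (w i y : ℝ) := by
  refine hu.add (continuous_tsum (u := am ε) (fun i => ?_) (am_sum ε).summable fun i y => ?_)
  · have := hw i
    fun_prop
  · rw [Real.norm_eq_abs, abs_of_nonneg (mul_nonneg (am_pos hε i).le (w i y).2.1)]
    exact mul_le_of_le_one_right (am_pos hε i).le (w i y).2.2

theorem Vc_cont_x {ε : ℝ} (hε : 0 < ε) (u : ℤ → ℝ) (c : ℕ → ℤ → ℤ) :
    Continuous fun x : XX => Vc ε u c x := by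
  refine continuous_pi fun n => ?_
  exact Vc_cont hε (fun _ : XX => u n) continuous_const (fun i x => x (i, c i n))
    (fun i => continuous_apply _)

/-- the part of the potential which is not resampled -/
noncomputable def bb (ε : ℝ) (u : ℤ → ℝ) (c : ℕ → ℤ → ℤ) (j : ℕ) (x : XX) (n : ℤ) : ℝ :=
  Vc ε u c x n - am ε j * (x (j, n) : ℝ)

theorem Vc_update {ε : ℝ} (hε : 0 < ε) (u : ℤ → ℝ) (c : ℕ → ℤ → ℤ) (j : ℕ)
    (hj : ∀ n, c j n = n) (x : XX) (s : ℤ) (t : unitInterval) :
    Vc ε u c (Function.update x (j, s) t) =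
      Function.update (Vc ε u c x) s (bb ε u c j x s + am ε j * t) := by
  classical
  funext n
  by_cases hn : n = s
  · subst hn
    rw [Function.update_self]
    unfold bb Vc
    rw [(Vc_summable hε c (Function.update x (j, n) t) n).tsum_eq_add_tsum_ite j,
      (Vc_summable hε c x n).tsum_eq_add_tsum_ite j, hj, Function.update_self]
    have h1 : ∀ i, (if i = j then (0 : ℝ) else
        am ε i * ((Function.update x (j, n) t) (i, c i n) : ℝ)) =
        if i = j then 0 else am ε i * (x (i, c i n) : ℝ) := by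
      intro i
      by_cases hi : i = j
      · rw [if_pos hi, if_pos hi]
      · rw [if_neg hi, if_neg hi, Function.update_of_ne]
        intro hc
        exact hi (congrArg Prod.fst hc)
    simp only [h1]
    ring
  · rw [Function.update_of_ne hn]
    unfold Vc
    congr 1
    refine tsum_congr fun i => ?_
    rw [Function.update_of_ne]
    intro hc
    have h1 : i = j := congrArg Prod.fst hc
    have h2 : c i n = s := congrArg Prod.snd hc
    rw [h1, hj] at h2
    exact hn h2

theorem bb_update {ε : ℝ} (hε : 0 < ε) (u : ℤ → ℝ) (c : ℕ → ℤ → ℤ) (j : ℕ)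
    (hj : ∀ n, c j n = n) (x : XX) (s : ℤ) (t : unitInterval) :
    bb ε u c j (Function.update x (j, s) t) = bb ε u c j x := by
  funext n
  unfold bb
  rw [Vc_update hε u c j hj]
  by_cases hn : n = s
  · subst hn
    rw [Function.update_self, Function.update_self]
    unfold bb
    ring
  · rw [Function.update_of_ne hn, Function.update_of_ne]
    intro hc
    exact hn (congrArg Prod.snd hc)

/-- iterated resampling does not change expectations -/
theorem It_expect {ε : ℝ} (hε : 0 < ε) (u : ℤ → ℝ) (c : ℕ → ℤ → ℤ) (j : ℕ)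
    (hj : ∀ n, c j n = n) (G : (ℤ → ℝ) → ℝ≥0∞) (hG : Measurable G) (s : ℤ) (k : ℕ) :
    (Measurable fun x => It (bb ε u c j x) (am ε j) s k G (Vc ε u c x)) ∧
    ∫⁻ x, It (bb ε u c j x) (am ε j) s k G (Vc ε u c x) ∂PP = ∫⁻ x, G (Vc ε u c x) ∂PP := by
  induction k with
  | zero => exact ⟨hG.comp (Vc_cont_x hε u c).measurable, rfl⟩
  | succ k ih =>
    obtain ⟨h1, h2⟩ := ih
    set H : XX → ℝ≥0∞ := fun x => It (bb ε u c j x) (am ε j) s k G (Vc ε u c x) with hH
    have h3 : ∀ x, It (bb ε u c j x) (am ε j) s (k + 1) G (Vc ε u c x) =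
        ∫⁻ t : unitInterval, H (Function.update x (j, s + k) t) := by
      intro x
      have e1 : It (bb ε u c j x) (am ε j) s (k + 1) G (Vc ε u c x) =
        ∫⁻ t in Set.Ioc (0 : ℝ) 1, It (bb ε u c j x) (am ε j) s k G
          (Function.update (Vc ε u c x) (s + k) (bb ε u c j x (s + k) + am ε j * t)) := rfl
      rw [e1, ← lint_I]
      refine lintegral_congr fun t => ?_
      rw [hH]
      simp only
      rw [bb_update hε u c j hj, Vc_update hε u c j hj]
    have hm := (PP_resample (j, s + k)).measurable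
    refine ⟨?_, ?_⟩
    · simp only [h3]
      exact (h1.comp hm).lintegral_prod_right'
    · simp only [h3]
      rw [← h2]
      have h4 := (PP_resample (j, s + k)).lintegral_comp h1
      rw [← h4]
      exact (lintegral_prod _ (h1.comp hm).aemeasurable).symm

end Pool.Agent.V11260.LP
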