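import Pool.Agent.V11260.LP.G2
import Pool.Agent.V11260.LP.F3
import Pool.Agent.V11260.LP.C2

set_option autoImplicit false
set_option linter.unusedSectionVars false
open Filter Topology MeasureTheory
open scoped ENNReal

namespace Pool.Agent.V11260.LP

/-- the majorant for sites `a ≤ b` -/
noncomputable def CZ (R : ℝ) (L : ℕ) (a b : ℤ) (V : ℤ → ℝ) : ℝ≥0∞ :=
  if h : a ∈ Win L then Cn R L ((L : ℤ) - b).toNat (b - a).toNat ⟨a, h⟩ V else 0

theorem CZ_meas (R : ℝ) (L : ℕ) (a b : ℤ) : Measurable (CZ R L a b) := by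
  unfold CZ
  by_cases h : a ∈ Win L
  · simp only [h, dite_true]
    exact Cn_meas _ _ _ _ _
  · simp only [h, dite_false]
    exact measurable_const

theorem CZ_le {K R : ℝ} (hR : K + 2 < R) (L : ℕ) {a b : ℤ} (hab : a ≤ b) (ha : a ∈ Win L)
    (hb : b ∈ Win L) (V : ℤ → ℝ) (hV : ∀ x, |V x| ≤ K) :
    ∑ l, ENNReal.ofReal (ph L V l a ^ 2) * ENNReal.ofReal (ph L V l b ^ 2) ≤ CZ R L a b V := by
  rw [CZ, dif_pos ha]
  rw [Finset.mem_Icc] at ha hb
  have h := ph_le_Cn hR L ((L : ℤ) - b).toNat (b - a).toNat (by omega) V hV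
    ⟨a, by rw [Finset.mem_Icc]; exact ha⟩
  have e1 : (L : ℤ) - ((L : ℤ) - b).toNat = b := by omega
  rw [e1] at h
  exact h

theorem CZ_E {ε : ℝ} (hε : 0 < ε) (hε1 : ε ≤ 1) (K₀ : ℝ) (hK₀ : 0 ≤ K₀) (j : ℕ) :
    ∃ C σ : ℝ, 0 < C ∧ 0 < σ ∧ σ < 1 ∧ ∀ (u : ℤ → ℝ) (c : ℕ → ℤ → ℤ), (∀ n, |u n| ≤ K₀) →
      (∀ n, c j n = n) → ∀ (L : ℕ) (a b : ℤ), a ∈ Win L → b ∈ Win L → a + 2 ≤ b →
      ∫⁻ x, CZ (K₀ + 5) L a b (Vc ε u c x) ∂PP ≤
        ENNReal.ofReal (C * σ ^ ((b - a).natAbs - 2)) := by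
  have ham : am ε j ≤ 1 := by
    unfold am
    have : (1 / 2 : ℝ) ^ (j + 1) ≤ 1 := pow_le_one₀ (by norm_num) (by norm_num)
    nlinarith
  obtain ⟨C, σ, hC, hσ, hσ1, H⟩ := KS (am_pos hε j) ham (K₀ + 2) (K₀ + 5) (by linarith) (by linarith)
  refine ⟨C, σ, hC, hσ, hσ1, fun u c hu hj L a b ha hb hab => ?_⟩
  have hb' := Finset.mem_Icc.1 hb
  have ha' := Finset.mem_Icc.1 ha
  have h1 := It_expect hε u c j hj (CZ (K₀ + 5) L a b) (CZ_meas _ _ _ _) a
    (((b - a).natAbs - 2) + 3)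
  rw [← h1.2]
  have h2 : ∀ x, It (bb ε u c j x) (am ε j) a (((b - a).natAbs - 2) + 3) (CZ (K₀ + 5) L a b)
      (Vc ε u c x) ≤ ENNReal.ofReal (C * σ ^ ((b - a).natAbs - 2)) := by
    intro x
    have h3 := H L ((L : ℤ) - b).toNat ((b - a).natAbs - 2) ⟨a, ha⟩ (by
      simp only
      push_cast
      omega) (bb ε u c j x) (Vc ε u c x) (fun n => by
        unfold bb
        refine (abs_sub _ _).trans ?_
        have h4 := Vc_bound hε u c x n
        have h5 : |am ε j * (x (j, n) : ℝ)| ≤ 1 := by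
          rw [abs_mul, abs_of_pos (am_pos hε j), abs_of_nonneg (x (j, n)).2.1]
          exact mul_le_one₀ ham (x (j, n)).2.1 (x (j, n)).2.2
        have := hu n
        linarith)
    refine le_trans (le_of_eq ?_) h3
    congr 1
    funext V
    rw [CZ, dif_pos ha]
    congr 1
    omega
  calc _ ≤ ∫⁻ _, ENNReal.ofReal (C * σ ^ ((b - a).natAbs - 2)) ∂PP := lintegral_mono h2
    _ = _ := by rw [lintegral_const, measure_univ, mul_one]

theorem far_ne {C σ : ℝ} (hC : 0 < C) (hσ : 0 < σ) (hσ1 : σ < 1) :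
    ∑' d : ℤ, ENNReal.ofReal (C * σ ^ (d.natAbs - 2)) ≠ ⊤ := by
  have h1 : Summable fun n : ℕ => C * σ ^ (n - 2) := by
    rw [← summable_nat_add_iff 2]
    simp only [Nat.add_sub_cancel]
    exact (summable_geometric_of_lt_one hσ.le hσ1).mul_left _
  have h2 : Summable fun d : ℤ => C * σ ^ (d.natAbs - 2) := by
    refine Summable.of_nat_of_neg ?_ ?_
    · simpa using h1
    · simpa using h1
  exact h2.tsum_ofReal_ne_top

end Pool.Agent.V11260.LP
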