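import Pool.Agent.V11260.LP.G3

set_option autoImplicit false
set_option linter.unusedSectionVars false
open Filter Topology MeasureTheory
open scoped ENNReal

namespace Pool.Agent.V11260.LP

/-- sites near `m` -/
noncomputable abbrev Nr (m : ℤ) (R : ℕ) : Finset ℤ := Finset.Icc (m - R) (m + R)

theorem abs_bd {m n : ℤ} {R : ℕ} (h : n ∈ Nr m R) : |n| ≤ |m| + R := by
  rw [Finset.mem_Icc] at h
  rcases abs_cases m with h1 | h1 <;> rcases abs_cases n with h2 | h2 <;> omega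

theorem one_le {K₀ : ℝ} (hK₀ : 0 ≤ K₀) (V : ℤ → ℝ) (hV : ∀ x, |V x| ≤ K₀ + 2) (M : ℝ) (m : ℤ)
    (R : ℕ) (k L : ℕ) (hL : |m| + R + 2 * k ≤ L) :
    1 ≤ ∑ n ∈ Nr m R, ENNReal.ofReal (Ph M V m n k) +
      ∑ n ∈ Win L \ Nr m R, CZ (K₀ + 5) L (min m n) (max m n) V := by
  classical
  have hmabs : |m| ≤ |m| + R := by omega
  have hmW : m ∈ Win L := by
    rw [Finset.mem_Icc]
    rcases abs_cases m with h1 | h1 <;> omega
  have hsub : Nr m R ⊆ Win L := by
    intro n hn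
    have := abs_bd hn
    rw [Finset.mem_Icc]
    rcases abs_cases n with h1 | h1 <;> omega
  have h1 : (1 : ℝ≥0∞) = ∑ n ∈ Win L, ∑ l, ENNReal.ofReal (ph L V l m ^ 2) *
      ENNReal.ofReal (ph L V l n ^ 2) := by
    have e1 : ∀ n, ∑ l, ENNReal.ofReal (ph L V l m ^ 2) * ENNReal.ofReal (ph L V l n ^ 2) =
        ENNReal.ofReal (∑ l, ph L V l m ^ 2 * ph L V l n ^ 2) := by
      intro n
      rw [ENNReal.ofReal_sum_of_nonneg fun l _ => by positivity]
      exact Finset.sum_congr rfl fun l _ => (ENNReal.ofReal_mul (sq_nonneg _)).symm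
    simp only [e1]
    rw [← ENNReal.ofReal_sum_of_nonneg fun n _ => Finset.sum_nonneg fun l _ => by positivity,
      Finset.sum_comm]
    have e2 : ∑ l, ∑ n ∈ Win L, ph L V l m ^ 2 * ph L V l n ^ 2 = 1 := by
      rw [← ph_row L V hmW]
      refine Finset.sum_congr rfl fun l _ => ?_
      rw [← Finset.mul_sum, ph_norm, mul_one]
    rw [e2, ENNReal.ofReal_one]
  calc (1 : ℝ≥0∞) = ∑ n ∈ Win L, ∑ l, ENNReal.ofReal (ph L V l m ^ 2) *
      ENNReal.ofReal (ph L V l n ^ 2) := h1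
    _ = ∑ n ∈ Win L \ Nr m R, ∑ l, ENNReal.ofReal (ph L V l m ^ 2) *
      ENNReal.ofReal (ph L V l n ^ 2) + ∑ n ∈ Nr m R, ∑ l, ENNReal.ofReal (ph L V l m ^ 2) *
      ENNReal.ofReal (ph L V l n ^ 2) := (Finset.sum_sdiff hsub).symm
    _ = ∑ n ∈ Nr m R, ∑ l, ENNReal.ofReal (ph L V l m ^ 2) *
      ENNReal.ofReal (ph L V l n ^ 2) + ∑ n ∈ Win L \ Nr m R, ∑ l,
        ENNReal.ofReal (ph L V l m ^ 2) * ENNReal.ofReal (ph L V l n ^ 2) := add_comm _ _
    _ ≤ _ := by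
      refine add_le_add (Finset.sum_le_sum fun n hn => ?_) (Finset.sum_le_sum fun n hn => ?_)
      · have h2 := window_le V (K₀ + 2) (by linarith) hV M L hmabs (abs_bd hn) k hL
        refine le_trans (le_of_eq ?_) (ENNReal.ofReal_le_ofReal h2)
        rw [ENNReal.ofReal_sum_of_nonneg fun l _ => by positivity]
        exact Finset.sum_congr rfl fun l _ => (ENNReal.ofReal_mul (sq_nonneg _)).symm
      · have hnW : n ∈ Win L := (Finset.mem_sdiff.1 hn).1
        rcases le_total m n with hmn | hmn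
        · rw [min_eq_left hmn, max_eq_right hmn]
          exact CZ_le (by linarith) L hmn hmW hnW V hV
        · rw [min_eq_right hmn, max_eq_left hmn]
          refine le_trans (le_of_eq ?_) (CZ_le (by linarith) L hmn hnW hmW V hV)
          exact Finset.sum_congr rfl fun l _ => mul_comm _ _

/-- **localization with overwhelming mass near `m`**, uniformly in all parameters -/
theorem near_ge {ε : ℝ} (hε : 0 < ε) (hε1 : ε ≤ 1) (K₀ : ℝ) (hK₀ : 0 ≤ K₀) (j : ℕ) (η : ℝ≥0∞)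
    (hη : η ≠ 0) : ∃ R₀ : ℕ, ∀ R ≥ R₀, ∀ (u : ℤ → ℝ) (c : ℕ → ℤ → ℤ), (∀ n, |u n| ≤ K₀) →
      (∀ n, c j n = n) → ∀ (M : ℝ) (m : ℤ) (k : ℕ),
      1 ≤ ∑ n ∈ Nr m R, ∫⁻ x, ENNReal.ofReal (Ph M (Vc ε u c x) m n k) ∂PP + η := by
  classical
  obtain ⟨C, σ, hC, hσ, hσ1, H⟩ := CZ_E hε hε1 K₀ hK₀ j
  set g : ℤ → ℝ≥0∞ := fun d => ENNReal.ofReal (C * σ ^ (d.natAbs - 2)) with hg
  have hgne : ∑' d, g d ≠ ⊤ := far_ne hC hσ hσ1
  have ht := ENNReal.tendsto_tsum_compl_atTop_zero hgne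
  have hev : ∀ᶠ s : Finset ℤ in atTop, ∑' b : {x // x ∉ s}, g b < η :=
    ht (Iio_mem_nhds (pos_iff_ne_zero.2 hη))
  obtain ⟨s, hs⟩ := hev.exists
  obtain ⟨R₁, hR₁⟩ : ∃ R₁ : ℕ, ∀ d ∈ s, d.natAbs ≤ R₁ := by
    refine ⟨s.sup Int.natAbs, fun d hd => Finset.le_sup hd⟩
  refine ⟨R₁ + 1, fun R hR u c hu hj M m k => ?_⟩
  set L : ℕ := (|m| + R + 2 * k).toNat with hL
  have hL1 : |m| + R + 2 * k ≤ L := by
    rw [hL]
    exact Int.self_le_toNat _
  have hmW : m ∈ Win L := by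
    rw [Finset.mem_Icc]
    rcases abs_cases m with h1 | h1 <;> omega
  have hV : ∀ x n, |Vc ε u c x n| ≤ K₀ + 2 := fun x n => by
    have := Vc_bound hε u c x n
    have := hu n
    linarith
  have hmeas1 : ∀ n, Measurable fun x => ENNReal.ofReal (Ph M (Vc ε u c x) m n k) := fun n =>
    ((Ph_cont M m n k).comp (Vc_cont_x hε u c)).measurable.ennreal_ofReal
  have hmeas2 : ∀ n, Measurable fun x => CZ (K₀ + 5) L (min m n) (max m n) (Vc ε u c x) := fun n =>
    (CZ_meas _ _ _ _).comp (Vc_cont_x hε u c).measurable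
  have h1 : (1 : ℝ≥0∞) ≤ ∫⁻ x, (∑ n ∈ Nr m R, ENNReal.ofReal (Ph M (Vc ε u c x) m n k) +
      ∑ n ∈ Win L \ Nr m R, CZ (K₀ + 5) L (min m n) (max m n) (Vc ε u c x)) ∂PP := by
    calc (1 : ℝ≥0∞) = ∫⁻ _, 1 ∂PP := by rw [lintegral_const, measure_univ, mul_one]
      _ ≤ _ := lintegral_mono fun x => one_le hK₀ (Vc ε u c x) (hV x) M m R k L hL1
  rw [lintegral_add_left (Finset.measurable_fun_sum _ fun n _ => hmeas1 n),
    lintegral_finsetSum _ (fun n _ => hmeas1 n), lintegral_finsetSum _ (fun n _ => hmeas2 n)] at h1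
  refine h1.trans (add_le_add le_rfl ?_)
  have h2 : ∀ n ∈ Win L \ Nr m R,
      ∫⁻ x, CZ (K₀ + 5) L (min m n) (max m n) (Vc ε u c x) ∂PP ≤
        (if n - m ∈ s then 0 else g (n - m)) := by
    intro n hn
    have hnW : n ∈ Win L := (Finset.mem_sdiff.1 hn).1
    have hnN : n ∉ Nr m R := (Finset.mem_sdiff.1 hn).2
    rw [Finset.mem_Icc] at hnN
    have hns : n - m ∉ s := by
      intro hc
      have := hR₁ _ hc
      omega
    rw [if_neg hns]
    rcases le_total m n with hmn | hmn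
    · rw [min_eq_left hmn, max_eq_right hmn]
      exact H u c hu hj L m n hmW hnW (by omega)
    · rw [min_eq_right hmn, max_eq_left hmn]
      have := H u c hu hj L n m hnW hmW (by omega)
      rw [hg]
      simp only
      rwa [show (n - m).natAbs = (m - n).natAbs by omega]
  calc _ ≤ ∑ n ∈ Win L \ Nr m R, (if n - m ∈ s then 0 else g (n - m)) := Finset.sum_le_sum h2
    _ ≤ ∑' n : ℤ, (if n - m ∈ s then 0 else g (n - m)) := ENNReal.sum_le_tsum _
    _ = ∑' d : ℤ, (if d ∈ s then 0 else g d) :=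
        (Equiv.subRight m).tsum_eq (fun d : ℤ => if d ∈ s then 0 else g d)
    _ = ∑' b : {x // x ∉ s}, g b := by
        have h3 := tsum_subtype {x : ℤ | x ∉ s} g
        rw [show (∑' b : {x // x ∉ s}, g b) = ∑' x : {x : ℤ | x ∉ s}, g x from rfl, h3]
        refine tsum_congr fun d => ?_
        by_cases hd : d ∈ s
        · rw [if_pos hd, Set.indicator_of_notMem]
          simpa using hd
        · rw [if_neg hd, Set.indicator_of_mem]
          exact hd
    _ ≤ η := hs.le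

end Pool.Agent.V11260.LP
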