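import Pool.Agent.V11260.LP.C1

set_option autoImplicit false
set_option linter.unusedSectionVars false
open Filter Topology MeasureTheory
open scoped ENNReal

namespace Pool.Agent.V11260.LP

/-- the limiting correlators -/
noncomputable def DD (M : ℝ) (V : ℤ → ℝ) (m n : ℤ) : ℝ≥0∞ := ⨅ k, ENNReal.ofReal (Ph M V m n k)

theorem DD_meas (M : ℝ) (m n : ℤ) : Measurable fun V : ℤ → ℝ => DD M V m n := by
  unfold DD
  exact Measurable.iInf fun k => (Ph_cont M m n k).measurable.ennreal_ofReal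

section
variable (V : ℤ → ℝ) (K : ℝ) (hK : 0 ≤ K) (hV : ∀ n, |V n| ≤ K) (M : ℝ) (hM : 4 + 2 * K ≤ M)
include hK hV hM

theorem DD_sum (m : ℤ) (F : Finset ℤ) :
    ∑ n ∈ F, DD M V m n ≤
      ENNReal.ofReal (‖(EE V K hK hV).starProjection (sg m)‖ ^ 2) := by
  have h0 : ∀ n, DD M V m n ≠ ⊤ := fun n =>
    ne_top_of_le_ne_top ENNReal.ofReal_ne_top (iInf_le _ 0)
  have h1 : ∀ n ∈ F, ∀ k : ℕ, (DD M V m n).toReal ≤
      ‖(BB (AV V K hK hV) M ^ k) (sg (m, n))‖ ^ 2 := by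
    intro n _ k
    rw [Ph_eq V K hK hV]
    have h2 : DD M V m n ≤ ENNReal.ofReal (Ph M V m n k) := iInf_le _ k
    have h3 := ENNReal.toReal_mono ENNReal.ofReal_ne_top h2
    rwa [ENNReal.toReal_ofReal (Ph_nonneg V K hK hV M m n k)] at h3
  have h2 := D_le V K hK hV M hM m F (fun n => (DD M V m n).toReal) h1
  calc ∑ n ∈ F, DD M V m n = ∑ n ∈ F, ENNReal.ofReal (DD M V m n).toReal :=
        Finset.sum_congr rfl fun n _ => (ENNReal.ofReal_toReal (h0 n)).symm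
    _ = ENNReal.ofReal (∑ n ∈ F, (DD M V m n).toReal) :=
        (ENNReal.ofReal_sum_of_nonneg fun n _ => ENNReal.toReal_nonneg).symm
    _ ≤ _ := ENNReal.ofReal_le_ofReal h2

theorem DD_sum_one (m : ℤ) (F : Finset ℤ) : ∑ n ∈ F, DD M V m n ≤ 1 := by
  refine (DD_sum V K hK hV M hM m F).trans ?_
  rw [← ENNReal.ofReal_one]
  exact ENNReal.ofReal_le_ofReal (EE_proj_le V K hK hV m)

theorem DD_tsum_one (m : ℤ) : ∑' n, DD M V m n ≤ 1 := by
  rw [ENNReal.tsum_eq_iSup_sum]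
  exact iSup_le fun F => DD_sum_one V K hK hV M hM m F

theorem DD_top (h : ∀ m, 1 ≤ ∑' n, DD M V m n) : EE V K hK hV = ⊤ := by
  refine EE_top V K hK hV fun m => ?_
  have h1 := h m
  rw [ENNReal.tsum_eq_iSup_sum] at h1
  have h2 : ⨆ F : Finset ℤ, ∑ n ∈ F, DD M V m n ≤
      ENNReal.ofReal (‖(EE V K hK hV).starProjection (sg m)‖ ^ 2) :=
    iSup_le fun F => DD_sum V K hK hV M hM m F
  have h3 := h1.trans h2
  rwa [← ENNReal.ofReal_one, ENNReal.ofReal_le_ofReal_iff (by positivity)] at h3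

theorem Ph_ofReal_anti (m n : ℤ) : Antitone fun k => ENNReal.ofReal (Ph M V m n k) :=
  fun _ _ h => ENNReal.ofReal_le_ofReal (Ph_anti V K hK hV M hM m n h)

theorem Ph_ofReal_le (m n : ℤ) (k : ℕ) : ENNReal.ofReal (Ph M V m n k) ≤ 1 := by
  rw [← ENNReal.ofReal_one]
  exact ENNReal.ofReal_le_ofReal (Ph_le_one V K hK hV M hM m n k)

end

end Pool.Agent.V11260.LP
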