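import Pool.Agent.V11260.LP.G4
import Pool.Agent.V11260.LP.G5

set_option autoImplicit false
set_option linter.unusedSectionVars false
open Filter Topology MeasureTheory
open scoped ENNReal

namespace Pool.Agent.V11260.LP

section
variable {Ω : Type} [AddCommGroup Ω] [TopologicalSpace Ω] [IsTopologicalAddGroup Ω]
  [CompactSpace Ω] [T2Space Ω] [TotallyDisconnectedSpace Ω] [MeasurableSpace Ω] [BorelSpace Ω]
  (μ : Measure Ω) [IsProbabilityMeasure μ] (α : Ω) (f : C(Ω, ℝ)) (ε : ℝ)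

/-- the random potentials along the orbit of `ω` -/
noncomputable def VV (c : Ω → ℕ → ℤ → ℤ) (p : Ω × XX) : ℤ → ℝ :=
  Vc ε (fun n => f (p.1 + n • α)) (c p.1) p.2

/-- admissible index functions -/
def Adm (c : Ω → ℕ → ℤ → ℤ) : Prop := ∀ i n, Continuous fun ω => c ω i n

theorem ev_cont (i : ℕ) : Continuous fun q : ℤ × XX => q.2 (i, q.1) :=
  continuous_prod_of_discrete_left.2 fun a => continuous_apply (i, a)

theorem VV_cont {ε : ℝ} (hε : 0 < ε) {c : Ω → ℕ → ℤ → ℤ} (hc : Adm c) :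
    Continuous (VV α f ε c) := by
  refine continuous_pi fun n => ?_
  unfold VV Vc
  refine Vc_cont hε (fun p : Ω × XX => f (p.1 + n • α)) (by fun_prop)
    (fun i p => p.2 (i, c p.1 i n)) (fun i => ?_)
  have h1 : Continuous fun p : Ω × XX => ((c p.1 i n, p.2) : ℤ × XX) :=
    ((hc i n).comp continuous_fst).prodMk continuous_snd
  exact (ev_cont i).comp h1

theorem VV_meas {ε : ℝ} (hε : 0 < ε) {c : Ω → ℕ → ℤ → ℤ} (hc : Adm c) :
    Measurable (VV α f ε c) := (VV_cont α f hε hc).measurable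

theorem VV_bd {ε : ℝ} (hε : 0 < ε) (hε1 : ε ≤ 1) (c : Ω → ℕ → ℤ → ℤ) (p : Ω × XX) (n : ℤ) :
    |VV α f ε c p n| ≤ ‖f‖ + 2 := by
  have h1 := Vc_bound hε (fun n => f (p.1 + n • α)) (c p.1) p.2 n
  have h2 := f.norm_coe_le_norm (p.1 + n • α)
  rw [Real.norm_eq_abs] at h2
  unfold VV
  linarith

/-- expected correlators -/
noncomputable def Ak (M : ℝ) (c : Ω → ℕ → ℤ → ℤ) (m n : ℤ) (k : ℕ) : ℝ≥0∞ :=
  ∫⁻ p, ENNReal.ofReal (Ph M (VV α f ε c p) m n k) ∂(μ.prod PP)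

noncomputable def dk (M : ℝ) (c : Ω → ℕ → ℤ → ℤ) (m n : ℤ) : ℝ≥0∞ :=
  ∫⁻ p, DD M (VV α f ε c p) m n ∂(μ.prod PP)

theorem Ak_meas {ε : ℝ} (hε : 0 < ε) {c : Ω → ℕ → ℤ → ℤ} (hc : Adm c) (M : ℝ) (m n : ℤ) (k : ℕ) :
    Measurable fun p => ENNReal.ofReal (Ph M (VV α f ε c p) m n k) :=
  ((Ph_cont M m n k).comp (VV_cont α f hε hc)).measurable.ennreal_ofReal

theorem Ak_anti {ε : ℝ} (hε : 0 < ε) (hε1 : ε ≤ 1) (c : Ω → ℕ → ℤ → ℤ) {M : ℝ}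
    (hM : 4 + 2 * (‖f‖ + 2) ≤ M) (m n : ℤ) : Antitone (Ak μ α f ε M c m n) := by
  intro k k' hk
  exact lintegral_mono fun p => Ph_ofReal_anti (VV α f ε c p) (‖f‖ + 2) (by positivity)
    (VV_bd α f hε hε1 c p) M hM m n hk

theorem Ak_le {ε : ℝ} (hε : 0 < ε) (hε1 : ε ≤ 1) (c : Ω → ℕ → ℤ → ℤ) {M : ℝ}
    (hM : 4 + 2 * (‖f‖ + 2) ≤ M) (m n : ℤ) (k : ℕ) : Ak μ α f ε M c m n k ≤ 1 := by
  calc Ak μ α f ε M c m n k ≤ ∫⁻ _, 1 ∂(μ.prod PP) :=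
        lintegral_mono fun p => Ph_ofReal_le (VV α f ε c p) (‖f‖ + 2) (by positivity)
          (VV_bd α f hε hε1 c p) M hM m n k
    _ = 1 := by rw [lintegral_const, measure_univ, mul_one]

theorem dk_eq {ε : ℝ} (hε : 0 < ε) (hε1 : ε ≤ 1) {c : Ω → ℕ → ℤ → ℤ} (hc : Adm c) {M : ℝ}
    (hM : 4 + 2 * (‖f‖ + 2) ≤ M) (m n : ℤ) : dk μ α f ε M c m n = ⨅ k, Ak μ α f ε M c m n k := by
  unfold dk Ak DD
  refine lintegral_iInf (fun k => Ak_meas α f hε hc M m n k) ?_ ?_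
  · intro k k' hk p
    exact Ph_ofReal_anti (VV α f ε c p) (‖f‖ + 2) (by positivity)
      (VV_bd α f hε hε1 c p) M hM m n hk
  · exact ne_top_of_le_ne_top ENNReal.one_ne_top (Ak_le μ α f hε hε1 c hM m n 0)

theorem dk_sum {ε : ℝ} (hε : 0 < ε) (hε1 : ε ≤ 1) {c : Ω → ℕ → ℤ → ℤ} (hc : Adm c) {M : ℝ}
    (hM : 4 + 2 * (‖f‖ + 2) ≤ M) (m : ℤ) (F : Finset ℤ) : ∑ n ∈ F, dk μ α f ε M c m n ≤ 1 := by
  unfold dk
  have hm : ∀ n, Measurable fun p => DD M (VV α f ε c p) m n := fun n =>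
    (DD_meas M m n).comp (VV_meas α f hε hc)
  rw [← lintegral_finsetSum _ fun n _ => hm n]
  calc _ ≤ ∫⁻ _, 1 ∂(μ.prod PP) := lintegral_mono fun p =>
        DD_sum_one (VV α f ε c p) (‖f‖ + 2) (by positivity) (VV_bd α f hε hε1 c p) M hM m F
    _ = 1 := by rw [lintegral_const, measure_univ, mul_one]

theorem dk_tendsto {ε : ℝ} (hε : 0 < ε) (hε1 : ε ≤ 1) {c : Ω → ℕ → ℤ → ℤ} (hc : Adm c) {M : ℝ}
    (hM : 4 + 2 * (‖f‖ + 2) ≤ M) (m n : ℤ) :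
    Tendsto (Ak μ α f ε M c m n) atTop (𝓝 (dk μ α f ε M c m n)) := by
  rw [dk_eq μ α f hε hε1 hc hM]
  exact tendsto_atTop_iInf (Ak_anti μ α f hε hε1 c hM m n)

/-- passing to the limit `k → ∞` -/
theorem to_dk {ε : ℝ} (hε : 0 < ε) (hε1 : ε ≤ 1) {c : Ω → ℕ → ℤ → ℤ} (hc : Adm c) {M : ℝ}
    (hM : 4 + 2 * (‖f‖ + 2) ≤ M) (m : ℤ) (F : Finset ℤ) (η : ℝ≥0∞)
    (h : ∀ k, 1 ≤ ∑ n ∈ F, Ak μ α f ε M c m n k + η) : 1 ≤ ∑ n ∈ F, dk μ α f ε M c m n + η := by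
  have h1 : Tendsto (fun k => ∑ n ∈ F, Ak μ α f ε M c m n k + η) atTop
      (𝓝 (∑ n ∈ F, dk μ α f ε M c m n + η)) :=
    (tendsto_finsetSum _ fun n _ => dk_tendsto μ α f hε hε1 hc hM m n).add_const η
  exact ge_of_tendsto' h1 h

/-- localization near `m` for the `j`-th approximation -/
theorem near_dk {ε : ℝ} (hε : 0 < ε) (hε1 : ε ≤ 1) (j : ℕ) (η : ℝ≥0∞) (hη : η ≠ 0) :
    ∃ R₀ : ℕ, ∀ R ≥ R₀, ∀ c : Ω → ℕ → ℤ → ℤ, Adm c → (∀ ω n, c ω j n = n) → ∀ M : ℝ,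
      4 + 2 * (‖f‖ + 2) ≤ M → ∀ m : ℤ, 1 ≤ ∑ n ∈ Nr m R, dk μ α f ε M c m n + η := by
  obtain ⟨R₀, hR₀⟩ := near_ge hε hε1 ‖f‖ (norm_nonneg _) j η hη
  refine ⟨R₀, fun R hR c hc hj M hM m => ?_⟩
  refine to_dk μ α f hε hε1 hc hM m _ η fun k => ?_
  have h1 : ∀ ω : Ω, 1 ≤ ∑ n ∈ Nr m R,
      ∫⁻ x, ENNReal.ofReal (Ph M (VV α f ε c (ω, x)) m n k) ∂PP + η := by
    intro ω
    exact hR₀ R hR (fun n => f (ω + n • α)) (c ω) (fun n => by
      have := f.norm_coe_le_norm (ω + n • α)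
      rwa [Real.norm_eq_abs] at this) (hj ω) M m k
  have hm : ∀ n, Measurable fun ω : Ω =>
      ∫⁻ x, ENNReal.ofReal (Ph M (VV α f ε c (ω, x)) m n k) ∂PP := fun n =>
    (Ak_meas α f hε hc M m n k).lintegral_prod_right'
  calc (1 : ℝ≥0∞) = ∫⁻ _, 1 ∂μ := by rw [lintegral_const, measure_univ, mul_one]
    _ ≤ ∫⁻ ω, (∑ n ∈ Nr m R,
      ∫⁻ x, ENNReal.ofReal (Ph M (VV α f ε c (ω, x)) m n k) ∂PP + η) ∂μ := lintegral_mono h1
    _ = ∑ n ∈ Nr m R, Ak μ α f ε M c m n k + η := by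
        rw [lintegral_add_right _ measurable_const, lintegral_finsetSum _ fun n _ => hm n,
          lintegral_const, measure_univ, mul_one]
        congr 1
        refine Finset.sum_congr rfl fun n _ => ?_
        exact (lintegral_prod _ (Ak_meas α f hε hc M m n k).aemeasurable).symm

/-- the law of the potential in a window does not change if indices are permuted -/
theorem Ak_congr {ε : ℝ} (hε : 0 < ε) {c c' : Ω → ℕ → ℤ → ℤ} (hc : Adm c) (hc' : Adm c') (M : ℝ)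
    {m n : ℤ} {N₀ : ℤ} (hm : |m| ≤ N₀) (hn : |n| ≤ N₀) (k : ℕ) {N : ℕ} (hN : N₀ + 4 * k ≤ N)
    (hcc : ∀ ω i, ∃ g : Equiv.Perm ℤ, ∀ z ∈ Finset.Icc (-(N : ℤ)) N, c' ω i z = g (c ω i z)) :
    Ak μ α f ε M c m n k = Ak μ α f ε M c' m n k := by
  unfold Ak
  rw [lintegral_prod _ (Ak_meas α f hε hc M m n k).aemeasurable,
    lintegral_prod _ (Ak_meas α f hε hc' M m n k).aemeasurable]
  refine lintegral_congr fun ω => ?_
  choose g hg using hcc ω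
  let G : Equiv.Perm (ℕ × ℤ) := Equiv.prodShear (Equiv.refl ℕ) g
  have hG : ∀ i z, G (i, z) = (i, g i z) := fun i z => rfl
  have h1 : ∀ x : XX, Ph M (VV α f ε c' (ω, x)) m n k = Ph M (VV α f ε c (ω, x ∘ G)) m n k := by
    intro x
    refine Ph_local hm hn M k fun z hz => ?_
    unfold VV Vc
    simp only
    congr 1
    refine tsum_congr fun i => ?_
    rw [Function.comp_apply, hG, hg i z (by
      rw [Finset.mem_Icc]
      rcases abs_cases z with h | h <;> omega)]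
  simp only [h1]
  have h2 := (PP_perm G).lintegral_comp
    (f := fun x => ENNReal.ofReal (Ph M (VV α f ε c (ω, x)) m n k))
    ((Ak_meas α f hε hc M m n k).comp measurable_prodMk_left)
  exact h2.symm

end

end Pool.Agent.V11260.LP
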