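import Mathlib

set_option autoImplicit false
set_option linter.unusedSectionVars false
open Filter Topology MeasureTheory
open scoped ENNReal

namespace Pool.Agent.V11260.LP

/-- recursive choice of a sequence -/
theorem exists_seq {X : Type} [Nonempty X] (P : ℕ → (ℕ → X) → Prop)
    (hdep : ∀ j (U U' : ℕ → X), (∀ i ≤ j, U i = U' i) → P j U → P j U')
    (hex : ∀ j (U : ℕ → X), ∃ W, P j (Function.update U j W)) : ∃ U : ℕ → X, ∀ j, P j U := by
  classical
  choose W hW using hex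
  obtain ⟨x0⟩ := ‹Nonempty X›
  let A : ℕ → (ℕ → X) := fun n => Nat.rec (fun _ => x0) (fun j U => Function.update U j (W j U)) n
  have hA : ∀ j, A (j + 1) = Function.update (A j) j (W j (A j)) := fun j => rfl
  have hst : ∀ i n, i + 1 ≤ n → A n i = A (i + 1) i := by
    intro i n hn
    induction n, hn using Nat.le_induction with
    | base => rfl
    | succ n hn ih =>
      rw [hA, Function.update_of_ne (by omega), ih]
  refine ⟨fun i => A (i + 1) i, fun j => ?_⟩
  refine hdep j (A (j + 1)) _ (fun i hi => hst i (j + 1) (by omega)) ?_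
  rw [hA]
  exact hW j (A j)

/-- sites near `m` -/
theorem tail_bound (d : ℕ → ℤ → ℤ → ℝ≥0∞) (A : ℤ → ℤ → ℕ → ℝ≥0∞) (R : ℕ → ℕ) (δ t : ℕ → ℝ≥0∞)
    (hR : Monotone R) (hP : ∀ j m (F : Finset ℤ), ∑ n ∈ F, d j m n ≤ 1)
    (hb : ∀ j m, 1 ≤ ∑ n ∈ Finset.Icc (m - (R j : ℤ)) (m + R j), d (j + 1) m n + t j)
    (hc : ∀ (j : ℕ) (m n : ℤ), |m| ≤ j → n ∈ Finset.Icc (m - (R j : ℤ)) (m + R j) →
      d (j + 1) m n ≤ d j m n + δ j)
    (hδ : ∀ j, ((2 * R j + 1 : ℕ) : ℝ≥0∞) * δ j ≤ t j) (ht : ∑' j, t j ≠ ⊤)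
    (he : ∀ m n k, ∃ J, ∀ j ≥ J, d j m n ≤ A m n k) (m : ℤ) (η : ℝ≥0∞) (hη : η ≠ 0) :
    ∃ R' : ℕ, ∀ k, 1 ≤ ∑ n ∈ Finset.Icc (m - (R' : ℤ)) (m + R'), A m n k + η := by
  classical
  have hstep : ∀ (R' j : ℕ), |m| ≤ j → R' ≤ R j →
      ∑ n ∈ Finset.Icc (m - (R' : ℤ)) (m + R'), d j m n ≤
      ∑ n ∈ Finset.Icc (m - (R' : ℤ)) (m + R'), d (j + 1) m n + 2 * t j := by
    intro R' j hmj hRj
    set S := Finset.Icc (m - (R' : ℤ)) (m + R') with hS
    set S' := Finset.Icc (m - (R j : ℤ)) (m + R j) with hS'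
    have hsub : S ⊆ S' := Finset.Icc_subset_Icc (by omega) (by omega)
    have h1 : ∑ n ∈ S, d j m n + ∑ n ∈ S' \ S, d j m n ≤ 1 := by
      rw [add_comm, Finset.sum_sdiff hsub]
      exact hP j m S'
    have h2 := hb j m
    rw [← hS', ← Finset.sum_sdiff hsub] at h2
    have h3 : ∑ n ∈ S' \ S, d (j + 1) m n ≤ ∑ n ∈ S' \ S, d j m n + t j := by
      calc ∑ n ∈ S' \ S, d (j + 1) m n ≤ ∑ n ∈ S' \ S, (d j m n + δ j) :=
            Finset.sum_le_sum fun n hn => hc j m n hmj (Finset.mem_sdiff.1 hn).1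
        _ = ∑ n ∈ S' \ S, d j m n + (S' \ S).card * δ j := by
            rw [Finset.sum_add_distrib, Finset.sum_const, nsmul_eq_mul]
        _ ≤ ∑ n ∈ S' \ S, d j m n + t j := by
            refine add_le_add le_rfl (le_trans ?_ (hδ j))
            gcongr
            have h4 : (S' \ S).card ≤ S'.card := Finset.card_le_card Finset.sdiff_subset
            refine h4.trans (le_of_eq ?_)
            rw [hS', Int.card_Icc]
            omega
    have hfin : ∑ n ∈ S' \ S, d j m n ≠ ⊤ := ne_top_of_le_ne_top ENNReal.one_ne_top (hP j m _)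
    refine (ENNReal.add_le_add_iff_right hfin).1 (h1.trans (h2.trans ?_))
    calc ∑ n ∈ S' \ S, d (j + 1) m n + ∑ n ∈ S, d (j + 1) m n + t j
        ≤ (∑ n ∈ S' \ S, d j m n + t j) + ∑ n ∈ S, d (j + 1) m n + t j := by gcongr
      _ = ∑ n ∈ S, d (j + 1) m n + 2 * t j + ∑ n ∈ S' \ S, d j m n := by ring
  have hlim : Tendsto (fun J => 2 * ∑' l, t (l + J)) atTop (𝓝 0) := by
    have := ENNReal.tendsto_sum_nat_add t ht
    have h2 := ENNReal.Tendsto.const_mul (a := 2) this (Or.inr (by norm_num))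
    rwa [mul_zero] at h2
  have hev : ∀ᶠ J in atTop, 2 * ∑' l, t (l + J) < η := hlim (Iio_mem_nhds (pos_iff_ne_zero.2 hη))
  obtain ⟨J, hJ1, hJ2⟩ := (hev.and (eventually_ge_atTop m.natAbs)).exists
  have hJ1' : 2 * ∑' l, t (l + J) < η := hJ1
  have hmJ : |m| ≤ (J : ℤ) := by
    rw [Int.abs_eq_natAbs]
    exact_mod_cast hJ2
  refine ⟨R J, fun k => ?_⟩
  set S := Finset.Icc (m - (R J : ℤ)) (m + R J) with hS
  have hind : ∀ i, 1 ≤ ∑ n ∈ S, d (J + 1 + i) m n + (t J + 2 * ∑ l ∈ Finset.range i, t (l + 1 + J)) := by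
    intro i
    induction i with
    | zero => simpa using hb J m
    | succ i ih =>
      refine ih.trans ?_
      have h1 := hstep (R J) (J + 1 + i) (by push_cast; omega) (hR (by omega))
      rw [← hS] at h1
      rw [Finset.sum_range_succ]
      calc ∑ n ∈ S, d (J + 1 + i) m n + (t J + 2 * ∑ l ∈ Finset.range i, t (l + 1 + J))
          ≤ (∑ n ∈ S, d (J + 1 + i + 1) m n + 2 * t (J + 1 + i)) +
            (t J + 2 * ∑ l ∈ Finset.range i, t (l + 1 + J)) := by gcongr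
        _ = ∑ n ∈ S, d (J + 1 + (i + 1)) m n +
            (t J + 2 * (∑ l ∈ Finset.range i, t (l + 1 + J) + t (i + 1 + J))) := by
            rw [show J + 1 + i = i + 1 + J by ring, show i + 1 + J + 1 = J + 1 + (i + 1) by ring]
            ring
  have hle : ∀ i, t J + 2 * ∑ l ∈ Finset.range i, t (l + 1 + J) ≤ η := by
    intro i
    calc t J + 2 * ∑ l ∈ Finset.range i, t (l + 1 + J)
        ≤ 2 * t J + 2 * ∑ l ∈ Finset.range i, t (l + 1 + J) := by
          gcongr
          exact le_mul_of_one_le_left zero_le (by norm_num)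
      _ = 2 * ∑ l ∈ Finset.range (i + 1), t (l + J) := by
          rw [Finset.sum_range_succ', zero_add, ← mul_add, add_comm]
      _ ≤ 2 * ∑' l, t (l + J) := by
          gcongr
          exact ENNReal.sum_le_tsum _
      _ ≤ η := hJ1'.le
  choose J' hJ' using fun n => he m n k
  set i := S.sup J' with hi
  refine (hind i).trans (add_le_add (Finset.sum_le_sum fun n hn => ?_) (hle i))
  refine hJ' n _ ?_
  have : J' n ≤ i := Finset.le_sup hn
  omega

end Pool.Agent.V11260.LP
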