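import Mathlib

set_option autoImplicit false
set_option linter.unusedSectionVars false
open Filter Topology MeasureTheory
open scoped ENNReal

namespace Pool.Agent.V11260.LP

section
variable {Ω : Type} [AddCommGroup Ω] [TopologicalSpace Ω] [IsTopologicalAddGroup Ω]
  [CompactSpace Ω] [T2Space Ω] [TotallyDisconnectedSpace Ω] [Infinite Ω]

theorem zsmul_ne (α : Ω) (hα : Dense (Set.range (fun n : ℤ => n • α))) (n : ℤ) (hn : n ≠ 0) :
    n • α ≠ 0 := by
  intro h0
  have h1 : IsOfFinAddOrder α := isOfFinAddOrder_iff_zsmul_eq_zero.2 ⟨n, hn, h0⟩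
  have h2 := finite_zmultiples.2 h1
  have h3 : (Set.range (fun n : ℤ => n • α)) = (AddSubgroup.zmultiples α : Set Ω) := by
    ext x
    simp [AddSubgroup.mem_zmultiples_iff]
  rw [h3] at hα
  have h4 : (AddSubgroup.zmultiples α : Set Ω) = Set.univ := by
    rw [← h2.isClosed.closure_eq]
    exact hα.closure_eq
  rw [h4] at h2
  exact Set.infinite_univ h2

/-- locally constant functions which separate the points of an orbit in a window -/
theorem exists_r (α : Ω) (hα : Dense (Set.range (fun n : ℤ => n • α))) (N : ℕ) :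
    ∃ r : C(Ω, ℤ), ∀ ω, Set.InjOn (fun n : ℤ => r (ω + n • α))
      (Finset.Icc (-(N : ℤ)) N : Finset ℤ) := by
  classical
  set S : Set Ω := (fun n : ℤ => n • α) '' {n : ℤ | n ∈ Finset.Icc (-(2 * N : ℤ)) (2 * N) ∧ n ≠ 0}
    with hS
  have hSfin : S.Finite := by
    refine Set.Finite.image _ ?_
    exact (Finset.finite_toSet (Finset.Icc (-(2 * N : ℤ)) (2 * N))).subset fun n hn => hn.1
  have h0 : (0 : Ω) ∈ Sᶜ := by
    rintro ⟨n, ⟨_, hn⟩, hn'⟩
    exact zsmul_ne α hα n hn hn'
  obtain ⟨H, hH⟩ := ProfiniteGrp.exist_openNormalAddSubgroup_sub_open_nhds_of_zero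
    hSfin.isClosed.isOpen_compl h0
  have hopen : IsOpen (H.toAddSubgroup : Set Ω) := H.isOpen'
  have := AddSubgroup.quotient_finite_of_isOpen H.toAddSubgroup hopen
  have := QuotientAddGroup.discreteTopology hopen
  obtain ⟨φ, hφ⟩ := exists_injective_nat (Ω ⧸ H.toAddSubgroup)
  refine ⟨⟨fun ω => (φ (QuotientAddGroup.mk ω) : ℤ), ?_⟩, ?_⟩
  · have h1 : Continuous fun q : Ω ⧸ H.toAddSubgroup => (φ q : ℤ) := continuous_of_discreteTopology
    exact h1.comp QuotientAddGroup.continuous_mk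
  · intro ω n hn n' hn' hnn
    by_contra hne
    have h1 : (φ (QuotientAddGroup.mk (ω + n • α)) : ℤ) = φ (QuotientAddGroup.mk (ω + n' • α)) := hnn
    have h2 := hφ (Nat.cast_injective h1)
    rw [QuotientAddGroup.eq] at h2
    have h3 : -(ω + n • α) + (ω + n' • α) = (n' - n) • α := by
      rw [sub_smul]
      abel
    rw [h3] at h2
    have h4 : (n' - n) • α ∈ Sᶜ := hH h2
    refine h4 ⟨n' - n, ⟨?_, ?_⟩, rfl⟩
    · rw [Finset.coe_Icc, Set.mem_Icc] at hn hn'
      rw [Finset.mem_Icc]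
      omega
    · intro hc
      exact hne (by omega)

end

end Pool.Agent.V11260.LP
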