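import Pool.Agent.V11260.LP.G6
import Pool.Agent.V11260.LP.H1
import Pool.Agent.V11260.LP.H2
import Pool.Agent.V11260.LP.A7

set_option autoImplicit false
set_option linter.unusedSectionVars false
open Filter Topology MeasureTheory
open scoped ENNReal

namespace Pool.Agent.V11260.LP

section
variable {Ω : Type} [AddCommGroup Ω] [TopologicalSpace Ω] [IsTopologicalAddGroup Ω]
  [CompactSpace Ω] [T2Space Ω] [TotallyDisconnectedSpace Ω] [Infinite Ω]
  [MeasurableSpace Ω] [BorelSpace Ω]
  (μ : Measure Ω) [IsProbabilityMeasure μ] (α : Ω) (f : C(Ω, ℝ))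

/-- index functions of the approximations -/
def cj (α : Ω) (r : ℕ → C(Ω, ℤ)) (j : ℕ) : Ω → ℕ → ℤ → ℤ := fun ω i n =>
  if i < j then r i (ω + n • α) else n

/-- index functions of the limit -/
def ci (α : Ω) (r : ℕ → C(Ω, ℤ)) : Ω → ℕ → ℤ → ℤ := fun ω i n => r i (ω + n • α)

theorem cj_adm (r : ℕ → C(Ω, ℤ)) (j : ℕ) : Adm (cj α r j) := by
  intro i n
  unfold cj
  by_cases h : i < j
  · simp only [h, if_true]
    fun_prop
  · simp only [h, if_false]
    exact continuous_const

theorem ci_adm (r : ℕ → C(Ω, ℤ)) : Adm (ci α r) := by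
  intro i n
  unfold ci
  fun_prop

theorem cj_congr {r r' : ℕ → C(Ω, ℤ)} {j : ℕ} (h : ∀ i < j, r i = r' i) :
    cj α r j = cj α r' j := by
  funext ω i n
  unfold cj
  by_cases hi : i < j
  · rw [if_pos hi, if_pos hi, h i hi]
  · rw [if_neg hi, if_neg hi]

/-- **the recursive construction** -/
theorem main_r (hα : Dense (Set.range (fun n : ℤ => n • α))) {ε : ℝ} (hε : 0 < ε) (hε1 : ε ≤ 1)
    {M : ℝ} (hM : 4 + 2 * (‖f‖ + 2) ≤ M) :
    ∃ r : ℕ → C(Ω, ℤ), ∀ m, 1 ≤ ∑' n, dk μ α f ε M (ci α r) m n := by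
  classical
  set t : ℕ → ℝ≥0∞ := fun j => (2⁻¹ : ℝ≥0∞) ^ j with ht
  have ht0 : ∀ j, t j ≠ 0 := fun j => pow_ne_zero _ (by simp)
  have htt : ∀ j, t j ≠ ⊤ := fun j => ENNReal.pow_ne_top (by simp)
  have htsum : ∑' j, t j ≠ ⊤ := by
    rw [ht, ENNReal.tsum_geometric, ENNReal.one_sub_inv_two, inv_inv]
    norm_num
  choose ρ hρ using fun j : ℕ => near_dk μ α f hε hε1 (j + 1) (t j) (ht0 j)
  set R : ℕ → ℕ := fun j => ∑ i ∈ Finset.range (j + 1), ρ i with hR
  have hRmono : Monotone R := by
    intro i j hij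
    exact Finset.sum_le_sum_of_subset (Finset.range_subset_range.2 (by omega))
  have hRρ : ∀ j, ρ j ≤ R j := fun j =>
    Finset.single_le_sum (f := ρ) (fun _ _ => Nat.zero_le _) (Finset.mem_range.2 (Nat.lt_succ_self j))
  set δ : ℕ → ℝ≥0∞ := fun j => t j / ((2 * R j + 1 : ℕ) : ℝ≥0∞) with hδ
  have hδ0 : ∀ j, δ j ≠ 0 := fun j => by
    rw [hδ]
    simp only
    exact (ENNReal.div_pos (ht0 j) (ENNReal.natCast_ne_top _)).ne'
  have hδt : ∀ j, ((2 * R j + 1 : ℕ) : ℝ≥0∞) * δ j ≤ t j := fun j => ENNReal.mul_div_le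
  let P : ℕ → (ℕ → C(Ω, ℤ)) → Prop := fun j r =>
    (∀ (m n : ℤ), |m| ≤ j → n ∈ Finset.Icc (m - (R j : ℤ)) (m + R j) →
      dk μ α f ε M (cj α r (j + 1)) m n ≤ dk μ α f ε M (cj α r j) m n + δ j) ∧
    (∀ ω, Set.InjOn (fun n : ℤ => r j (ω + n • α)) (Finset.Icc (-(j : ℤ)) j : Finset ℤ))
  have hdep : ∀ j (r r' : ℕ → C(Ω, ℤ)), (∀ i ≤ j, r i = r' i) → P j r → P j r' := by
    intro j r r' hrr h
    refine ⟨fun m n hm hn => ?_, fun ω => ?_⟩
    · rw [← cj_congr α (fun i hi => hrr i (by omega)), ← cj_congr α (fun i hi => hrr i (by omega))]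
      exact h.1 m n hm hn
    · rw [← hrr j le_rfl]
      exact h.2 ω
  have hex : ∀ j (r : ℕ → C(Ω, ℤ)), ∃ W, P j (Function.update r j W) := by
    intro j r
    -- a number of steps `k` which is good for finitely many pairs
    have hk : ∃ k, ∀ m ∈ Finset.Icc (-(j : ℤ)) j, ∀ n ∈ Finset.Icc (m - (R j : ℤ)) (m + R j),
        Ak μ α f ε M (cj α r j) m n k ≤ dk μ α f ε M (cj α r j) m n + δ j := by
      have hev : ∀ᶠ k in atTop, ∀ m ∈ Finset.Icc (-(j : ℤ)) j,
          ∀ n ∈ Finset.Icc (m - (R j : ℤ)) (m + R j),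
          Ak μ α f ε M (cj α r j) m n k ≤ dk μ α f ε M (cj α r j) m n + δ j := by
        rw [Filter.eventually_all_finset]
        intro m _
        rw [Filter.eventually_all_finset]
        intro n _
        have h1 := dk_tendsto μ α f hε hε1 (cj_adm α r j) hM m n
        have hfin : dk μ α f ε M (cj α r j) m n ≠ ⊤ := by
          have := dk_sum μ α f hε hε1 (cj_adm α r j) hM m {n}
          rw [Finset.sum_singleton] at this
          exact ne_top_of_le_ne_top ENNReal.one_ne_top this
        have h2 : dk μ α f ε M (cj α r j) m n < dk μ α f ε M (cj α r j) m n + δ j :=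
          ENNReal.lt_add_right hfin (hδ0 j)
        exact (h1.eventually (Iio_mem_nhds h2)).mono fun k hk => le_of_lt hk
      exact hev.exists
    obtain ⟨k, hk⟩ := hk
    obtain ⟨W, hW⟩ := exists_r α hα (j + R j + 4 * k)
    refine ⟨W, ?_, ?_⟩
    · intro m n hm hn
      have e1 : cj α (Function.update r j W) j = cj α r j :=
        cj_congr α fun i hi => Function.update_of_ne (by omega) _ _
      rw [e1]
      have h1 : dk μ α f ε M (cj α (Function.update r j W) (j + 1)) m n ≤
          Ak μ α f ε M (cj α (Function.update r j W) (j + 1)) m n k := by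
        rw [dk_eq μ α f hε hε1 (cj_adm α _ _) hM]
        exact iInf_le _ k
      refine h1.trans ?_
      have h2 : Ak μ α f ε M (cj α r j) m n k =
          Ak μ α f ε M (cj α (Function.update r j W) (j + 1)) m n k := by
        have hn' := Finset.mem_Icc.1 hn
        refine Ak_congr μ α f hε (cj_adm α _ _) (cj_adm α _ _) M (N₀ := j + R j) (by omega)
          (by rcases abs_cases m with h | h <;> rcases abs_cases n with h' | h' <;> omega) k
          (N := j + R j + 4 * k) (by push_cast; omega) ?_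
        intro ω i
        rcases lt_trichotomy i j with hi | hi | hi
        · refine ⟨1, fun z _ => ?_⟩
          unfold cj
          rw [if_pos (by omega), if_pos hi, Function.update_of_ne (by omega)]
          rfl
        · subst hi
          obtain ⟨g, hg⟩ := perm_ext _ _ (hW ω)
          refine ⟨g, fun z hz => ?_⟩
          unfold cj
          rw [if_pos (by omega), if_neg (by omega), Function.update_self]
          exact hg z hz
        · refine ⟨1, fun z _ => ?_⟩
          unfold cj
          rw [if_neg (by omega), if_neg (by omega)]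
          rfl
      rw [← h2]
      exact hk m (by rw [Finset.mem_Icc]; exact abs_le.1 hm) n hn
    · intro ω
      simp only [Function.update_self]
      refine (hW ω).mono ?_
      exact_mod_cast Finset.Icc_subset_Icc (by push_cast; omega) (by push_cast; omega)
  have : Nonempty C(Ω, ℤ) := ⟨0⟩
  obtain ⟨r, hr⟩ := exists_seq P hdep hex
  refine ⟨r, fun m => ?_⟩
  have htail := tail_bound (fun j m n => dk μ α f ε M (cj α r j) m n)
    (fun m n k => Ak μ α f ε M (ci α r) m n k) R δ t hRmono
    (fun j m F => dk_sum μ α f hε hε1 (cj_adm α r j) hM m F)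
    (fun j m => hρ j (R j) (hRρ j) (cj α r (j + 1)) (cj_adm α _ _) (fun ω n => by
      unfold cj
      rw [if_neg (by omega)]) M hM m)
    (fun j m n hm hn => (hr j).1 m n hm hn) hδt htsum
    (fun m n k => by
      refine ⟨(|m| + |n| + 4 * k).toNat, fun j hj => ?_⟩
      have h1 : dk μ α f ε M (cj α r j) m n ≤ Ak μ α f ε M (cj α r j) m n k := by
        rw [dk_eq μ α f hε hε1 (cj_adm α _ _) hM]
        exact iInf_le _ k
      refine h1.trans (le_of_eq ?_)
      have hm0 := abs_nonneg m
      have hn0 := abs_nonneg n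
      refine Ak_congr μ α f hε (cj_adm α _ _) (ci_adm α _) M (N₀ := |m| + |n|) (by omega)
        (by omega) k (N := (|m| + |n| + 4 * k).toNat) (Int.self_le_toNat _) ?_
      intro ω i
      by_cases hi : i < j
      · refine ⟨1, fun z _ => ?_⟩
        unfold cj ci
        rw [if_pos hi]
        rfl
      · obtain ⟨g, hg⟩ := perm_ext i _ ((hr i).2 ω)
        refine ⟨g, fun z hz => ?_⟩
        unfold cj ci
        rw [if_neg hi]
        refine hg z ?_
        rw [Finset.mem_Icc] at hz ⊢
        omega) m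
  refine ENNReal.le_of_forall_pos_le_add fun η hη _ => ?_
  obtain ⟨R', hR'⟩ := htail (η : ℝ≥0∞) (by exact_mod_cast hη.ne')
  have h1 := to_dk μ α f hε hε1 (ci_adm α r) hM m _ (η : ℝ≥0∞) hR'
  exact h1.trans (add_le_add (ENNReal.sum_le_tsum _) le_rfl)

end

end Pool.Agent.V11260.LP
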